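import Pool.Agent.H20.AL.CRS

/-!
# CP: crossing principle for a convex quadrilateral with two legs (MP_591ade_co, p = 6, T3)

Quadrilateral `p, a, b, c` (counterclockwise), legs `[p, a]`, `[p, c]`, base edges `[a, b]`, `[b, c]`.
* `cross_legs`: a segment which meets the closed quadrilateral, has its end points outside and does not meet the base edges
  meets both legs.
* `cross_len`: such a segment is long.
-/

set_option autoImplicit false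

open Set Real

noncomputable section

namespace Pool.Agent.H78.P6

open Pool.Agent.H20.AL

/-- closed convex quadrilateral -/
def Qd (p a b c : ℂ) : Set ℂ :=
  {u | 0 ≤ cr (a - p) (u - p) ∧ 0 ≤ cr (b - a) (u - a) ∧ 0 ≤ cr (c - b) (u - b) ∧ 0 ≤ cr (p - c) (u - c)}

/-- the quadrilateral is convex and counterclockwise -/
structure QC (p a b c : ℂ) : Prop where
  pab : 0 < cr (a - p) (b - p)
  abc : 0 < cr (b - a) (c - a)
  bcp : 0 < cr (b - p) (c - p)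
  cpa : 0 < cr (a - p) (c - p)

theorem last4 (P W : Fin 4 → ℝ) (hP : ∀ i, 0 ≤ P i) (hW : ∃ i, W i < 0) :
    ∃ i, W i < 0 ∧ ∃ τ : ℝ, 0 ≤ τ ∧ τ ≤ 1 ∧ (1 - τ) * P i + τ * W i = 0 ∧
      ∀ j, 0 ≤ (1 - τ) * P j + τ * W j := by
  classical
  obtain ⟨i0, hi0⟩ := hW
  obtain ⟨i, hi, hmin⟩ := Finset.exists_min_image (Finset.univ.filter fun i => W i < 0)
    (fun i => P i / (P i - W i)) ⟨i0, Finset.mem_filter.2 ⟨Finset.mem_univ _, hi0⟩⟩
  have hWi : W i < 0 := (Finset.mem_filter.1 hi).2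
  have hd : 0 < P i - W i := by have := hP i; linarith
  have h0 : 0 ≤ P i / (P i - W i) := div_nonneg (hP i) hd.le
  have h1 : P i / (P i - W i) ≤ 1 := by
    rw [div_le_one hd]
    linarith
  refine ⟨i, hWi, P i / (P i - W i), h0, h1, ?_, ?_⟩
  · field_simp
    ring
  · intro j
    by_cases hj : W j < 0
    · have hdj : 0 < P j - W j := by have := hP j; linarith
      have h2 := hmin j (Finset.mem_filter.2 ⟨Finset.mem_univ _, hj⟩)
      rw [le_div_iff₀ hdj] at h2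
      nlinarith
    · push Not at hj
      have h3 := mul_nonneg (sub_nonneg.2 h1) (hP j)
      have h4 := mul_nonneg h0 hj
      linarith

/-- a point on the line of the edge `[p, a]` which is on the right sides of the neighbouring edges is on the edge -/
theorem on_edge {c p a b u : ℂ} (h1 : 0 < cr (p - c) (a - c)) (h2 : 0 < cr (a - p) (b - p))
    (h0 : cr (a - p) (u - p) = 0) (hc : 0 ≤ cr (p - c) (u - c)) (hb : 0 ≤ cr (b - a) (u - a)) :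
    ∃ σ : ℝ, 0 ≤ σ ∧ σ ≤ 1 ∧ u = p + (σ : ℂ) * (a - p) := by
  set F := cr (p - c) (a - c) with hF
  have hu : u = p + ((cr (p - c) (u - c) / F : ℝ) : ℂ) * (a - p) := by
    have h3 : (F : ℂ) * (u - p) = (cr (p - c) (u - c) : ℂ) * (a - p) := by
      have h4 : (F : ℂ) * (u - p) = (cr (p - c) (u - c) : ℂ) * (a - p) - (cr (a - p) (u - p) : ℂ) * (p - c) := by
        rw [hF]
        apply Complex.ext <;> simp [cr] <;> ring
      rw [h4, h0]; simp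
    have hne : (F : ℂ) ≠ 0 := Complex.ofReal_ne_zero.2 h1.ne'
    push_cast
    rw [div_mul_eq_mul_div, ← h3, mul_div_cancel_left₀ _ hne]
    ring
  set σ := cr (p - c) (u - c) / F with hσ
  have hσ0 : 0 ≤ σ := div_nonneg hc h1.le
  refine ⟨σ, hσ0, ?_, hu⟩
  have h5 : cr (b - a) (u - a) = (1 - σ) * cr (a - p) (b - p) := by
    rw [hu]; simp [cr]; ring
  rw [h5] at hb
  by_contra hcon
  push Not at hcon
  have := mul_neg_of_neg_of_pos (show 1 - σ < 0 by linarith) h2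
  linarith

variable {p a b c : ℂ}

/-- exit through an edge of the quadrilateral, in the direction of an outer point `w` -/
theorem exit4 (h : QC p a b c) {q w : ℂ} (hq : q ∈ Qd p a b c) (hw : w ∉ Qd p a b c) :
    ∃ τ σ : ℝ, 0 ≤ τ ∧ τ ≤ 1 ∧ 0 ≤ σ ∧ σ ≤ 1 ∧
      ((cr (a - p) (w - p) < 0 ∧ q + (τ : ℂ) * (w - q) = p + (σ : ℂ) * (a - p)) ∨
       (cr (b - a) (w - a) < 0 ∧ q + (τ : ℂ) * (w - q) = a + (σ : ℂ) * (b - a)) ∨
       (cr (c - b) (w - b) < 0 ∧ q + (τ : ℂ) * (w - q) = b + (σ : ℂ) * (c - b)) ∨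
       (cr (p - c) (w - c) < 0 ∧ q + (τ : ℂ) * (w - q) = c + (σ : ℂ) * (p - c))) := by
  obtain ⟨q1, q2, q3, q4⟩ := hq
  obtain ⟨i, hi, τ, hτ0, hτ1, hz, hall⟩ := last4
    ![cr (a - p) (q - p), cr (b - a) (q - a), cr (c - b) (q - b), cr (p - c) (q - c)]
    ![cr (a - p) (w - p), cr (b - a) (w - a), cr (c - b) (w - b), cr (p - c) (w - c)]
    (by intro i; fin_cases i <;> simpa) (by
      by_contra hcon
      push Not at hcon
      exact hw ⟨hcon 0, hcon 1, hcon 2, hcon 3⟩)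
  set u := q + (τ : ℂ) * (w - q) with hu
  have g1 : 0 ≤ cr (a - p) (u - p) := by
    rw [hu, CRS_aff]
    exact hall 0
  have g2 : 0 ≤ cr (b - a) (u - a) := by
    rw [hu, CRS_aff]
    exact hall 1
  have g3 : 0 ≤ cr (c - b) (u - b) := by
    rw [hu, CRS_aff]
    exact hall 2
  have g4 : 0 ≤ cr (p - c) (u - c) := by
    rw [hu, CRS_aff]
    exact hall 3
  have e1 : 0 < cr (p - c) (a - c) := by
    have : cr (p - c) (a - c) = cr (a - p) (c - p) := by simp [cr]; ring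
    rw [this]; exact h.cpa
  have e3 : 0 < cr (c - b) (p - b) := by
    have : cr (c - b) (p - b) = cr (b - p) (c - p) := by simp [cr]; ring
    rw [this]; exact h.bcp
  have e4 : 0 < cr (a - p) (b - p) := h.pab
  have e5 : 0 < cr (b - a) (c - a) := h.abc
  fin_cases i
  · obtain ⟨σ, s0, s1, hs⟩ := on_edge (c := c) (b := b) e1 e4 (by rw [hu, CRS_aff]; exact hz) g4 g2
    exact ⟨τ, σ, hτ0, hτ1, s0, s1, Or.inl ⟨hi, hs⟩⟩
  · obtain ⟨σ, s0, s1, hs⟩ := on_edge (c := p) (p := a) (a := b) (b := c) e4 e5 (by rw [hu, CRS_aff]; exact hz) g1 g3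
    exact ⟨τ, σ, hτ0, hτ1, s0, s1, Or.inr (Or.inl ⟨hi, hs⟩)⟩
  · have e5' : 0 < cr (b - a) (c - a) := e5
    obtain ⟨σ, s0, s1, hs⟩ := on_edge (c := a) (p := b) (a := c) (b := p) e5' e3
      (by rw [hu, CRS_aff]; exact hz) g2 g4
    exact ⟨τ, σ, hτ0, hτ1, s0, s1, Or.inr (Or.inr (Or.inl ⟨hi, hs⟩))⟩
  · obtain ⟨σ, s0, s1, hs⟩ := on_edge (c := b) (p := c) (a := p) (b := a) e3 e1
      (by rw [hu, CRS_aff]; exact hz) g3 g1
    exact ⟨τ, σ, hτ0, hτ1, s0, s1, Or.inr (Or.inr (Or.inr ⟨hi, hs⟩))⟩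

/-- crossing principle: a segment which meets the quadrilateral, with end points outside, not meeting the base edges, meets
both legs -/
theorem cross_legs (h : QC p a b c) {z w : ℂ} {τ : ℝ} (h0 : 0 ≤ τ) (h1 : τ ≤ 1)
    (hq : z + (τ : ℂ) * (w - z) ∈ Qd p a b c) (hz : z ∉ Qd p a b c) (hw : w ∉ Qd p a b c)
    (hab : ∀ s σ : ℝ, 0 ≤ s → s ≤ 1 → 0 ≤ σ → σ ≤ 1 → z + (s : ℂ) * (w - z) ≠ a + (σ : ℂ) * (b - a))
    (hbc : ∀ s σ : ℝ, 0 ≤ s → s ≤ 1 → 0 ≤ σ → σ ≤ 1 → z + (s : ℂ) * (w - z) ≠ b + (σ : ℂ) * (c - b)) :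
    ∃ s σ t ρ : ℝ, 0 ≤ s ∧ s ≤ 1 ∧ 0 ≤ σ ∧ σ ≤ 1 ∧ 0 ≤ t ∧ t ≤ 1 ∧ 0 ≤ ρ ∧ ρ ≤ 1 ∧
      z + (s : ℂ) * (w - z) = p + (σ : ℂ) * (a - p) ∧ z + (t : ℂ) * (w - z) = p + (ρ : ℂ) * (c - p) := by
  set q := z + (τ : ℂ) * (w - z) with hqd
  -- exits
  have key : ∀ v : ℂ, v = z ∨ v = w → v ∉ Qd p a b c → ∃ s σ : ℝ, 0 ≤ s ∧ s ≤ 1 ∧ 0 ≤ σ ∧ σ ≤ 1 ∧
      ((cr (a - p) (v - p) < 0 ∧ z + (s : ℂ) * (w - z) = p + (σ : ℂ) * (a - p)) ∨
       (cr (p - c) (v - c) < 0 ∧ z + (s : ℂ) * (w - z) = p + (σ : ℂ) * (c - p))) := by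
    intro v hv hvo
    obtain ⟨r, σ, r0, r1, s0, s1, hh⟩ := exit4 h hq hvo
    obtain ⟨s, hs0, hs1, hs⟩ : ∃ s : ℝ, 0 ≤ s ∧ s ≤ 1 ∧ q + (r : ℂ) * (v - q) = z + (s : ℂ) * (w - z) := by
      rcases hv with rfl | rfl
      · refine ⟨τ - r * τ, by nlinarith, by nlinarith, ?_⟩
        rw [hqd]; push_cast; ring
      · refine ⟨τ + r * (1 - τ), ?_, by nlinarith, ?_⟩
        · have : 0 ≤ 1 - τ := by linarith
          positivity
        · rw [hqd]; push_cast; ring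
    rw [hs] at hh
    rcases hh with hh | hh | hh | hh
    · exact ⟨s, σ, hs0, hs1, s0, s1, Or.inl hh⟩
    · exact absurd hh.2 (hab s σ hs0 hs1 s0 s1)
    · exact absurd hh.2 (hbc s σ hs0 hs1 s0 s1)
    · refine ⟨s, 1 - σ, hs0, hs1, by linarith, by linarith, Or.inr ⟨hh.1, ?_⟩⟩
      rw [hh.2]; push_cast; ring
  obtain ⟨s, σ, s0, s1, σ0, σ1, hs⟩ := key z (Or.inl rfl) hz
  obtain ⟨t, ρ, t0, t1, ρ0, ρ1, ht⟩ := key w (Or.inr rfl) hw
  obtain ⟨q1, q2, q3, q4⟩ := hq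
  have bad : ∀ e v : ℂ, 0 ≤ cr e (q - v) → cr e (z - v) < 0 → cr e (w - v) < 0 → False := by
    intro e v g gz gw
    rw [hqd, CRS_aff] at g
    rcases h0.eq_or_lt with hh | hh
    · rw [← hh] at g; simp at g; linarith
    · have g2 := mul_neg_of_pos_of_neg hh gw
      have g3 := mul_nonpos_of_nonneg_of_nonpos (show 0 ≤ 1 - τ by linarith) gz.le
      linarith
  rcases hs with hs | hs <;> rcases ht with ht | ht
  · exact absurd (bad _ _ q1 hs.1 ht.1) id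
  · exact ⟨s, σ, t, ρ, s0, s1, σ0, σ1, t0, t1, ρ0, ρ1, hs.2, ht.2⟩
  · exact ⟨t, ρ, s, σ, t0, t1, ρ0, ρ1, s0, s1, σ0, σ1, ht.2, hs.2⟩
  · exact absurd (bad _ _ q4 hs.1 ht.1) id

end Pool.Agent.H78.P6
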