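import Pool.Agent.H78.P6.CP

/-!
# CL: length of a segment which meets both legs (MP_591ade_co, p = 6, T3)

`p` is the apex, `[p, a]`, `[p, c]` are the legs.  A segment `[z, w]` meets both legs, and `z, w` have distance `≥ 1` from `p, a, c`.
Then its length is at least `√(1 - A/4) + √(1 - B/4) + √(2 (1 - L^2/4) (1 - cos))` (`A, B` = squared lengths of the legs).
* `cross_len`: the three pieces.
* `no_edge`: a segment of length `≤ 73/50` does not meet both legs (legs `≤ √3`, cosine `≤ 77/100`).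
* `no_leg`, `no_leg'`: the same for a segment of length `≤ √3`, under stronger conditions.
-/

set_option autoImplicit false

open Set Real

noncomputable section

namespace Pool.Agent.H78.P6

open Pool.Agent.H20.AL

theorem CL_dt_le (u v : ℂ) : dt u v ≤ ‖u‖ * ‖v‖ := by
  have h := lag u v
  have h1 : dt u v ^ 2 ≤ (‖u‖ * ‖v‖) ^ 2 := by nlinarith [sq_nonneg (cr u v)]
  exact (abs_le_of_sq_le_sq' h1 (by positivity)).2

theorem CL_stw {a b c : ℂ} {s : ℝ} (s0 : 0 ≤ s) (s1 : s ≤ 1) (h1 : 1 ≤ dist b a) (h2 : 1 ≤ dist b c) :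
    1 - ‖c - a‖ ^ 2 / 4 ≤ ‖a + (s : ℂ) * (c - a) - b‖ ^ 2 := by
  have e := stewart a b c s
  have g1 := CRS_one' h1
  have g2 := CRS_one' h2
  have s1' : 0 ≤ 1 - s := by linarith
  have i1 := mul_le_mul_of_nonneg_left g1 s1'
  have i2 := mul_le_mul_of_nonneg_left g2 s0
  have i3 : s * (1 - s) ≤ 1 / 4 := by nlinarith [sq_nonneg (s - 1 / 2)]
  have i4 := mul_le_mul_of_nonneg_right i3 (sq_nonneg ‖c - a‖)
  linarith

/-- the three pieces of a segment which meets both legs -/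
theorem cross_len {p a c z w : ℂ} {s σ t ρ : ℝ} (s0 : 0 ≤ s) (s1 : s ≤ 1) (σ0 : 0 ≤ σ) (σ1 : σ ≤ 1)
    (t0 : 0 ≤ t) (t1 : t ≤ 1) (ρ0 : 0 ≤ ρ) (ρ1 : ρ ≤ 1)
    (h1 : z + (s : ℂ) * (w - z) = p + (σ : ℂ) * (a - p)) (h2 : z + (t : ℂ) * (w - z) = p + (ρ : ℂ) * (c - p))
    (hzp : 1 ≤ dist z p) (hza : 1 ≤ dist z a) (hzc : 1 ≤ dist z c)
    (hwp : 1 ≤ dist w p) (hwa : 1 ≤ dist w a) (hwc : 1 ≤ dist w c) :
    ∃ X Y Z : ℝ, 0 ≤ X ∧ 0 ≤ Y ∧ 0 ≤ Z ∧ X + Y + Z = ‖w - z‖ ∧ 1 - ‖a - p‖ ^ 2 / 4 ≤ X ^ 2 ∧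
      1 - ‖c - p‖ ^ 2 / 4 ≤ Z ^ 2 ∧
      2 * (1 - ‖w - z‖ ^ 2 / 4) * (‖a - p‖ * ‖c - p‖ - dt (a - p) (c - p)) ≤ ‖a - p‖ * ‖c - p‖ * Y ^ 2 := by
  have a1 := CL_stw σ0 σ1 hzp hza
  have a2 := CL_stw σ0 σ1 hwp hwa
  have b1 := CL_stw ρ0 ρ1 hzp hzc
  have b2 := CL_stw ρ0 ρ1 hwp hwc
  have hpz : 1 ≤ dist p z := by rwa [dist_comm]
  have hpw : 1 ≤ dist p w := by rwa [dist_comm]
  have d1 := CL_stw s0 s1 hpz hpw
  have d2 := CL_stw t0 t1 hpz hpw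
  rw [← h1] at a1 a2
  rw [← h2] at b1 b2
  rw [h1] at d1
  rw [h2] at d2
  set L := ‖w - z‖ with hL
  have hL0 : 0 ≤ L := norm_nonneg _
  have e1 : z + (s : ℂ) * (w - z) - z = (s : ℂ) * (w - z) := by ring
  have e2 : z + (s : ℂ) * (w - z) - w = ((s - 1 : ℝ) : ℂ) * (w - z) := by push_cast; ring
  have e3 : z + (t : ℂ) * (w - z) - z = (t : ℂ) * (w - z) := by ring
  have e4 : z + (t : ℂ) * (w - z) - w = ((t - 1 : ℝ) : ℂ) * (w - z) := by push_cast; ring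
  have e5 : p + (σ : ℂ) * (a - p) - p = (σ : ℂ) * (a - p) := by ring
  have e6 : p + (ρ : ℂ) * (c - p) - p = (ρ : ℂ) * (c - p) := by ring
  rw [e1, CRS_sm] at a1
  rw [e2, CRS_sm] at a2
  rw [e3, CRS_sm] at b1
  rw [e4, CRS_sm] at b2
  rw [e5, CRS_sm] at d1
  rw [e6, CRS_sm] at d2
  set nA := ‖a - p‖ with hnA
  set nB := ‖c - p‖ with hnB
  have hA0 : 0 ≤ nA := norm_nonneg _
  have hB0 : 0 ≤ nB := norm_nonneg _
  -- the inner piece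
  have hin : (t - s) ^ 2 * L ^ 2 = (σ * nA) ^ 2 + (ρ * nB) ^ 2 - 2 * (σ * ρ) * dt (a - p) (c - p) := by
    have h3 : ((t - s : ℝ) : ℂ) * (w - z) = (ρ : ℂ) * (c - p) - (σ : ℂ) * (a - p) := by
      have : ((t - s : ℝ) : ℂ) * (w - z) = (z + (t : ℂ) * (w - z)) - (z + (s : ℂ) * (w - z)) := by
        push_cast; ring
      rw [this, h1, h2]; ring
    have h4 : ‖((t - s : ℝ) : ℂ) * (w - z)‖ ^ 2 = ‖(ρ : ℂ) * (c - p) - (σ : ℂ) * (a - p)‖ ^ 2 := by rw [h3]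
    rw [CRS_sm] at h4
    rw [h4, mul_pow, mul_pow, hnA, hnB, nsq, nsq, nsq]
    simp [dt]
    ring
  have hdt := CL_dt_le (a - p) (c - p)
  rw [← hnA, ← hnB] at hdt
  have hm0 : 0 ≤ nA * nB := mul_nonneg hA0 hB0
  have hprod : 1 - L ^ 2 / 4 ≤ (σ * nA) * (ρ * nB) := by
    by_contra hcon
    push Not at hcon
    have g1 : 0 ≤ σ * nA := mul_nonneg σ0 hA0
    have g2 : 0 ≤ ρ * nB := mul_nonneg ρ0 hB0
    have g3 : 1 - L ^ 2 / 4 ≤ (σ * nA) ^ 2 := by rw [mul_pow]; exact d1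
    have g4 : 1 - L ^ 2 / 4 ≤ (ρ * nB) ^ 2 := by rw [mul_pow]; exact d2
    have g5 : 0 ≤ (σ * nA) * (ρ * nB) := mul_nonneg g1 g2
    have g6 : 0 < 1 - L ^ 2 / 4 := lt_of_le_of_lt g5 hcon
    have g7 : (1 - L ^ 2 / 4) * (1 - L ^ 2 / 4) ≤ (σ * nA) ^ 2 * (ρ * nB) ^ 2 :=
      mul_le_mul g3 g4 g6.le (sq_nonneg _)
    nlinarith
  have hY : 2 * (1 - L ^ 2 / 4) * (nA * nB - dt (a - p) (c - p)) ≤ nA * nB * ((t - s) ^ 2 * L ^ 2) := by
    have k1 : (σ * nA) ^ 2 + (ρ * nB) ^ 2 - 2 * (σ * ρ) * dt (a - p) (c - p) =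
      (σ * nA - ρ * nB) ^ 2 + 2 * (σ * ρ) * (nA * nB - dt (a - p) (c - p)) := by ring
    rw [hin, k1]
    have k2 : 0 ≤ nA * nB - dt (a - p) (c - p) := by linarith
    have k3 := mul_le_mul_of_nonneg_right hprod k2
    have k4 := mul_nonneg hm0 (sq_nonneg (σ * nA - ρ * nB))
    nlinarith
  rcases le_total s t with hst | hst
  · refine ⟨s * L, (t - s) * L, (1 - t) * L, mul_nonneg s0 hL0, mul_nonneg (by linarith) hL0,
      mul_nonneg (by linarith) hL0, by ring, ?_, ?_, ?_⟩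
    · rw [mul_pow]; exact a1
    · have : ((1 - t) * L) ^ 2 = (t - 1) ^ 2 * L ^ 2 := by ring
      rw [this]; exact b2
    · rw [mul_pow]; exact hY
  · refine ⟨(1 - s) * L, (s - t) * L, t * L, mul_nonneg (by linarith) hL0, mul_nonneg (by linarith) hL0,
      mul_nonneg t0 hL0, by ring, ?_, ?_, ?_⟩
    · have : ((1 - s) * L) ^ 2 = (s - 1) ^ 2 * L ^ 2 := by ring
      rw [this]; exact a2
    · rw [mul_pow]; exact b1
    · have : ((s - t) * L) ^ 2 = (t - s) ^ 2 * L ^ 2 := by ring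
      rw [this]; exact hY

/-- the configuration: a segment `[z, w]` which meets both legs -/
structure Crs (p a c z w : ℂ) : Prop where
  ex : ∃ s σ t ρ : ℝ, 0 ≤ s ∧ s ≤ 1 ∧ 0 ≤ σ ∧ σ ≤ 1 ∧ 0 ≤ t ∧ t ≤ 1 ∧ 0 ≤ ρ ∧ ρ ≤ 1 ∧
      z + (s : ℂ) * (w - z) = p + (σ : ℂ) * (a - p) ∧ z + (t : ℂ) * (w - z) = p + (ρ : ℂ) * (c - p)
  zp : 1 ≤ dist z p
  za : 1 ≤ dist z a
  zc : 1 ≤ dist z c
  wp : 1 ≤ dist w p
  wa : 1 ≤ dist w a
  wc : 1 ≤ dist w c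

/-- an edge of length `≤ 73/50` does not meet both legs -/
theorem no_edge {p a c z w : ℂ} (h : Crs p a c z w) (hA : ‖a - p‖ ^ 2 ≤ 3) (hC : ‖c - p‖ ^ 2 ≤ 3)
    (hA0 : 0 < ‖a - p‖) (hC0 : 0 < ‖c - p‖) (hD : dt (a - p) (c - p) ≤ 77 / 100 * (‖a - p‖ * ‖c - p‖))
    (hL : ‖w - z‖ ≤ 73 / 50) : False := by
  obtain ⟨s, σ, t, ρ, s0, s1, σ0, σ1, t0, t1, ρ0, ρ1, h1, h2⟩ := h.ex
  obtain ⟨X, Y, Z, hX, hY, hZ, hsum, gX, gZ, gY⟩ := cross_len s0 s1 σ0 σ1 t0 t1 ρ0 ρ1 h1 h2 h.zp h.za h.zc h.wp h.wa h.wc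
  have hX1 : 1 / 2 ≤ X := by
    by_contra hcon
    push Not at hcon
    nlinarith
  have hZ1 : 1 / 2 ≤ Z := by
    by_contra hcon
    push Not at hcon
    nlinarith
  have hY1 : Y ≤ 23 / 50 := by linarith
  have hm : 0 < ‖a - p‖ * ‖c - p‖ := mul_pos hA0 hC0
  set m := ‖a - p‖ * ‖c - p‖ with hmd
  have hL2 : ‖w - z‖ ^ 2 ≤ (73 / 50) ^ 2 := pow_le_pow_left₀ (norm_nonneg _) hL 2
  have g1 : 4671 / 10000 ≤ 1 - ‖w - z‖ ^ 2 / 4 := by
    norm_num at hL2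
    linarith
  have g2 : 23 / 100 * m ≤ m - dt (a - p) (c - p) := by linarith
  have g3 : 4671 / 10000 * (23 / 100 * m) ≤ (1 - ‖w - z‖ ^ 2 / 4) * (m - dt (a - p) (c - p)) :=
    mul_le_mul g1 g2 (by positivity) (by linarith)
  have g4 : Y ^ 2 ≤ (23 / 50) ^ 2 := pow_le_pow_left₀ hY hY1 2
  have g5 : m * Y ^ 2 ≤ m * (23 / 50) ^ 2 := mul_le_mul_of_nonneg_left g4 hm.le
  nlinarith

/-- numerical step for the legs -/
theorem CL_num {A B D m X Y Z S1 D0 m0 h g y : ℝ} (hX : 0 ≤ X) (hZ : 0 ≤ Z) (hY : 0 ≤ Y) (hA : 1 - A / 4 ≤ X ^ 2)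
    (hB : 1 - B / 4 ≤ Z ^ 2) (_A4 : A ≤ 4) (B4 : B ≤ 4) (hYm : (m - D) / 2 ≤ m * Y ^ 2) (hm : m0 ≤ m) (hm0 : 0 < m0)
    (hD : D ≤ D0) (hD0 : 0 ≤ D0) (hy : 0 ≤ y) (hyy : y ^ 2 * m0 * 2 ≤ m0 - D0) (hS : A + B ≤ S1) (_h0 : 0 ≤ h)
    (hh : h ^ 2 ≤ (1 - A / 4) * (1 - B / 4)) (hg0 : 0 ≤ g) (hg : g ^ 2 ≤ 2 - S1 / 4 + 2 * h) (hsum : 3 < (g + y) ^ 2) :
    3 < (X + Y + Z) ^ 2 := by
  have hmp : 0 < m := lt_of_lt_of_le hm0 hm
  have k1 : h ≤ X * Z := by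
    have : h ^ 2 ≤ (X * Z) ^ 2 := by
      rw [mul_pow]
      refine hh.trans (mul_le_mul hA hB (by linarith) (sq_nonneg _))
    exact (abs_le_of_sq_le_sq' this (mul_nonneg hX hZ)).2
  have k2 : g ≤ X + Z := by
    have : g ^ 2 ≤ (X + Z) ^ 2 := by nlinarith
    exact (abs_le_of_sq_le_sq' this (by linarith)).2
  have k3 : y ≤ Y := by
    by_contra hcon
    push Not at hcon
    have k4 : Y ^ 2 < y ^ 2 := by nlinarith
    -- m (1 - 2 y^2) ≥ m0 (1 - 2 y^2) ≥ D0 ≥ D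
    have k5 : D0 ≤ m0 * (1 - 2 * y ^ 2) := by linarith
    have k6 : 0 ≤ 1 - 2 * y ^ 2 := by
      by_contra hc
      push Not at hc
      nlinarith
    have k7 : m0 * (1 - 2 * y ^ 2) ≤ m * (1 - 2 * y ^ 2) := mul_le_mul_of_nonneg_right hm k6
    have k8 : m * Y ^ 2 < m * y ^ 2 := mul_lt_mul_of_pos_left k4 hmp
    linarith
  have k9 : (g + y) ^ 2 ≤ (X + Y + Z) ^ 2 := pow_le_pow_left₀ (by positivity) (by linarith) 2
  linarith

theorem CL_m {A B m m0 : ℝ} (hm : 0 ≤ m) (h : m ^ 2 = A * B) (h0 : m0 ^ 2 ≤ A * B) : m0 ≤ m :=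
  (abs_le_of_sq_le_sq' (h ▸ h0) hm).2

/-- a segment of length `≤ √3` does not meet both legs (case R) -/
theorem no_leg {p a c z w : ℂ} (h : Crs p a c z w) (hA : ‖a - p‖ ^ 2 ≤ 3) (hC : ‖c - p‖ ^ 2 ≤ 3)
    (hA0 : 1 ≤ ‖a - p‖ ^ 2) (hC0 : 1 ≤ ‖c - p‖ ^ 2) (hS : ‖a - p‖ ^ 2 + ‖c - p‖ ^ 2 ≤ 103 / 20)
    (hD : dt (a - p) (c - p) ≤ 9 / 10)
    (hD' : dt (a - p) (c - p) + (‖a - p‖ ^ 2 + ‖c - p‖ ^ 2) / 4 ≤ 209 / 100)
    (hL : ‖w - z‖ ^ 2 ≤ 3) : False := by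
  obtain ⟨s, σ, t, ρ, s0, s1, σ0, σ1, t0, t1, ρ0, ρ1, h1, h2⟩ := h.ex
  obtain ⟨X, Y, Z, hX, hY, hZ, hsum, gX, gZ, gY⟩ := cross_len s0 s1 σ0 σ1 t0 t1 ρ0 ρ1 h1 h2 h.zp h.za h.zc h.wp h.wa h.wc
  have hdt := CL_dt_le (a - p) (c - p)
  set D := dt (a - p) (c - p) with hDd
  set m := ‖a - p‖ * ‖c - p‖ with hmd
  have hm0 : 0 ≤ m := by positivity
  have hm2 : m ^ 2 = ‖a - p‖ ^ 2 * ‖c - p‖ ^ 2 := by rw [hmd, mul_pow]
  set A := ‖a - p‖ ^ 2 with hAd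
  set B := ‖c - p‖ ^ 2 with hBd
  have gY' : (m - D) / 2 ≤ m * Y ^ 2 := by
    have : 1 / 4 * (m - D) ≤ (1 - ‖w - z‖ ^ 2 / 4) * (m - D) :=
      mul_le_mul_of_nonneg_right (by linarith) (by linarith)
    linarith
  have hlt : ¬ (3 < (X + Y + Z) ^ 2) := by rw [hsum]; push Not; exact hL
  have i1 : 0 ≤ (A - 1) * (B - 1) := mul_nonneg (by linarith) (by linarith)
  have i3 : 0 ≤ (3 - A) * (3 - B) := mul_nonneg (by linarith) (by linarith)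
  apply hlt
  rcases le_total (A + B) 3 with c1 | c1
  · refine CL_num (S1 := 3) (D0 := 9 / 10) (m0 := 1) (h := 61 / 100) (g := 157 / 100) (y := 22 / 100) hX hZ hY gX gZ
      (by linarith) (by linarith) gY' (CL_m hm0 hm2 (by nlinarith)) (by norm_num) hD (by norm_num) (by norm_num)
      (by norm_num) c1 (by norm_num) (by nlinarith) (by norm_num) (by norm_num) (by norm_num)
  rcases le_total (A + B) 4 with c2 | c2
  · refine CL_num (S1 := 4) (D0 := 9 / 10) (m0 := 141 / 100) (h := 43 / 100) (g := 136 / 100) (y := 42 / 100) hX hZ hY gX gZ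
      (by linarith) (by linarith) gY' (CL_m hm0 hm2 (by nlinarith)) (by norm_num) hD (by norm_num) (by norm_num)
      (by norm_num) c2 (by norm_num) (by nlinarith) (by norm_num) (by norm_num) (by norm_num)
  rcases le_total (A + B) (9 / 2) with c3 | c3
  · refine CL_num (S1 := 9 / 2) (D0 := 9 / 10) (m0 := 173 / 100) (h := 39 / 100) (g := 128 / 100) (y := 48 / 100) hX hZ hY gX gZ
      (by linarith) (by linarith) gY' (CL_m hm0 hm2 (by nlinarith)) (by norm_num) hD (by norm_num) (by norm_num)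
      (by norm_num) c3 (by norm_num) (by nlinarith) (by norm_num) (by norm_num) (by norm_num)
  rcases le_total (A + B) (49 / 10) with c4 | c4
  · refine CL_num (S1 := 49 / 10) (D0 := 9 / 10) (m0 := 212 / 100) (h := 362 / 1000) (g := 1224 / 1000) (y := 53 / 100) hX hZ hY
      gX gZ (by linarith) (by linarith) gY' (CL_m hm0 hm2 (by nlinarith)) (by norm_num) hD (by norm_num) (by norm_num)
      (by norm_num) c4 (by norm_num) (by nlinarith) (by norm_num) (by norm_num) (by norm_num)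
  · refine CL_num (S1 := 103 / 20) (D0 := 173 / 200) (m0 := 238 / 100) (h := 34 / 100) (g := 1179 / 1000) (y := 563 / 1000)
      hX hZ hY gX gZ (by linarith) (by linarith) gY' (CL_m hm0 hm2 (by nlinarith)) (by norm_num) (by linarith) (by norm_num)
      (by norm_num) (by norm_num) hS (by norm_num) (by nlinarith) (by norm_num) (by norm_num) (by norm_num)

/-- a segment of length `≤ √3` does not meet both legs (case M) -/
theorem no_leg' {p a c z w : ℂ} (h : Crs p a c z w) (hA : ‖a - p‖ ^ 2 ≤ 283 / 100) (hC : ‖c - p‖ ^ 2 ≤ 283 / 100)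
    (hA0 : 1 ≤ ‖a - p‖ ^ 2) (hC0 : 1 ≤ ‖c - p‖ ^ 2) (hD : dt (a - p) (c - p) ≤ 41 / 100) (hL : ‖w - z‖ ^ 2 ≤ 3) : False := by
  obtain ⟨s, σ, t, ρ, s0, s1, σ0, σ1, t0, t1, ρ0, ρ1, h1, h2⟩ := h.ex
  obtain ⟨X, Y, Z, hX, hY, hZ, hsum, gX, gZ, gY⟩ := cross_len s0 s1 σ0 σ1 t0 t1 ρ0 ρ1 h1 h2 h.zp h.za h.zc h.wp h.wa h.wc
  have hdt := CL_dt_le (a - p) (c - p)
  set D := dt (a - p) (c - p) with hDd
  set m := ‖a - p‖ * ‖c - p‖ with hmd
  have hm0 : 0 ≤ m := by positivity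
  have hm2 : m ^ 2 = ‖a - p‖ ^ 2 * ‖c - p‖ ^ 2 := by rw [hmd, mul_pow]
  set A := ‖a - p‖ ^ 2 with hAd
  set B := ‖c - p‖ ^ 2 with hBd
  have gY' : (m - D) / 2 ≤ m * Y ^ 2 := by
    have : 1 / 4 * (m - D) ≤ (1 - ‖w - z‖ ^ 2 / 4) * (m - D) :=
      mul_le_mul_of_nonneg_right (by linarith) (by linarith)
    linarith
  have hlt : ¬ (3 < (X + Y + Z) ^ 2) := by rw [hsum]; push Not; exact hL
  have i1 : 0 ≤ (A - 1) * (B - 1) := mul_nonneg (by linarith) (by linarith)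
  have i3 : 0 ≤ (283 / 100 - A) * (283 / 100 - B) := mul_nonneg (by linarith) (by linarith)
  apply hlt
  rcases le_total (A + B) (46 / 10) with c1 | c1
  · refine CL_num (S1 := 46 / 10) (D0 := 41 / 100) (m0 := 1) (h := 40 / 100) (g := 128 / 100) (y := 54 / 100) hX hZ hY gX gZ
      (by linarith) (by linarith) gY' (CL_m hm0 hm2 (by nlinarith)) (by norm_num) hD (by norm_num) (by norm_num)
      (by norm_num) c1 (by norm_num) (by nlinarith) (by norm_num) (by norm_num) (by norm_num)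
  rcases le_total (A + B) (54 / 10) with c2 | c2
  · refine CL_num (S1 := 54 / 10) (D0 := 41 / 100) (m0 := 223 / 100) (h := 323 / 1000) (g := 1138 / 1000) (y := 63 / 100) hX hZ hY
      gX gZ (by linarith) (by linarith) gY' (CL_m hm0 hm2 (by nlinarith)) (by norm_num) hD (by norm_num) (by norm_num)
      (by norm_num) c2 (by norm_num) (by nlinarith) (by norm_num) (by norm_num) (by norm_num)
  · refine CL_num (S1 := 566 / 100) (D0 := 41 / 100) (m0 := 2696 / 1000) (h := 2925 / 10000) (g := 10816 / 10000)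
      (y := 651 / 1000) hX hZ hY gX gZ (by linarith) (by linarith) gY' (CL_m hm0 hm2 (by nlinarith)) (by norm_num) hD
      (by norm_num) (by norm_num) (by norm_num) (by linarith) (by norm_num) (by nlinarith) (by norm_num) (by norm_num)
      (by norm_num)

end Pool.Agent.H78.P6
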