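import Pool.Agent.H30.P6.Snd

/-! rows of the domain of the real apex (generated) -/

set_option autoImplicit false

namespace Pool.Agent.H78.P6

open Pool.Agent.H30.P6

/-- rows of the frames: `Phi ≤ 1/3`, faces, strips, edges -/
def rowsC : List Row := [
  ⟨0, 0, 0, 0, 0, 0, 0, 0, 0, 3, 0, 0, 0, 0, 3, 3, 0, 3, 0, -50, 0⟩,
  ⟨0, 0, 0, 0, 0, 0, 0, 0, 0, 0, 3, 0, 3, 3, 3, 3, 3, 3, 0, -50, 0⟩,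
  ⟨0, 0, 0, 0, 0, 0, 0, 0, 0, 0, 0, 3, 3, 3, 0, 0, 3, 0, 0, -50, 0⟩,
  ⟨0, 0, -24, 0, 0, 0, 0, 0, -24, -1, 0, 0, 0, 0, 0, 0, 0, 0, 0, 0, 0⟩,
  ⟨0, 16, -16, 0, 0, 0, 0, 16, -16, -1, 0, 0, 0, 0, 0, 0, 0, 0, 0, 0, 0⟩,
  ⟨0, -16, -16, 0, 0, 0, 0, -16, -16, -1, 0, 0, 0, 0, 0, 0, 0, 0, 0, 0, 0⟩,
  ⟨0, 25, -11, 0, 0, 0, 0, 25, -11, -1, 0, 0, 0, 0, 0, 0, 0, 0, 0, 0, 0⟩,
  ⟨0, -25, -11, 0, 0, 0, 0, -25, -11, -1, 0, 0, 0, 0, 0, 0, 0, 0, 0, 0, 0⟩,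
  ⟨0, 43, 0, 0, 0, 0, 0, 43, 0, -1, 0, 0, 0, 0, 0, 0, 0, 0, 0, 0, 0⟩,
  ⟨0, -43, 0, 0, 0, 0, 0, -43, 0, -1, 0, 0, 0, 0, 0, 0, 0, 0, 0, 0, 0⟩,
  ⟨0, 75, 25, 0, 0, 0, 0, 75, 25, -1, 0, 0, 0, 0, 0, 0, 0, 0, 0, 0, 0⟩,
  ⟨0, -75, 25, 0, 0, 0, 0, -75, 25, -1, 0, 0, 0, 0, 0, 0, 0, 0, 0, 0, 0⟩,
  ⟨0, 56, 56, 0, 0, 0, 0, 56, 56, -1, 0, 0, 0, 0, 0, 0, 0, 0, 0, 0, 0⟩,
  ⟨0, -56, 56, 0, 0, 0, 0, -56, 56, -1, 0, 0, 0, 0, 0, 0, 0, 0, 0, 0, 0⟩,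
  ⟨0, 0, 112, 0, 0, 0, 0, 0, 112, -1, 0, 0, 0, 0, 0, 0, 0, 0, 0, 0, 0⟩,
  ⟨0, 0, 0, 0, -24, 0, 0, 0, -24, 0, -1, 0, 0, 0, 0, 0, 0, 0, 0, 0, 0⟩,
  ⟨0, 0, 0, 16, -16, 0, 0, 16, -16, 0, -1, 0, 0, 0, 0, 0, 0, 0, 0, 0, 0⟩,
  ⟨0, 0, 0, -16, -16, 0, 0, -16, -16, 0, -1, 0, 0, 0, 0, 0, 0, 0, 0, 0, 0⟩,
  ⟨0, 0, 0, 25, -11, 0, 0, 25, -11, 0, -1, 0, 0, 0, 0, 0, 0, 0, 0, 0, 0⟩,
  ⟨0, 0, 0, -25, -11, 0, 0, -25, -11, 0, -1, 0, 0, 0, 0, 0, 0, 0, 0, 0, 0⟩,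
  ⟨0, 0, 0, 43, 0, 0, 0, 43, 0, 0, -1, 0, 0, 0, 0, 0, 0, 0, 0, 0, 0⟩,
  ⟨0, 0, 0, -43, 0, 0, 0, -43, 0, 0, -1, 0, 0, 0, 0, 0, 0, 0, 0, 0, 0⟩,
  ⟨0, 0, 0, 75, 25, 0, 0, 75, 25, 0, -1, 0, 0, 0, 0, 0, 0, 0, 0, 0, 0⟩,
  ⟨0, 0, 0, -75, 25, 0, 0, -75, 25, 0, -1, 0, 0, 0, 0, 0, 0, 0, 0, 0, 0⟩,
  ⟨0, 0, 0, 56, 56, 0, 0, 56, 56, 0, -1, 0, 0, 0, 0, 0, 0, 0, 0, 0, 0⟩,
  ⟨0, 0, 0, -56, 56, 0, 0, -56, 56, 0, -1, 0, 0, 0, 0, 0, 0, 0, 0, 0, 0⟩,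
  ⟨0, 0, 0, 0, 112, 0, 0, 0, 112, 0, -1, 0, 0, 0, 0, 0, 0, 0, 0, 0, 0⟩,
  ⟨0, 0, 0, 0, 0, 0, -24, 0, -24, 0, 0, -1, 0, 0, 0, 0, 0, 0, 0, 0, 0⟩,
  ⟨0, 0, 0, 0, 0, 16, -16, 16, -16, 0, 0, -1, 0, 0, 0, 0, 0, 0, 0, 0, 0⟩,
  ⟨0, 0, 0, 0, 0, -16, -16, -16, -16, 0, 0, -1, 0, 0, 0, 0, 0, 0, 0, 0, 0⟩,
  ⟨0, 0, 0, 0, 0, 25, -11, 25, -11, 0, 0, -1, 0, 0, 0, 0, 0, 0, 0, 0, 0⟩,
  ⟨0, 0, 0, 0, 0, -25, -11, -25, -11, 0, 0, -1, 0, 0, 0, 0, 0, 0, 0, 0, 0⟩,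
  ⟨0, 0, 0, 0, 0, 43, 0, 43, 0, 0, 0, -1, 0, 0, 0, 0, 0, 0, 0, 0, 0⟩,
  ⟨0, 0, 0, 0, 0, -43, 0, -43, 0, 0, 0, -1, 0, 0, 0, 0, 0, 0, 0, 0, 0⟩,
  ⟨0, 0, 0, 0, 0, 75, 25, 75, 25, 0, 0, -1, 0, 0, 0, 0, 0, 0, 0, 0, 0⟩,
  ⟨0, 0, 0, 0, 0, -75, 25, -75, 25, 0, 0, -1, 0, 0, 0, 0, 0, 0, 0, 0, 0⟩,
  ⟨0, 0, 0, 0, 0, 56, 56, 56, 56, 0, 0, -1, 0, 0, 0, 0, 0, 0, 0, 0, 0⟩,
  ⟨0, 0, 0, 0, 0, -56, 56, -56, 56, 0, 0, -1, 0, 0, 0, 0, 0, 0, 0, 0, 0⟩,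
  ⟨0, 0, 0, 0, 0, 0, 112, 0, 112, 0, 0, -1, 0, 0, 0, 0, 0, 0, 0, 0, 0⟩,
  ⟨0, -6, -2, 0, 0, 0, 0, -6, -2, 0, 0, 0, -1, 0, 0, 0, 0, 0, 0, 0, 0⟩,
  ⟨0, 0, 0, -6, -2, 0, 0, -6, -2, 0, 0, 0, 0, -1, 0, 0, 0, 0, 0, 0, 0⟩,
  ⟨0, 0, 0, 6, -2, 0, 0, 6, -2, 0, 0, 0, 0, 0, -1, 0, 0, 0, 0, 0, 0⟩,
  ⟨0, 0, 0, 0, 0, 6, -2, 6, -2, 0, 0, 0, 0, 0, 0, -1, 0, 0, 0, 0, 0⟩,
  ⟨0, 35, -34, -35, 34, 0, 0, 0, 0, 0, 0, 0, 0, 0, 0, 0, -10, 0, 0, -11, 0⟩,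
  ⟨0, 43, -31, -43, 31, 0, 0, 0, 0, 0, 0, 0, 0, 0, 0, 0, -10, 0, 0, -6, 0⟩,
  ⟨0, 52, -26, -52, 26, 0, 0, 0, 0, 0, 0, 0, 0, 0, 0, 0, -10, 0, 0, -2, 0⟩,
  ⟨0, 60, -20, -60, 20, 0, 0, 0, 0, 0, 0, 0, 0, 0, 0, 0, -10, 0, 0, 0, 0⟩,
  ⟨0, 64, -14, -64, 14, 0, 0, 0, 0, 0, 0, 0, 0, 0, 0, 0, -10, 0, 0, -2, 0⟩,
  ⟨0, 68, -7, -68, 7, 0, 0, 0, 0, 0, 0, 0, 0, 0, 0, 0, -10, 0, 0, -5, 0⟩,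
  ⟨0, 69, 0, -69, 0, 0, 0, 0, 0, 0, 0, 0, 0, 0, 0, 0, -10, 0, 0, -11, 0⟩,
  ⟨0, 0, 0, 69, 0, -69, 0, 0, 0, 0, 0, 0, 0, 0, 0, 0, 0, -10, 0, -11, 0⟩,
  ⟨0, 0, 0, 68, 7, -68, -7, 0, 0, 0, 0, 0, 0, 0, 0, 0, 0, -10, 0, -5, 0⟩,
  ⟨0, 0, 0, 64, 14, -64, -14, 0, 0, 0, 0, 0, 0, 0, 0, 0, 0, -10, 0, -2, 0⟩,
  ⟨0, 0, 0, 60, 20, -60, -20, 0, 0, 0, 0, 0, 0, 0, 0, 0, 0, -10, 0, 0, 0⟩,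
  ⟨0, 0, 0, 52, 26, -52, -26, 0, 0, 0, 0, 0, 0, 0, 0, 0, 0, -10, 0, -2, 0⟩,
  ⟨0, 0, 0, 43, 31, -43, -31, 0, 0, 0, 0, 0, 0, 0, 0, 0, 0, -10, 0, -6, 0⟩,
  ⟨0, 0, 0, 35, 34, -35, -34, 0, 0, 0, 0, 0, 0, 0, 0, 0, 0, -10, 0, -11, 0⟩,
  ⟨0, 0, 0, 0, 0, 0, 0, 0, 0, 0, 0, 0, 0, 0, 0, 0, 25, 0, 0, -94, 0⟩,
  ⟨0, 0, 0, 0, 0, 0, 0, 0, 0, 0, 0, 0, 0, 0, 0, 0, 0, 25, 0, -94, 0⟩]

/-- `cx * a + cy * b ≤ R` -/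
def uRow (t : Int × Int × Int) : Row :=
  ⟨0, 0, 0, 0, 0, 0, 0, t.1, t.2.1, 0, 0, 0, 0, 0, 0, 0, 0, 0, 0, -t.2.2, 0⟩

/-- `cx * (1 + X1) + cy * (1 + Y1) ≤ R` -/
def lRow1 (t : Int × Int × Int) : Row :=
  ⟨0, t.1, t.2.1, 0, 0, 0, 0, 0, 0, 0, 0, 0, 0, 0, 0, 0, 0, 0, 0, t.1 + t.2.1 - t.2.2, 0⟩

/-- `cx * (-1 + X3) + cy * (1 + Y3) ≤ R` -/
def lRow3 (t : Int × Int × Int) : Row :=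
  ⟨0, 0, 0, 0, 0, t.1, t.2.1, 0, 0, 0, 0, 0, 0, 0, 0, 0, 0, 0, 0, -t.1 + t.2.1 - t.2.2, 0⟩

def uData : List (Int × Int × Int) := [(173, 0, 142), (167, 26, 142), (150, 50, 142), (122, 71, 142), (87, 87, 143), (45, 97, 143), (0, 100, 142), (-45, 97, 143), (-87, 87, 143), (-122, 71, 142), (-150, 50, 142), (-167, 26, 142), (-173, 0, 142), (-167, -26, 142), (-150, -50, 142), (-122, -71, 142), (-87, -87, 143), (-45, -97, 143), (0, -100, 142), (45, -97, 143), (87, -87, 143), (122, -71, 142), (150, -50, 142), (167, -26, 142), (-1159, -743, 1418), (-1090, -777, 1418), (-1018, -809, 1418), (-943, -839, 1419), (-866, -866, 1418), (-786, -891, 1418), (786, -891, 1418), (866, -866, 1418), (943, -839, 1419), (1018, -809, 1418), (1090, -777, 1418),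 (1159, -743, 1418)]

def uData5 : List (Int × Int × Int) := [(173, 0, 100), (167, 26, 100), (150, 50, 100), (122, 71, 101), (87, 87, 101), (45, 97, 101), (0, 100, 100), (-45, 97, 101), (-87, 87, 101), (-122, 71, 101), (-150, 50, 100), (-167, 26, 100), (-173, 0, 100), (-167, -26, 100), (-150, -50, 100), (-122, -71, 101), (-87, -87, 101), (-45, -97, 101), (0, -100, 100), (45, -97, 101), (87, -87, 101), (122, -71, 101), (150, -50, 100), (167, -26, 100), (-1159, -743, 1000), (-1090, -777, 1000), (-1018, -809, 1000), (-943, -839, 1001), (-866, -866, 1000), (-786, -891, 1000), (786, -891, 1000), (866, -866, 1000), (943, -839, 1001), (1018, -809, 1000), (1090, -777, 1000), (1159, -743, 1000)]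

def lData1 : List (Int × Int × Int) := [(173, 0, 346), (167, 26, 346), (150, 50, 347), (122, 71, 347), (87, 87, 348), (45, 97, 348), (0, 100, 347), (-45, 97, 348), (-87, 87, 348), (-122, 71, 347), (-150, 50, 347), (-167, 26, 346), (-173, 0, 346), (-167, -26, 346), (-150, -50, 347), (-122, -71, 347), (-87, -87, 348), (-45, -97, 348), (0, -100, 347), (45, -97, 348), (87, -87, 348), (122, -71, 347), (150, -50, 347), (167, -26, 346)]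

def lData3 : List (Int × Int × Int) := [(173, 0, 346), (167, 26, 346), (150, 50, 347), (122, 71, 347), (87, 87, 348), (45, 97, 348), (0, 100, 347), (-45, 97, 348), (-87, 87, 348), (-122, 71, 347), (-150, 50, 347), (-167, 26, 346), (-173, 0, 346), (-167, -26, 346), (-150, -50, 347), (-122, -71, 347), (-87, -87, 348), (-45, -97, 348), (0, -100, 347), (45, -97, 348), (87, -87, 348), (122, -71, 347), (150, -50, 347), (167, -26, 346)]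

/-- `b ≥ -1156/1000` -/
def bRow : Row := ⟨0, 0, 0, 0, 0, 0, 0, 0, -500, 0, 0, 0, 0, 0, 0, 0, 0, 0, 0, -578, 0⟩

def rowsU : List Row := uData.map uRow ++ [bRow]
def rowsU5 : List Row := uData5.map uRow ++ [bRow]
def rowsL : List Row := lData1.map lRow1 ++ lData3.map lRow3

def rowsR : List Row := rowsC ++ (rowsU ++ rowsL)
def rowsM : List Row := rowsC ++ rowsU5

end Pool.Agent.H78.P6
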