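import Pool.Agent.H30.P6.Cfg
import Pool.Agent.H30.P6.Cube
import Pool.Agent.H78.P6.Rows

/-!
# Domain of the real apex in rational coordinates (MP_591ade_co, p = 6, T3)

`(X, Y)` with `x = (√3/2) X`, `y = Y/2`; `(a, b)` = position of the real apex minus the site, `(X_m, Y_m)` = displacement of the
frame `m` minus `(a, b)`.  `Dom`: `Phi ≤ 1/3`, packing, edges `≤ 147/100`.
-/

set_option autoImplicit false

noncomputable section

namespace Pool.Agent.H78.P6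

open Pool.Agent.H30.P6

/-- frames with `Phi ≤ 1/3`, packing -/
structure Dom (a b X1 Y1 X2 Y2 X3 Y3 V1 V2 V3 p q r s h k : ℝ) : Prop where
  v1 : VLe (X1 + a) (Y1 + b) V1
  v2 : VLe (X2 + a) (Y2 + b) V2
  v3 : VLe (X3 + a) (Y3 + b) V3
  p0 : 0 ≤ p
  q0 : 0 ≤ q
  r0 : 0 ≤ r
  s0 : 0 ≤ s
  p1 : -(3 * (X1 + a) + (Y1 + b)) ≤ 25 * p
  q1 : -(3 * (X2 + a) + (Y2 + b)) ≤ 25 * q
  r1 : -(-3 * (X2 + a) + (Y2 + b)) ≤ 25 * r
  s1 : -(-3 * (X3 + a) + (Y3 + b)) ≤ 25 * s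
  h1 : Str (-1 + X2 - X1) (1 + Y2 - Y1) h
  k1 : Str (-1 + X3 - X2) (-1 + Y3 - Y2) k
  o1 : V1 + r + s + k ≤ 1 / 3
  o2 : V2 + p + q + r + s + h + k ≤ 1 / 3
  o3 : V3 + p + q + h ≤ 1 / 3
  hh : h ≤ 47 / 625
  kk : k ≤ 47 / 625
  g1 : 4 ≤ 3 * (1 + X1) ^ 2 + (1 + Y1) ^ 2
  g2 : 4 ≤ 3 * X2 ^ 2 + (2 + Y2) ^ 2
  g3 : 4 ≤ 3 * (-1 + X3) ^ 2 + (1 + Y3) ^ 2
  g12 : 4 ≤ 3 * (-1 + X2 - X1) ^ 2 + (1 + Y2 - Y1) ^ 2
  g23 : 4 ≤ 3 * (-1 + X3 - X2) ^ 2 + (-1 + Y3 - Y2) ^ 2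

theorem Dom.mirror {a b X1 Y1 X2 Y2 X3 Y3 V1 V2 V3 p q r s h k : ℝ}
    (c : Dom a b X1 Y1 X2 Y2 X3 Y3 V1 V2 V3 p q r s h k) :
    Dom (-a) b (-X3) Y3 (-X2) Y2 (-X1) Y1 V3 V2 V1 s r q p k h where
  v1 := by have := c.v3.mirror; rwa [show -(X3 + a) = -X3 + -a by ring] at this
  v2 := by have := c.v2.mirror; rwa [show -(X2 + a) = -X2 + -a by ring] at this
  v3 := by have := c.v1.mirror; rwa [show -(X1 + a) = -X1 + -a by ring] at this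
  p0 := c.s0
  q0 := c.r0
  r0 := c.q0
  s0 := c.p0
  p1 := by linarith [c.s1]
  q1 := by linarith [c.r1]
  r1 := by linarith [c.q1]
  s1 := by linarith [c.p1]
  h1 := ⟨c.k1.1, fun cx cy hc => by have := c.k1.2 cx (-cy) (by linarith); nlinarith⟩
  k1 := ⟨c.h1.1, fun cx cy hc => by have := c.h1.2 cx (-cy) (by linarith); nlinarith⟩
  o1 := by linarith [c.o3]
  o2 := by linarith [c.o2]
  o3 := by linarith [c.o1]
  hh := c.kk
  kk := c.hh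
  g1 := by have := c.g3; nlinarith
  g2 := by have := c.g2; nlinarith
  g3 := by have := c.g1; nlinarith
  g12 := by have := c.g23; nlinarith
  g23 := by have := c.g12; nlinarith

theorem rowsC_le {a b X1 Y1 X2 Y2 X3 Y3 V1 V2 V3 p q r s h k E : ℝ}
    (c : Dom a b X1 Y1 X2 Y2 X3 Y3 V1 V2 V3 p q r s h k) :
    ∀ R ∈ rowsC, R.ev (Cfg.pt a b X1 Y1 X2 Y2 X3 Y3 V1 V2 V3 p q r s h k E) ≤ 0 := by
  have w1 := c.h1.2 (-35) 34 (by norm_num)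
  have w2 := c.h1.2 (-43) 31 (by norm_num)
  have w3 := c.h1.2 (-52) 26 (by norm_num)
  have w4 := c.h1.2 (-60) 20 (by norm_num)
  have w5 := c.h1.2 (-64) 14 (by norm_num)
  have w6 := c.h1.2 (-68) 7 (by norm_num)
  have w7 := c.h1.2 (-69) 0 (by norm_num)
  have w8 := c.k1.2 (-69) 0 (by norm_num)
  have w9 := c.k1.2 (-68) (-7) (by norm_num)
  have w10 := c.k1.2 (-64) (-14) (by norm_num)
  have w11 := c.k1.2 (-60) (-20) (by norm_num)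
  have w12 := c.k1.2 (-52) (-26) (by norm_num)
  have w13 := c.k1.2 (-43) (-31) (by norm_num)
  have w14 := c.k1.2 (-35) (-34) (by norm_num)
  obtain ⟨⟨a0, a1, a2, a3, a4, a5, a6, a7, a8, a9, a10, a11, a12⟩, ⟨b0, b1, b2, b3, b4, b5, b6, b7, b8, b9, b10, b11, b12⟩,
    ⟨c0, c1, c2, c3, c4, c5, c6, c7, c8, c9, c10, c11, c12⟩, p0, q0, r0, s0, p1, q1, r1, s1, h1, k1, o1, o2, o3,
    hh, kk, -, -, -, -, -⟩ := c
  intro R hR
  simp only [rowsC, List.mem_cons, List.not_mem_nil, or_false] at hR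
  rcases hR with rfl | rfl | rfl | rfl | rfl | rfl | rfl | rfl | rfl | rfl | rfl | rfl | rfl | rfl | rfl | rfl | rfl |
    rfl | rfl | rfl | rfl | rfl | rfl | rfl | rfl | rfl | rfl | rfl | rfl | rfl | rfl | rfl | rfl | rfl | rfl | rfl |
    rfl | rfl | rfl | rfl | rfl | rfl | rfl | rfl | rfl | rfl | rfl | rfl | rfl | rfl | rfl | rfl | rfl | rfl | rfl |
    rfl | rfl | rfl | rfl <;>
  · simp only [Row.ev, Cfg.pt]
    push_cast
    linarith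

/-- tangent of a disc -/
theorem tang {x y s cx cy R : ℝ} (h : 3 * x ^ 2 + y ^ 2 ≤ s) (hR : 0 ≤ R) (hc : s * (cx ^ 2 + 3 * cy ^ 2) ≤ 3 * R ^ 2) :
    cx * x + cy * y ≤ R := by
  have h1 : 3 * (cx * x + cy * y) ^ 2 ≤ (cx ^ 2 + 3 * cy ^ 2) * (3 * x ^ 2 + y ^ 2) := by
    nlinarith [sq_nonneg (cx * y - 3 * cy * x)]
  have h2 : (cx ^ 2 + 3 * cy ^ 2) * (3 * x ^ 2 + y ^ 2) ≤ (cx ^ 2 + 3 * cy ^ 2) * s :=
    mul_le_mul_of_nonneg_left h (by positivity)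
  have h3 : (cx * x + cy * y) ^ 2 ≤ R ^ 2 := by linarith
  exact (abs_le_of_sq_le_sq' h3 hR).2

/-- check of the tangent data, `s / n` -/
def okT (s n : Int) (t : Int × Int × Int) : Bool :=
  decide (0 ≤ t.2.2) && decide (s * (t.1 * t.1 + 3 * (t.2.1 * t.2.1)) ≤ 3 * n * (t.2.2 * t.2.2))

theorem okT_le {s n : Int} {t : Int × Int × Int} (hn : 0 < n) (h : okT s n t = true) {x y : ℝ}
    (hxy : 3 * x ^ 2 + y ^ 2 ≤ (s : ℝ) / n) : (t.1 : ℝ) * x + (t.2.1 : ℝ) * y ≤ (t.2.2 : ℝ) := by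
  simp only [okT, Bool.and_eq_true, decide_eq_true_eq] at h
  obtain ⟨h1, h2⟩ := h
  have hn' : (0 : ℝ) < n := by exact_mod_cast hn
  have h2' : (s : ℝ) * ((t.1 : ℝ) * t.1 + 3 * ((t.2.1 : ℝ) * t.2.1)) ≤ 3 * n * ((t.2.2 : ℝ) * t.2.2) := by exact_mod_cast h2
  refine tang hxy (by exact_mod_cast h1) ?_
  rw [div_mul_eq_mul_div, div_le_iff₀ hn']
  nlinarith

theorem uRow_ev (t : Int × Int × Int) (z : Pt) : (uRow t).ev z = (t.1 : ℝ) * z.a + (t.2.1 : ℝ) * z.b - (t.2.2 : ℝ) := by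
  simp [uRow, Row.ev]; ring

theorem lRow1_ev (t : Int × Int × Int) (z : Pt) :
    (lRow1 t).ev z = (t.1 : ℝ) * (1 + z.X1) + (t.2.1 : ℝ) * (1 + z.Y1) - (t.2.2 : ℝ) := by
  simp [lRow1, Row.ev]; ring

theorem lRow3_ev (t : Int × Int × Int) (z : Pt) :
    (lRow3 t).ev z = (t.1 : ℝ) * (-1 + z.X3) + (t.2.1 : ℝ) * (1 + z.Y3) - (t.2.2 : ℝ) := by
  simp [lRow3, Row.ev]; ring

theorem uData_ok : ∀ t ∈ uData, okT 2010724 1000000 t = true := by decide +kernel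
theorem uData5_ok : ∀ t ∈ uData5, okT 1 1 t = true := by decide +kernel
theorem lData1_ok : ∀ t ∈ lData1, okT 12 1 t = true := by decide +kernel
theorem lData3_ok : ∀ t ∈ lData3, okT 12 1 t = true := by decide +kernel

theorem bRow_ev (z : Pt) : bRow.ev z = -500 * z.b - 578 := by
  simp [bRow, Row.ev]; ring

theorem rowsU_le {z : Pt} (h : 3 * z.a ^ 2 + z.b ^ 2 ≤ 2010724 / 1000000) (hb : -(289 / 250) ≤ z.b) :
    ∀ R ∈ rowsU, R.ev z ≤ 0 := by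
  intro R hR
  rw [rowsU, List.mem_append, List.mem_singleton] at hR
  rcases hR with hR | rfl
  · obtain ⟨t, ht, rfl⟩ := List.mem_map.1 hR
    have := okT_le (by norm_num) (uData_ok t ht) (x := z.a) (y := z.b) (by push_cast; exact h)
    rw [uRow_ev]; linarith
  · rw [bRow_ev]; linarith

theorem rowsU5_le {z : Pt} (h : 3 * z.a ^ 2 + z.b ^ 2 ≤ 1) : ∀ R ∈ rowsU5, R.ev z ≤ 0 := by
  intro R hR
  rw [rowsU5, List.mem_append, List.mem_singleton] at hR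
  rcases hR with hR | rfl
  · obtain ⟨t, ht, rfl⟩ := List.mem_map.1 hR
    have := okT_le (by norm_num) (uData5_ok t ht) (x := z.a) (y := z.b) (by push_cast; linarith)
    rw [uRow_ev]; linarith
  · rw [bRow_ev]; nlinarith [sq_nonneg z.a]

theorem rowsL_le {z : Pt} (h1 : 3 * (1 + z.X1) ^ 2 + (1 + z.Y1) ^ 2 ≤ 12) (h3 : 3 * (-1 + z.X3) ^ 2 + (1 + z.Y3) ^ 2 ≤ 12) :
    ∀ R ∈ rowsL, R.ev z ≤ 0 := by
  intro R hR
  rw [rowsL, List.mem_append] at hR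
  rcases hR with hR | hR
  · obtain ⟨t, ht, rfl⟩ := List.mem_map.1 hR
    have := okT_le (by norm_num) (lData1_ok t ht) (x := 1 + z.X1) (y := 1 + z.Y1) (by push_cast; linarith)
    rw [lRow1_ev]; linarith
  · obtain ⟨t, ht, rfl⟩ := List.mem_map.1 hR
    have := okT_le (by norm_num) (lData3_ok t ht) (x := -1 + z.X3) (y := 1 + z.Y3) (by push_cast; linarith)
    rw [lRow3_ev]; linarith

/-- hypotheses of the checker -/
theorem hyp_of {a b X1 Y1 X2 Y2 X3 Y3 V1 V2 V3 p q r s h k : ℝ} (E : ℝ)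
    (c : Dom a b X1 Y1 X2 Y2 X3 Y3 V1 V2 V3 p q r s h k) {P : Prm}
    (hr : ∀ R ∈ P.rows, R.ev (Cfg.pt a b X1 Y1 X2 Y2 X3 Y3 V1 V2 V3 p q r s h k E) ≤ 0)
    (hf : ∀ f ∈ P.far, f.1 < 5 ∧ (f.2 : ℝ) ≤ 10000 * (4 + gq (Cfg.pt a b X1 Y1 X2 Y2 X3 Y3 V1 V2 V3 p q r s h k E) f.1)) :
    Hyp P (Cfg.pt a b X1 Y1 X2 Y2 X3 Y3 V1 V2 V3 p q r s h k E) where
  rows := hr
  V1 := by have := c.v1.f0; simp only [Cfg.pt]; positivity
  V2 := by have := c.v2.f0; simp only [Cfg.pt]; positivity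
  V3 := by have := c.v3.f0; simp only [Cfg.pt]; positivity
  p := by have := c.p0; simp only [Cfg.pt]; positivity
  q := by have := c.q0; simp only [Cfg.pt]; positivity
  r := by have := c.r0; simp only [Cfg.pt]; positivity
  s := by have := c.s0; simp only [Cfg.pt]; positivity
  h := by have := c.h1.1; simp only [Cfg.pt]; positivity
  k := by have := c.k1.1; simp only [Cfg.pt]; positivity
  F := by simp only [Cfg.pt, fan]; ring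
  pk := by
    intro j hj
    interval_cases j
    · have := c.g1; simp only [Cfg.pt, gq]; nlinarith
    · have := c.g2; simp only [Cfg.pt, gq]; nlinarith
    · have := c.g3; simp only [Cfg.pt, gq]; nlinarith
    · have := c.g12; simp only [Cfg.pt, gq]; nlinarith
    · have := c.g23; simp only [Cfg.pt, gq]; nlinarith
  far := hf

theorem vle_bd {X Y t : ℝ} (h : VLe X Y t) (ht : t ≤ 1 / 3) : |X| ≤ 39 / 100 ∧ |Y| ≤ 7 / 10 := by
  have h6 := h.f6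
  have h7 := h.f7
  have h12 := h.f12
  have h1 := h.f1
  constructor <;> rw [abs_le] <;> constructor <;> linarith

theorem dom_bd {a b X1 Y1 X2 Y2 X3 Y3 V1 V2 V3 p q r s h k E : ℝ}
    (c : Dom a b X1 Y1 X2 Y2 X3 Y3 V1 V2 V3 p q r s h k) (hu : 3 * a ^ 2 + b ^ 2 ≤ 202 / 100)
    (ne : ¬ (X1 = 0 ∧ Y1 = 0 ∧ X2 = 0 ∧ Y2 = 0 ∧ X3 = 0 ∧ Y3 = 0)) :
    Bd (Cfg.pt a b X1 Y1 X2 Y2 X3 Y3 V1 V2 V3 p q r s h k E) := by
  have b1 : V1 ≤ 1 / 3 := by linarith [c.o1, c.r0, c.s0, c.k1.1]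
  have b2 : V2 ≤ 1 / 3 := by linarith [c.o2, c.p0, c.q0, c.r0, c.s0, c.h1.1, c.k1.1]
  have b3 : V3 ≤ 1 / 3 := by linarith [c.o3, c.p0, c.q0, c.h1.1]
  obtain ⟨x1, y1⟩ := vle_bd c.v1 b1
  obtain ⟨x2, y2⟩ := vle_bd c.v2 b2
  obtain ⟨x3, y3⟩ := vle_bd c.v3 b3
  have ha : |a| ≤ 83 / 100 := by rw [abs_le]; constructor <;> nlinarith [sq_nonneg b]
  have hb : |b| ≤ 3 / 2 := by rw [abs_le]; constructor <;> nlinarith [sq_nonneg a]
  rw [abs_le] at x1 y1 x2 y2 x3 y3 ha hb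
  refine ⟨ne, ?_, ?_, ?_, ?_, ?_, ?_⟩ <;> simp only [Cfg.pt] <;> rw [abs_le] <;> constructor <;> linarith

end Pool.Agent.H78.P6
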