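import Pool.Agent.H78.P6.CL

/-!
# ML: metric lemmas for the real fan (MP_591ade_co, p = 6, T3)

* `ang30`: two points at distance `≥ 1` from each other and from `0`, at distance `≤ √3` from `0`: angle `≥ 30` degrees.
* `win12`, `win13`: from the windows of the directions: orientation of the three legs, angle of the outer legs `≥ 60`.
* `cross_y`, `no_leg2`: a segment of length `≤ √3` does not meet both legs.
* `tri_pt`: no point of the triangle has distance `≥ 1` from the three vertices.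
-/

set_option autoImplicit false

open Set Real

noncomputable section

namespace Pool.Agent.H78.P6

open Pool.Agent.H20.AL

theorem ML_s3 : √3 * √3 = 3 := Real.mul_self_sqrt (by norm_num)
theorem ML_s3p : 0 < √3 := Real.sqrt_pos.2 (by norm_num)

/-- angle at least 30 degrees -/
theorem ang30 {u v : ℂ} (u1 : 1 ≤ ‖u‖ ^ 2) (u3 : ‖u‖ ^ 2 ≤ 3) (v1 : 1 ≤ ‖v‖ ^ 2) (v3 : ‖v‖ ^ 2 ≤ 3)
    (h : 1 ≤ ‖v - u‖ ^ 2) : dt u v ≤ √3 * |cr u v| := by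
  rcases le_or_gt (dt u v) 0 with h0 | h0
  · exact h0.trans (by positivity)
  have hs := ML_s3
  have hl := lag u v
  have e : ‖v - u‖ ^ 2 = ‖u‖ ^ 2 + ‖v‖ ^ 2 - 2 * dt u v := by
    rw [nsq, nsq, nsq]; simp [dt]; ring
  rw [e] at h
  set A := ‖u‖ ^ 2
  set B := ‖v‖ ^ 2
  set D := dt u v
  set C := cr u v
  have k1 : 4 * D ^ 2 ≤ (A + B - 1) ^ 2 := by nlinarith
  have k2 : (A + B - 1) ^ 2 ≤ 3 * (A * B) := by
    -- A^2 + B^2 - AB - 2A - 2B + 1 ≤ 0 on the square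
    nlinarith [mul_nonneg (sub_nonneg.2 u1) (sub_nonneg.2 u3), mul_nonneg (sub_nonneg.2 v1) (sub_nonneg.2 v3),
      mul_nonneg (sub_nonneg.2 u1) (sub_nonneg.2 v1), mul_nonneg (sub_nonneg.2 u3) (sub_nonneg.2 v3),
      mul_nonneg (sub_nonneg.2 u1) (sub_nonneg.2 v3), mul_nonneg (sub_nonneg.2 u3) (sub_nonneg.2 v1)]
  have k3 : D ^ 2 ≤ 3 * C ^ 2 := by linarith
  have k4 : D ^ 2 ≤ (√3 * |C|) ^ 2 := by
    rw [mul_pow, sq_abs, Real.sq_sqrt (by norm_num)]; exact k3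
  exact (abs_le_of_sq_le_sq' k4 (by positivity)).2

/-- the first two legs are oriented -/
theorem win12 {x1 y1 x2 y2 : ℝ} (h : x1 * x2 + y1 * y2 ≤ √3 * |x1 * y2 - y1 * x2|) (hy1 : 0 < y1)
    (r1 : 2 * √3 * y1 < 25 * x1) (t1 : 9 * x2 < 4 * √3 * y2) (t2 : -(4 * √3 * y2) < 9 * x2) :
    0 < x1 * y2 - y1 * x2 := by
  have hs := ML_s3
  have hp := ML_s3p
  by_contra hcon
  push Not at hcon
  rw [abs_of_nonpos hcon] at h
  have hy2 : 0 < y2 := by nlinarith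
  have k0 : x1 * (x2 + √3 * y2) + y1 * (y2 - √3 * x2) ≤ 0 := by nlinarith
  have k1 : 0 < x2 + √3 * y2 := by nlinarith
  have k2 : 2 * √3 * y1 * (x2 + √3 * y2) ≤ 25 * x1 * (x2 + √3 * y2) := mul_le_mul_of_nonneg_right r1.le k1.le
  have k3 : 2 * √3 * y1 * (x2 + √3 * y2) + 25 * y1 * (y2 - √3 * x2) ≤ 0 := by nlinarith
  have k4 : 2 * √3 * (x2 + √3 * y2) + 25 * (y2 - √3 * x2) ≤ 0 := by
    by_contra hc
    push Not at hc
    have := mul_pos hy1 hc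
    nlinarith
  have k5 : 31 * y2 - 23 * (√3 * x2) ≤ 0 := by nlinarith
  have k6 : √3 * (9 * x2) ≤ √3 * (4 * √3 * y2) := mul_le_mul_of_nonneg_left t1.le hp.le
  have k7 : √3 * (4 * √3 * y2) = 12 * y2 := by linear_combination 4 * y2 * hs
  nlinarith

/-- composition of two angles of at least 30 degrees -/
theorem win13 {w1 w2 w3 : ℂ} (c12 : 0 < cr w1 w2) (c23 : 0 < cr w2 w3) (c13 : 0 < cr w1 w3)
    (h12 : dt w1 w2 ≤ √3 * cr w1 w2) (h23 : dt w2 w3 ≤ √3 * cr w2 w3) : √3 * dt w1 w3 ≤ cr w1 w3 := by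
  have hs := ML_s3
  have hp := ML_s3p
  have hne : 0 < ‖w2‖ ^ 2 := by
    have : w2 ≠ 0 := by
      rintro rfl
      simp [cr] at c12
    positivity
  have e1 : dt w1 w3 * ‖w2‖ ^ 2 = dt w1 w2 * dt w2 w3 - cr w1 w2 * cr w2 w3 := by
    rw [nsq]; simp only [dt, cr]; ring
  have e2 : cr w1 w3 * ‖w2‖ ^ 2 = cr w1 w2 * dt w2 w3 + dt w1 w2 * cr w2 w3 := by
    rw [nsq]; simp only [dt, cr]; ring
  set a := dt w1 w2
  set b := dt w2 w3
  set C := cr w1 w2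
  set D := cr w2 w3
  have h13 : 0 < C * b + a * D := by rw [← e2]; positivity
  have goal : √3 * (a * b - C * D) ≤ C * b + a * D := by
    rcases le_or_gt (a * b) (C * D) with h | h
    · nlinarith
    · -- a, b > 0
      have ha : 0 < a := by
        by_contra hc
        push Not at hc
        have hb : b ≤ 0 := by
          by_contra hb
          push Not at hb
          nlinarith [mul_pos c12 c23]
        nlinarith
      have hb : 0 < b := by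
        by_contra hc
        push Not at hc
        nlinarith [mul_pos c12 c23]
      -- √3 ab - √3 CD - Cb - aD = ... ≤ 0 using a ≤ √3 C, b ≤ √3 D
      have g1 : 0 ≤ (√3 * C - a) * (√3 * D - b) := mul_nonneg (by linarith) (by linarith)
      have g2 : 0 ≤ (√3 * C - a) * b := mul_nonneg (by linarith) hb.le
      have g3 : 0 ≤ a * (√3 * D - b) := mul_nonneg ha.le (by linarith)
      have g4 : 0 ≤ √3 * ((√3 * C - a) * b) := mul_nonneg hp.le g2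
      have g5 : 0 ≤ √3 * (a * (√3 * D - b)) := mul_nonneg hp.le g3
      have g6 : 0 ≤ √3 * ((√3 * C - a) * (√3 * D - b)) := mul_nonneg hp.le g1
      have i4 : √3 * ((√3 * C - a) * b) = 3 * (C * b) - √3 * (a * b) := by linear_combination C * b * hs
      have i5 : √3 * (a * (√3 * D - b)) = 3 * (a * D) - √3 * (a * b) := by linear_combination a * D * hs
      have i6 : √3 * ((√3 * C - a) * (√3 * D - b)) = 3 * (√3 * (C * D)) - 3 * (C * b) - 3 * (a * D) + √3 * (a * b) := by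
        linear_combination (√3 * C * D - C * b - a * D) * hs
      linarith
  have : √3 * dt w1 w3 * ‖w2‖ ^ 2 ≤ cr w1 w3 * ‖w2‖ ^ 2 := by
    rw [e2, mul_assoc, e1]; exact goal
  exact le_of_mul_le_mul_right this hne

/-- the inner piece of a segment of length `≤ √3` which meets both legs, angle `≥ 60` degrees -/
theorem cross_y {p a c z w : ℂ} {s σ t ρ : ℝ} (s0 : 0 ≤ s) (s1 : s ≤ 1) (σ0 : 0 ≤ σ) (t0 : 0 ≤ t) (t1 : t ≤ 1) (ρ0 : 0 ≤ ρ)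
    (h1 : z + (s : ℂ) * (w - z) = p + (σ : ℂ) * (a - p)) (h2 : z + (t : ℂ) * (w - z) = p + (ρ : ℂ) * (c - p))
    (hzp : 1 ≤ dist z p) (hwp : 1 ≤ dist w p) (hcr : 0 < cr (a - p) (c - p))
    (hang : √3 * dt (a - p) (c - p) ≤ cr (a - p) (c - p)) (hL : ‖w - z‖ ^ 2 ≤ 3) :
    1 / 3 ≤ (t - s) ^ 2 * ‖w - z‖ ^ 2 := by
  have hs := ML_s3
  have hp := ML_s3p
  have hpz : 1 ≤ dist p z := by rwa [dist_comm]
  have hpw : 1 ≤ dist p w := by rwa [dist_comm]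
  have hz1 : 1 ≤ ‖z - p‖ ^ 2 := CRS_one' hpz
  have hw1 : 1 ≤ ‖w - p‖ ^ 2 := CRS_one' hpw
  have st : ∀ r : ℝ, 0 ≤ r → r ≤ 1 → 1 - ‖w - z‖ ^ 2 / 4 ≤ ‖z + (r : ℂ) * (w - z) - p‖ ^ 2 := fun r r0 r1 =>
    CL_stw r0 r1 hpz hpw
  set ℓ := w - z with hℓ
  set P1 := (σ : ℂ) * (a - p) with hP1
  set P2 := (ρ : ℂ) * (c - p) with hP2
  have g1 : z + (s : ℂ) * ℓ - p = P1 := by rw [h1]; ring
  have g2 : z + (t : ℂ) * ℓ - p = P2 := by rw [h2]; ring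
  have e3 : ((t - s : ℝ) : ℂ) * ℓ = P2 - P1 := by rw [← g1, ← g2]; push_cast; ring
  have e4 : (t - s) ^ 2 * ‖ℓ‖ ^ 2 = ‖P2 - P1‖ ^ 2 := by rw [← e3, CRS_sm]
  have e5 : ‖P2 - P1‖ ^ 2 = ‖P1‖ ^ 2 + ‖P2‖ ^ 2 - 2 * dt P1 P2 := by rw [nsq, nsq, nsq]; simp [dt]; ring
  have e6 : dt P1 P2 = σ * ρ * dt (a - p) (c - p) := by rw [hP1, hP2]; simp [dt]; ring
  have e7 : cr P1 P2 = σ * ρ * cr (a - p) (c - p) := by rw [hP1, hP2]; simp [cr]; ring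
  have hlag := lag P1 P2
  have hσρ : 0 ≤ σ * ρ := mul_nonneg σ0 ρ0
  have c0 : 0 ≤ cr P1 P2 := by rw [e7]; positivity
  have c1 : √3 * dt P1 P2 ≤ cr P1 P2 := by
    rw [e6, e7]
    have := mul_le_mul_of_nonneg_left hang hσρ
    linarith
  have d1 : 1 / 4 ≤ ‖P1‖ ^ 2 := by rw [← g1]; linarith [st s s0 s1]
  have d2 : 1 / 4 ≤ ‖P2‖ ^ 2 := by rw [← g2]; linarith [st t t0 t1]
  -- the angle of `P1, P2` is at least 60 degrees
  have n0 : 0 ≤ ‖P1‖ := norm_nonneg _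
  have n0' : 0 ≤ ‖P2‖ := norm_nonneg _
  set r1 := ‖P1‖ with hr1
  set r2 := ‖P2‖ with hr2
  have m0 : 0 ≤ r1 * r2 := mul_nonneg n0 n0'
  have hlag' : dt P1 P2 ^ 2 + cr P1 P2 ^ 2 = (r1 * r2) ^ 2 := by rw [mul_pow]; exact hlag
  have c2 : 2 * dt P1 P2 ≤ r1 * r2 := by
    rcases le_or_gt (dt P1 P2) 0 with hd | hd
    · linarith
    · have k1 : (√3 * dt P1 P2) ^ 2 ≤ cr P1 P2 ^ 2 := pow_le_pow_left₀ (by positivity) c1 2
      have k2 : (√3 * dt P1 P2) ^ 2 = 3 * dt P1 P2 ^ 2 := by rw [mul_pow, Real.sq_sqrt (by norm_num)]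
      have k3 : (2 * dt P1 P2) ^ 2 ≤ (r1 * r2) ^ 2 := by linarith
      exact (abs_le_of_sq_le_sq' k3 m0).2
  -- `√3 r1 r2 ≥ cr + √3 dt`
  have c3 : cr P1 P2 + √3 * dt P1 P2 ≤ √3 * (r1 * r2) := by
    have k1 : (cr P1 P2 + √3 * dt P1 P2) ^ 2 ≤ (√3 * (r1 * r2)) ^ 2 := by
      have k2 : (√3 * (r1 * r2)) ^ 2 = 3 * (dt P1 P2 ^ 2 + cr P1 P2 ^ 2) := by
        rw [mul_pow, Real.sq_sqrt (by norm_num), hlag']
      have k3 : (cr P1 P2 + √3 * dt P1 P2) ^ 2 = cr P1 P2 ^ 2 + 2 * cr P1 P2 * (√3 * dt P1 P2) + 3 * dt P1 P2 ^ 2 := by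
        linear_combination dt P1 P2 ^ 2 * hs
      rw [k2, k3]
      have := mul_le_mul_of_nonneg_left c1 c0
      nlinarith
    exact (abs_le_of_sq_le_sq' k1 (by positivity)).2
  rw [e4]
  have hY : ‖P2 - P1‖ ^ 2 = (r1 - r2) ^ 2 + 2 * (r1 * r2 - dt P1 P2) := by rw [e5]; ring
  have hY1 : 2 * cr P1 P2 ≤ √3 * ‖P2 - P1‖ ^ 2 := by
    rw [hY]
    have := mul_nonneg hp.le (sq_nonneg (r1 - r2))
    nlinarith
  -- foot of the perpendicular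
  have out : ∀ r : ℝ, (0 ≤ r ∧ r ≤ 1) → (0 ≤ dt (z - p) ℓ ∨ dt (w - p) ℓ ≤ 0) → 1 ≤ ‖z + (r : ℂ) * ℓ - p‖ ^ 2 := by
    rintro r ⟨r0, r1'⟩ (hd | hd)
    · have : ‖z + (r : ℂ) * ℓ - p‖ ^ 2 = ‖z - p‖ ^ 2 + 2 * r * dt (z - p) ℓ + r ^ 2 * ‖ℓ‖ ^ 2 := by
        rw [nsq, nsq, nsq]; simp [dt]; ring
      rw [this]
      have := mul_nonneg r0 hd
      have := mul_nonneg (sq_nonneg r) (sq_nonneg ‖ℓ‖)
      linarith
    · have : ‖z + (r : ℂ) * ℓ - p‖ ^ 2 = ‖w - p‖ ^ 2 - 2 * (1 - r) * dt (w - p) ℓ + (1 - r) ^ 2 * ‖ℓ‖ ^ 2 := by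
        rw [hℓ, nsq, nsq, nsq]; simp [dt]; ring
      rw [this]
      have := mul_nonneg (sub_nonneg.2 r1') (neg_nonneg.2 hd)
      have := mul_nonneg (sq_nonneg (1 - r)) (sq_nonneg ‖ℓ‖)
      linarith
  by_cases hf : 0 ≤ dt (z - p) ℓ ∨ dt (w - p) ℓ ≤ 0
  · have o1 : 1 ≤ r1 ^ 2 := by rw [hr1, ← g1]; exact out s ⟨s0, s1⟩ hf
    have o2 : 1 ≤ r2 ^ 2 := by rw [hr2, ← g2]; exact out t ⟨t0, t1⟩ hf
    have hm : 1 ≤ r1 * r2 := by
      have : (1 : ℝ) ^ 2 ≤ (r1 * r2) ^ 2 := by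
        rw [mul_pow]; nlinarith
      exact (abs_le_of_sq_le_sq' this m0).2
    rw [hY]
    nlinarith [sq_nonneg (r1 - r2)]
  · push Not at hf
    obtain ⟨f1, f2⟩ := hf
    have hℓ0 : 0 < ‖ℓ‖ ^ 2 := by
      have : ℓ ≠ 0 := by
        intro h0
        rw [h0] at f1
        simp [dt] at f1
      positivity
    have f3 : dt (w - p) ℓ = dt (z - p) ℓ + ‖ℓ‖ ^ 2 := by rw [hℓ, nsq]; simp [dt]; ring
    set r := -dt (z - p) ℓ / ‖ℓ‖ ^ 2 with hr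
    have r0 : 0 ≤ r := div_nonneg (by linarith) hℓ0.le
    have r1' : r ≤ 1 := by rw [hr, div_le_one hℓ0]; linarith
    have f4 : 1 / 4 ≤ ‖z + (r : ℂ) * ℓ - p‖ ^ 2 := by linarith [st r r0 r1']
    have f5 : ‖z + (r : ℂ) * ℓ - p‖ ^ 2 * ‖ℓ‖ ^ 2 = cr (z - p) ℓ ^ 2 := by
      have h5 : ‖z + (r : ℂ) * ℓ - p‖ ^ 2 = ‖z - p‖ ^ 2 + 2 * r * dt (z - p) ℓ + r ^ 2 * ‖ℓ‖ ^ 2 := by
        rw [nsq, nsq, nsq]; simp [dt]; ring
      have h6 := lag (z - p) ℓ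
      have h7 : r * ‖ℓ‖ ^ 2 = -dt (z - p) ℓ := by rw [hr]; exact div_mul_cancel₀ _ hℓ0.ne'
      rw [h5]
      linear_combination -h6 + (r * ‖ℓ‖ ^ 2 + dt (z - p) ℓ) * h7
    have f6 : ‖ℓ‖ ^ 2 / 4 ≤ cr (z - p) ℓ ^ 2 := by rw [← f5]; nlinarith
    have f7 : cr P1 P2 ^ 2 = (t - s) ^ 2 * cr (z - p) ℓ ^ 2 := by
      have : cr P1 P2 = (t - s) * cr (z - p) ℓ := by
        rw [← g1, ← g2]; simp [cr]; ring
      rw [this, mul_pow]
    set Y2 := ‖P2 - P1‖ ^ 2 with hY2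
    have hY20 : 0 ≤ Y2 := sq_nonneg _
    have f8 : Y2 / 4 ≤ cr P1 P2 ^ 2 := by
      rw [f7, ← e4]
      have := mul_le_mul_of_nonneg_left f6 (sq_nonneg (t - s))
      linarith
    have f9 : (2 * cr P1 P2) ^ 2 ≤ (√3 * Y2) ^ 2 := pow_le_pow_left₀ (by positivity) hY1 2
    have f10 : (√3 * Y2) ^ 2 = 3 * Y2 ^ 2 := by rw [mul_pow, Real.sq_sqrt (by norm_num)]
    have f11 : Y2 ≤ 3 * Y2 ^ 2 := by linarith
    by_contra hcon
    push Not at hcon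
    have hY0 : Y2 = 0 := by
      by_contra hne
      have : 0 < Y2 := lt_of_le_of_ne hY20 (Ne.symm hne)
      nlinarith
    have hc0 : cr P1 P2 = 0 := by
      have : 2 * cr P1 P2 ≤ 0 := by rw [hY0, mul_zero] at hY1; exact hY1
      linarith
    have : 0 < (r1 * r2) ^ 2 := by
      have : 1 / 4 * (1 / 4) ≤ r1 ^ 2 * r2 ^ 2 := mul_le_mul d1 d2 (by norm_num) (sq_nonneg _)
      rw [mul_pow]; linarith
    have hdm : dt P1 P2 ^ 2 = (r1 * r2) ^ 2 := by rw [← hlag', hc0]; ring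
    have h0 : (r1 - r2) ^ 2 + 2 * (r1 * r2 - dt P1 P2) = 0 := by rw [← hY]; exact hY0
    nlinarith [sq_nonneg (r1 - r2)]

/-- a segment of length `≤ √3` does not meet both legs -/
theorem no_leg2 {p a c z w : ℂ} (h : Crs p a c z w) (hA : ‖a - p‖ ^ 2 ≤ 3) (hC : ‖c - p‖ ^ 2 ≤ 3)
    (hcr : 0 < cr (a - p) (c - p)) (hang : √3 * dt (a - p) (c - p) ≤ cr (a - p) (c - p))
    (p1 : ¬ (13 / 5 ≤ ‖a - p‖ ^ 2 ∧ 9 / 4 ≤ ‖c - p‖ ^ 2)) (p3 : ¬ (13 / 5 ≤ ‖c - p‖ ^ 2 ∧ 9 / 4 ≤ ‖a - p‖ ^ 2))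
    (hL : ‖w - z‖ ^ 2 ≤ 3) : False := by
  obtain ⟨s, σ, t, ρ, s0, s1, σ0, σ1, t0, t1, ρ0, ρ1, h1, h2⟩ := h.ex
  have hY := cross_y s0 s1 σ0 t0 t1 ρ0 h1 h2 h.zp h.wp hcr hang hL
  have a1 := CL_stw σ0 σ1 h.zp h.za
  have a2 := CL_stw σ0 σ1 h.wp h.wa
  have b1 := CL_stw ρ0 ρ1 h.zp h.zc
  have b2 := CL_stw ρ0 ρ1 h.wp h.wc
  rw [← h1] at a1 a2
  rw [← h2] at b1 b2
  have e1 : z + (s : ℂ) * (w - z) - z = (s : ℂ) * (w - z) := by ring
  have e2 : z + (s : ℂ) * (w - z) - w = ((s - 1 : ℝ) : ℂ) * (w - z) := by push_cast; ring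
  have e3 : z + (t : ℂ) * (w - z) - z = (t : ℂ) * (w - z) := by ring
  have e4 : z + (t : ℂ) * (w - z) - w = ((t - 1 : ℝ) : ℂ) * (w - z) := by push_cast; ring
  rw [e1, CRS_sm] at a1
  rw [e2, CRS_sm] at a2
  rw [e3, CRS_sm] at b1
  rw [e4, CRS_sm] at b2
  set L := ‖w - z‖ with hLd
  have hL0 : 0 ≤ L := norm_nonneg _
  have hL1 : L ≤ 1733 / 1000 := by
    by_contra hc
    push Not at hc
    nlinarith
  set A := ‖a - p‖ ^ 2
  set C := ‖c - p‖ ^ 2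
  -- three pieces
  have fin : ∀ X Y Z : ℝ, 0 ≤ X → 0 ≤ Y → 0 ≤ Z → X + Y + Z = L → 1 - A / 4 ≤ X ^ 2 → 1 - C / 4 ≤ Z ^ 2 →
      1 / 3 ≤ Y ^ 2 → False := by
    intro X Y Z hX hY hZ hsum gX gZ gY
    have y1 : 577 / 1000 ≤ Y := by
      by_contra hc
      push Not at hc
      nlinarith
    have lo : ∀ {T q m : ℝ}, 0 ≤ T → 1 - q / 4 ≤ T ^ 2 → 0 ≤ m → m ^ 2 ≤ 1 - q / 4 → m ≤ T := by
      intro T q m hT h1 hm h2
      exact (abs_le_of_sq_le_sq' (h2.trans h1) hT).2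
    rcases le_or_gt (13 / 5) A with hA' | hA'
    · have hC' : C < 9 / 4 := by
        by_contra hc; push Not at hc; exact p1 ⟨hA', hc⟩
      have := lo hX gX (m := 1 / 2) (by norm_num) (by linarith)
      have := lo hZ gZ (m := 661 / 1000) (by norm_num) (by linarith)
      linarith
    · rcases le_or_gt (13 / 5) C with hC' | hC'
      · have hA'' : A < 9 / 4 := by
          by_contra hc; push Not at hc; exact p3 ⟨hC', hc⟩
        have := lo hX gX (m := 661 / 1000) (by norm_num) (by linarith)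
        have := lo hZ gZ (m := 1 / 2) (by norm_num) (by linarith)
        linarith
      · have := lo hX gX (m := 59 / 100) (by norm_num) (by linarith)
        have := lo hZ gZ (m := 59 / 100) (by norm_num) (by linarith)
        linarith
  rcases le_total s t with hst | hst
  · refine fin (s * L) ((t - s) * L) ((1 - t) * L) (mul_nonneg s0 hL0) (mul_nonneg (by linarith) hL0)
      (mul_nonneg (by linarith) hL0) (by ring) ?_ ?_ ?_
    · rw [mul_pow]; exact a1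
    · have : ((1 - t) * L) ^ 2 = (t - 1) ^ 2 * L ^ 2 := by ring
      rw [this]; exact b2
    · rw [mul_pow]; exact hY
  · refine fin ((1 - s) * L) ((s - t) * L) (t * L) (mul_nonneg (by linarith) hL0) (mul_nonneg (by linarith) hL0)
      (mul_nonneg t0 hL0) (by ring) ?_ ?_ ?_
    · have : ((1 - s) * L) ^ 2 = (s - 1) ^ 2 * L ^ 2 := by ring
      rw [this]; exact a2
    · rw [mul_pow]; exact b1
    · have : ((s - t) * L) ^ 2 = (t - s) ^ 2 * L ^ 2 := by ring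
      rw [this]; exact hY

/-- no point of a small triangle has distance `≥ 1` from the three vertices -/
theorem tri_pt {P Q R z : ℂ} (hΔ : 0 < cr (Q - P) (R - P)) (h1 : 0 ≤ cr (Q - P) (z - P)) (h2 : 0 ≤ cr (R - Q) (z - Q))
    (h3 : 0 ≤ cr (P - R) (z - R)) (hPQ : ‖Q - P‖ ^ 2 ≤ 3) (hPR : ‖R - P‖ ^ 2 ≤ 3) (hQR : ‖R - Q‖ ^ 2 ≤ 11 / 5)
    (dP : 1 ≤ ‖z - P‖ ^ 2) (dQ : 1 ≤ ‖z - Q‖ ^ 2) (dR : 1 ≤ ‖z - R‖ ^ 2) : False := by
  set A := cr (R - Q) (z - Q) with hA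
  set B := cr (P - R) (z - R) with hB
  set C := cr (Q - P) (z - P) with hC
  have hsum : A + B + C = cr (Q - P) (R - P) := by
    rw [hA, hB, hC]; simp [cr]; ring
  have key : (A * ‖z - P‖ ^ 2 + B * ‖z - Q‖ ^ 2 + C * ‖z - R‖ ^ 2) * cr (Q - P) (R - P) =
      A * B * ‖Q - P‖ ^ 2 + B * C * ‖R - Q‖ ^ 2 + A * C * ‖R - P‖ ^ 2 := by
    rw [hA, hB, hC, nsq, nsq, nsq, nsq, nsq, nsq]; simp [cr]; ring
  rw [← hsum] at key hΔ
  have k1 : A ≤ A * ‖z - P‖ ^ 2 := le_mul_of_one_le_right h2 dP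
  have k2 : B ≤ B * ‖z - Q‖ ^ 2 := le_mul_of_one_le_right h3 dQ
  have k3 : C ≤ C * ‖z - R‖ ^ 2 := le_mul_of_one_le_right h1 dR
  have k4 : (A + B + C) * (A + B + C) ≤
      (A * ‖z - P‖ ^ 2 + B * ‖z - Q‖ ^ 2 + C * ‖z - R‖ ^ 2) * (A + B + C) :=
    mul_le_mul_of_nonneg_right (by linarith) hΔ.le
  have k5 := mul_le_mul_of_nonneg_left hPQ (mul_nonneg h2 h3)
  have k6 := mul_le_mul_of_nonneg_left hQR (mul_nonneg h3 h1)
  have k7 := mul_le_mul_of_nonneg_left hPR (mul_nonneg h2 h1)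
  have k8 : (A + B + C) * (A + B + C) ≤ 3 * (A * (B + C)) + 11 / 20 * (B + C) ^ 2 := by
    nlinarith [sq_nonneg (B - C)]
  nlinarith [sq_nonneg (A - (B + C) / 2), sq_nonneg (B + C), mul_nonneg h2 h3, mul_nonneg h2 h1, sq_nonneg A,
    mul_pos hΔ hΔ]

end Pool.Agent.H78.P6
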