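import Pool.Agent.H78.P6.Rows

/-! certificate M1 (generated) -/

set_option autoImplicit false
set_option maxRecDepth 100000

namespace Pool.Agent.H78.P6

open Pool.Agent.H30.P6

def prm_M1 : Prm := ⟨64, 512, rowsM ++ [], [(0, 120000)]⟩

def tree_M1_0m : Tree := .N 6 (.N 6 (.L ⟨[], 0, 0, 0, 0, 0, [1]⟩) (.L ⟨[], 0, 0, 0, 0, 0, [1]⟩)) (.L ⟨[(0, 48553), (11, 52584), (13, 93075), (93, 8400)], 0, 0, 0, 0, 0, [4032000]⟩)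

theorem ok_M1_0m : tree_M1_0m.check prm_M1 ⟨-64, -64, -128, 128, -64, 64, -128, 128, -64, 64, -128, 128, 0, 672⟩ = true := by decide +kernel

def tree_M1_0p : Tree := .N 6 (.N 6 (.L ⟨[], 0, 0, 0, 0, 0, [1]⟩) (.N 6 (.L ⟨[], 0, 0, 0, 0, 0, [1]⟩) (.N 6 (.L ⟨[(0, 433), (12, 1299), (87, 84)], 0, 0, 0, 0, 0, [80640]⟩) (.N 1 (.L ⟨[], 0, 0, 0, 0, 0, [1]⟩) (.N 1 (.L ⟨[], 0, 0, 0, 0, 0, [1]⟩) (.L ⟨[(0, 8341), (10, 11648), (12, 13375), (83, 1400)], 0, 0, 0, 0, 0, [537600]⟩)))))) (.N 4 (.L ⟨[(0, 50), (2, 50), (8, 138), (10, 12), (33, 138), (35, 12), (40, 150), (41, 150), (46, 15), (53, 15)], 0, 0, 0, 0, 0, [0]⟩) (.N 2 (.L ⟨[(0, 54), (1, 50), (8, 150), (10, 12), (21, 150), (40, 150), (46, 15)], 0, 0, 0, 0, 0, [0]⟩) (.N 6 (.N 5 (.L ⟨[(0, 50), (2, 50), (8, 138), (10, 12), (33, 138), (35, 12), (40, 150), (41, 150),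 (46, 15), (53, 15)], 0, 0, 3840, 0, 0, [0]⟩) (.N 5 (.N 4 (.N 6 (.N 1 (.L ⟨[], 0, 0, 0, 0, 0, [1]⟩) (.N 6 (.N 1 (.L ⟨[(0, 2), (10, 6), (73, 3)], 0, 0, 0, 0, 0, [480]⟩) (.N 6 (.L ⟨[(0, 8341), (10, 11648), (12, 13375), (83, 1400)], 0, 0, 0, 0, 0, [336000]⟩) (.L ⟨[(0, 2), (10, 6), (73, 3)], 0, 0, 0, 0, 0, [80]⟩))) (.N 1 (.N 1 (.L ⟨[], 0, 0, 0, 0, 0, [1]⟩) (.L ⟨[(0, 2), (10, 6), (73, 3)], 0, 0, 0, 0, 0, [96]⟩)) (.L ⟨[(0, 2), (10, 6), (73, 3)], 0, 0, 0, 0, 0, [0]⟩)))) (.N 6 (.N 1 (.L ⟨[], 0, 0, 0, 0, 0, [1]⟩) (.N 1 (.N 6 (.L ⟨[(0, 2), (10, 6), (73, 3)], 0, 0, 0, 0, 0, [96]⟩) (.L ⟨[(0, 74), (10, 222), (73, 111)], 0, 0, 0, 0, 0, [3840]⟩)) (.L ⟨[(0, 2), (10, 6), (73, 3)], 0, 0, 0, 0, 0, [0]⟩))) (.L ⟨[(0, 627050), (2, 139750), (8, 1848900), (10, 32250), (35, 141900), (37, 277350), (40, 419250), (41, 325725),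 (46, 41925), (52, 45150), (73, 367908)], 0, 0, 12384000, 0, 0, [0]⟩))) (.N 4 (.N 5 (.L ⟨[], 0, 0, 1, 0, 0, [0]⟩) (.N 5 (.L ⟨[], 0, 0, 1, 0, 0, [0]⟩) (.N 6 (.N 1 (.L ⟨[], 0, 0, 0, 0, 0, [1]⟩) (.N 4 (.N 5 (.L ⟨[(0, 10), (10, 30), (73, 15)], 0, 0, 3840, 0, 0, [388]⟩) (.N 6 (.N 1 (.L ⟨[(0, 2), (10, 6), (73, 3)], 0, 0, 0, 0, 0, [480]⟩) (.N 6 (.L ⟨[(0, 8341), (10, 11648), (12, 13375), (83, 1400)], 0, 0, 0, 0, 0, [336000]⟩) (.L ⟨[(0, 2), (10, 6), (73, 3)], 0, 0, 0, 0, 0, [80]⟩))) (.N 1 (.N 1 (.L ⟨[], 0, 0, 0, 0, 0, [1]⟩) (.L ⟨[(0, 2), (10, 6), (73, 3)], 0, 0, 0, 0, 0, [96]⟩)) (.L ⟨[(0, 2), (10, 6), (73, 3)], 0, 0, 0, 0, 0, [0]⟩)))) (.L ⟨[(0, 71428), (2, 15000), (10, 214284), (38, 45000), (41, 16125), (46, 4500), (83, 13950)], 0, 0, 27648000, 0, 0, [2899350]⟩))) (.N 3 (.L ⟨[(0, 8820), (1, 47270), (2, 12670),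 (8, 12600), (10, 13860), (15, 141810), (38, 38010), (40, 179820), (41, 168270), (46, 17982), (51, 16827), (73, 10080)], 0, 0, 2419200, 0, 0, [0]⟩) (.N 3 (.N 4 (.N 6 (.N 1 (.L ⟨[], 0, 0, 0, 0, 0, [1]⟩) (.N 6 (.N 1 (.L ⟨[(0, 2), (10, 6), (73, 3)], 0, 0, 0, 0, 0, [96]⟩) (.L ⟨[(0, 2), (10, 6), (73, 3)], 0, 0, 0, 0, 0, [0]⟩)) (.L ⟨[(0, 165350), (2, 21500), (8, 489600), (10, 6450), (38, 64500), (41, 51600), (46, 6450), (73, 145641)], 0, 0, 3096000, 0, 0, [0]⟩))) (.L ⟨[(0, 165350), (2, 21500), (8, 489600), (10, 6450), (38, 64500), (41, 51600), (46, 6450), (73, 145641)], 0, 0, 3096000, 0, 0, [0]⟩)) (.L ⟨[(0, 35828), (2, 10750), (8, 104904), (10, 2580), (38, 32250), (41, 5520), (42, 107484), (46, 3225), (83, 4644)], 0, 0, 1981440, 0, 0, [0]⟩)) (.L ⟨[(0, 42604), (1, 10750), (8, 125232), (10, 2580), (26, 32250),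 (41, 17157), (46, 3225), (83, 4902)], 0, 0, 0, 0, 0, [0]⟩)))))) (.L ⟨[(2, 8341), (34, 11648), (36, 13375), (83, 1400)], 0, 0, 2688000, 0, 0, [0]⟩))) (.N 6 (.N 1 (.L ⟨[], 0, 0, 0, 0, 0, [1]⟩) (.N 6 (.N 1 (.L ⟨[(0, 2), (10, 6), (73, 3)], 0, 0, 0, 0, 0, [480]⟩) (.N 6 (.L ⟨[(0, 8341), (10, 11648), (12, 13375), (83, 1400)], 0, 0, 0, 0, 0, [336000]⟩) (.L ⟨[(0, 2), (10, 6), (73, 3)], 0, 0, 0, 0, 0, [80]⟩))) (.N 1 (.N 1 (.L ⟨[], 0, 0, 0, 0, 0, [1]⟩) (.L ⟨[(0, 2), (10, 6), (73, 3)], 0, 0, 0, 0, 0, [96]⟩)) (.L ⟨[(0, 2), (10, 6), (73, 3)], 0, 0, 0, 0, 0, [0]⟩)))) (.L ⟨[(0, 42604), (2, 10750), (8, 125232), (10, 2580), (38, 32250), (41, 17157), (46, 3225), (83, 4902)], 0, 0, 0, 0, 0, [0]⟩)))) (.L ⟨[(0, 173), (8, 519), (71, 129)], 0, 0, 0, 0, 0, [0]⟩))))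

theorem ok_M1_0p : tree_M1_0p.check prm_M1 ⟨64, 64, -128, 128, -64, 64, -128, 128, -64, 64, -128, 128, 0, 672⟩ = true := by decide +kernel

def tree_M1_1m : Tree := .N 6 (.N 6 (.L ⟨[], 0, 0, 0, 0, 0, [1]⟩) (.L ⟨[], 0, 0, 0, 0, 0, [1]⟩)) (.N 6 (.L ⟨[(0, 29), (4, 87), (67, 16)], 0, 0, 0, 0, 0, [960]⟩) (.L ⟨[(0, 25), (3, 75), (65, 18)], 0, 0, 0, 0, 0, [0]⟩))

theorem ok_M1_1m : tree_M1_1m.check prm_M1 ⟨-64, 64, -128, -128, -64, 64, -128, 128, -64, 64, -128, 128, 0, 672⟩ = true := by decide +kernel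

def tree_M1_1p : Tree := .N 6 (.N 6 (.L ⟨[], 0, 0, 0, 0, 0, [1]⟩) (.N 6 (.L ⟨[], 0, 0, 0, 0, 0, [1]⟩) (.N 6 (.L ⟨[(0, 433), (12, 1299), (87, 84)], 0, 0, 0, 0, 0, [80640]⟩) (.L ⟨[(0, 559), (12, 1572), (14, 105), (88, 112)], 0, 0, 0, 0, 0, [26880]⟩)))) (.L ⟨[(0, 25), (14, 75), (77, 84)], 0, 0, 0, 0, 0, [0]⟩)

theorem ok_M1_1p : tree_M1_1p.check prm_M1 ⟨-64, 64, 128, 128, -64, 64, -128, 128, -64, 64, -128, 128, 0, 672⟩ = true := by decide +kernel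

def tree_M1_2m : Tree := .N 6 (.N 6 (.L ⟨[], 0, 0, 0, 0, 0, [1]⟩) (.L ⟨[(0, 196), (1, 300), (10, 588), (21, 900), (40, 900), (47, 90), (77, 129)], 0, 0, 0, 0, 0, [15480]⟩)) (.L ⟨[(0, 191894), (1, 408850), (10, 478932), (12, 96750), (21, 1163125), (23, 63425), (40, 1226550), (48, 122655), (92, 20425)], 0, 0, 0, 0, 0, [16512000]⟩)

theorem ok_M1_2m : tree_M1_2m.check prm_M1 ⟨-64, 64, -128, 128, -64, -64, -128, 128, -64, 64, -128, 128, 0, 672⟩ = true := by decide +kernel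

def tree_M1_2p : Tree := .N 6 (.N 6 (.L ⟨[], 0, 0, 0, 0, 0, [1]⟩) (.N 6 (.L ⟨[], 0, 0, 0, 0, 0, [1]⟩) (.N 6 (.L ⟨[(0, 433), (12, 1299), (87, 84)], 0, 0, 0, 0, 0, [80640]⟩) (.N 1 (.L ⟨[], 0, 0, 0, 0, 0, [1]⟩) (.N 1 (.L ⟨[], 0, 0, 0, 0, 0, [1]⟩) (.L ⟨[(0, 135470), (2, 5160), (10, 119280), (12, 287130), (38, 15480), (41, 406410), (42, 406410), (53, 40641), (83, 25800)], 0, 0, 0, 0, 0, [9907200]⟩)))))) (.N 0 (.L ⟨[(0, 40075), (1, 75082), (13, 120225), (20, 194694), (22, 30552), (41, 345471), (88, 7638)], 0, 0, 0, 0, 0, [7332480]⟩) (.N 4 (.L ⟨[(1, 50), (2, 54), (20, 150), (33, 150), (35, 12), (41, 150), (53, 15)], 0, 0, 0, 0, 0, [0]⟩) (.N 5 (.L ⟨[(1, 251180), (2, 86250), (18, 557070), (20, 196470), (35, 258750), (41, 753540), (52, 549729), (58, 189750), (70, 44850)], 0, 0, 52992000, 0, 0, [0]⟩) (.N 6 (.N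 5 (.N 4 (.N 6 (.N 1 (.L ⟨[], 0, 0, 0, 0, 0, [1]⟩) (.N 0 (.L ⟨[(0, 4127), (1, 3276), (14, 12381), (20, 6552), (22, 3276), (41, 22209), (76, 14682)], 0, 0, 0, 0, 0, [786240]⟩) (.N 6 (.N 1 (.L ⟨[(0, 500), (10, 1350), (12, 150), (41, 1400), (52, 150), (73, 787)], 0, 0, 0, 0, 0, [72000]⟩) (.L ⟨[(0, 1400), (10, 3750), (12, 450), (41, 4200), (53, 420), (73, 2211)], 0, 0, 0, 0, 0, [67200]⟩)) (.N 1 (.L ⟨[(0, 2000), (1, 100), (2, 75), (10, 6000), (22, 300), (38, 225), (41, 6300), (51, 630), (73, 3402)], 0, 0, 13375, 0, 0, [96000]⟩) (.L ⟨[(0, 187600), (1, 8400), (10, 419550), (12, 143250), (22, 25200), (41, 588000), (51, 58800), (73, 234471), (83, 8400)], 0, 0, 0, 0, 0, [8064000]⟩))))) (.L ⟨[(1, 153950), (2, 37125), (20, 437100), (22, 24750), (35, 8250), (37, 103125), (41, 461850), (51, 46185), (73, 113526)],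 0, 0, 3960000, 0, 0, [0]⟩)) (.N 4 (.N 4 (.N 5 (.L ⟨[], 0, 0, 1, 0, 0, [0]⟩) (.N 6 (.N 1 (.L ⟨[], 0, 0, 0, 0, 0, [1]⟩) (.N 0 (.L ⟨[(0, 4127), (1, 3276), (14, 12381), (20, 6552), (22, 3276), (41, 22209), (76, 14682)], 0, 0, 0, 0, 0, [786240]⟩) (.N 5 (.L ⟨[], 0, 0, 1, 0, 0, [0]⟩) (.N 5 (.L ⟨[(0, 1400), (10, 3750), (12, 450), (41, 4200), (51, 420), (73, 2211)], 0, 0, 806400, 0, 0, [70140]⟩) (.N 6 (.N 1 (.L ⟨[(0, 1400), (10, 3750), (12, 450), (41, 4200), (53, 420), (73, 2211)], 0, 0, 9240, 0, 0, [201600]⟩) (.L ⟨[(0, 1400), (10, 3750), (12, 450), (41, 4200), (53, 420), (73, 2211)], 0, 0, 13440, 0, 0, [67200]⟩)) (.N 1 (.L ⟨[(0, 2000), (1, 100), (2, 75), (10, 6000), (22, 300), (38, 225), (41, 6300), (51, 630), (73, 3402)], 0, 0, 21500, 0, 0, [96000]⟩) (.L ⟨[(0, 187600), (1, 8400), (10, 419550), (12, 143250),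 (22, 25200), (41, 588000), (51, 58800), (73, 234471), (83, 8400)], 0, 0, 2175600, 0, 0, [8064000]⟩))))))) (.L ⟨[(1, 28000), (2, 4225), (20, 75600), (22, 8400), (38, 12675), (41, 84000), (51, 8400), (73, 29232)], 0, 0, 1008000, 0, 0, [0]⟩))) (.L ⟨[(1, 52550), (2, 8250), (20, 149400), (22, 8250), (38, 24750), (41, 157650), (51, 15765), (73, 53259)], 0, 0, 12672000, 0, 0, [0]⟩)) (.L ⟨[(2, 8341), (34, 11648), (36, 13375), (83, 1400)], 0, 0, 2688000, 0, 0, [0]⟩))) (.N 5 (.N 6 (.N 1 (.L ⟨[], 0, 0, 0, 0, 0, [1]⟩) (.N 0 (.L ⟨[(0, 4127), (1, 3276), (14, 12381), (20, 6552), (22, 3276), (41, 22209), (76, 14682)], 0, 0, 0, 0, 0, [786240]⟩) (.N 6 (.N 1 (.L ⟨[(0, 2), (10, 6), (73, 3)], 0, 0, 0, 0, 0, [480]⟩) (.L ⟨[(0, 700), (10, 1650), (12, 450), (41, 2100), (42, 2100), (53, 210), (73, 1161)], 0, 0, 0, 0, 0, [33600]⟩))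 (.N 1 (.L ⟨[(0, 475), (1, 25), (2, 25), (10, 1425), (22, 75), (38, 75), (41, 1500), (42, 600), (51, 150), (73, 834)], 0, 0, 3025, 0, 0, [24000]⟩) (.L ⟨[(0, 24350), (1, 2100), (10, 55950), (12, 17100), (22, 6300), (41, 79350), (73, 33729), (83, 900)], 0, 0, 0, 0, 0, [1152000]⟩))))) (.L ⟨[(1, 40880), (2, 12049), (20, 111664), (22, 10976), (38, 36147), (41, 122640), (83, 5488)], 0, 0, 0, 0, 0, [0]⟩)) (.L ⟨[(1, 69020), (2, 29415), (20, 195510), (22, 11550), (38, 88245), (41, 207060), (42, 207060), (51, 20706), (85, 11550)], 0, 0, 0, 0, 0, [0]⟩))) (.L ⟨[(1, 31399), (2, 2412), (20, 89373), (22, 4824), (38, 7236), (41, 94197), (51, 7236), (72, 28563)], 0, 0, 289440, 0, 0, [0]⟩)))))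

theorem ok_M1_2p : tree_M1_2p.check prm_M1 ⟨-64, 64, -128, 128, 64, 64, -128, 128, -64, 64, -128, 128, 0, 672⟩ = true := by decide +kernel

def tree_M1_3m : Tree := .N 6 (.N 6 (.L ⟨[], 0, 0, 0, 0, 0, [1]⟩) (.L ⟨[], 0, 1, 0, 0, 0, [0]⟩)) (.L ⟨[(1, 25), (15, 75), (65, 18)], 0, 1080, 0, 0, 0, [0]⟩)

theorem ok_M1_3m : tree_M1_3m.check prm_M1 ⟨-64, 64, -128, 128, -64, 64, -128, -128, -64, 64, -128, 128, 0, 672⟩ = true := by decide +kernel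

def tree_M1_3p : Tree := .N 6 (.N 6 (.L ⟨[], 0, 0, 0, 0, 0, [1]⟩) (.N 6 (.L ⟨[], 0, 0, 0, 0, 0, [1]⟩) (.N 6 (.L ⟨[(0, 433), (12, 1299), (87, 84)], 0, 0, 0, 0, 0, [80640]⟩) (.L ⟨[(0, 168), (1, 205), (10, 504), (26, 615), (76, 840)], 0, 0, 0, 0, 0, [12300]⟩)))) (.L ⟨[(1, 25), (26, 75), (77, 84)], 0, 0, 0, 0, 0, [0]⟩)

theorem ok_M1_3p : tree_M1_3p.check prm_M1 ⟨-64, 64, -128, 128, -64, 64, 128, 128, -64, 64, -128, 128, 0, 672⟩ = true := by decide +kernel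

def tree_M1_4m : Tree := .N 6 (.N 6 (.L ⟨[], 0, 0, 0, 0, 0, [1]⟩) (.L ⟨[(0, 53600), (1, 5400), (2, 95600), (10, 160800), (15, 16200), (33, 276900), (35, 9900), (40, 78800), (41, 177000), (46, 30300), (52, 17700), (77, 33671)], 0, 0, 0, 0, 0, [4608000]⟩)) (.N 0 (.L ⟨[(0, 7840), (2, 13104), (12, 23520), (33, 37632), (35, 1680), (40, 29369), (53, 2352), (78, 13406)], 0, 0, 0, 0, 0, [1290240]⟩) (.L ⟨[(0, 128140), (1, 9890), (2, 295660), (10, 384420), (15, 29670), (33, 857310), (35, 29670), (41, 414090), (47, 79120), (48, 9890), (52, 41409), (89, 9890)], 0, 0, 0, 0, 0, [9494400]⟩))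

theorem ok_M1_4m : tree_M1_4m.check prm_M1 ⟨-64, 64, -128, 128, -64, 64, -128, 128, -64, -64, -128, 128, 0, 672⟩ = true := by decide +kernel

def tree_M1_4p : Tree := .N 6 (.N 6 (.L ⟨[], 0, 0, 0, 0, 0, [1]⟩) (.N 6 (.L ⟨[], 0, 0, 0, 0, 0, [1]⟩) (.N 6 (.L ⟨[(0, 433), (12, 1299), (87, 84)], 0, 0, 0, 0, 0, [80640]⟩) (.N 1 (.L ⟨[], 0, 0, 0, 0, 0, [1]⟩) (.N 1 (.L ⟨[], 0, 0, 0, 0, 0, [1]⟩) (.L ⟨[(0, 460623), (2, 14740), (10, 470148), (12, 911721), (36, 44220), (41, 48642), (42, 1381869), (46, 4422), (83, 84018)], 0, 0, 0, 0, 0, [33960960]⟩)))))) (.N 5 (.L ⟨[], 0, 0, 1, 0, 0, [0]⟩) (.L ⟨[(2, 27823), (34, 43344), (36, 40125), (73, 4200), (83, 4200)], 0, 0, 2016000, 0, 0, [0]⟩))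

theorem ok_M1_4p : tree_M1_4p.check prm_M1 ⟨-64, 64, -128, 128, -64, 64, -128, 128, 64, 64, -128, 128, 0, 672⟩ = true := by decide +kernel

def tree_M1_5m : Tree := .N 6 (.N 6 (.L ⟨[], 0, 0, 0, 0, 0, [1]⟩) (.L ⟨[(0, 3), (2, 14), (14, 9), (27, 42)], 0, 0, 0, 0, 0, [720]⟩)) (.N 6 (.N 0 (.L ⟨[], 0, 0, 0, 0, 0, [1]⟩) (.L ⟨[(0, 548120), (2, 1528809), (10, 1604988), (12, 39372), (29, 4459047), (31, 127380), (41, 1644360), (46, 326556), (53, 164436), (68, 474720)], 0, 3274824, 28012020, 0, 0, [35573760]⟩)) (.L ⟨[(2, 25), (27, 75), (65, 18)], 0, 0, 0, 0, 0, [0]⟩))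

theorem ok_M1_5m : tree_M1_5m.check prm_M1 ⟨-64, 64, -128, 128, -64, 64, -128, 128, -64, 64, -128, -128, 0, 672⟩ = true := by decide +kernel

def tree_M1_5p : Tree := .N 6 (.N 6 (.L ⟨[], 0, 0, 0, 0, 0, [1]⟩) (.N 6 (.L ⟨[], 0, 0, 0, 0, 0, [1]⟩) (.N 6 (.L ⟨[(0, 433), (12, 1299), (87, 84)], 0, 0, 0, 0, 0, [80640]⟩) (.L ⟨[(0, 168), (2, 205), (10, 504), (38, 615), (76, 840)], 0, 0, 0, 0, 0, [12300]⟩)))) (.L ⟨[(2, 25), (38, 75), (77, 84)], 0, 0, 0, 0, 0, [0]⟩)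

theorem ok_M1_5p : tree_M1_5p.check prm_M1 ⟨-64, 64, -128, 128, -64, 64, -128, 128, -64, 64, 128, 128, 0, 672⟩ = true := by decide +kernel

end Pool.Agent.H78.P6
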