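import Pool.Agent.H78.P6.Rows

/-! certificate pair (generated) -/

set_option autoImplicit false
set_option maxRecDepth 100000

namespace Pool.Agent.H78.P6

open Pool.Agent.H30.P6

def prm_pair : Prm := ⟨32, 1024, rowsR ++ [], [(0, 104000), (2, 90000)]⟩

def tree_pair_0m : Tree := .N 6 (.N 6 (.L ⟨[], 0, 0, 0, 0, 0, [1, 0]⟩) (.L ⟨[], 0, 0, 0, 0, 0, [1, 0]⟩)) (.L ⟨[(0, 2), (11, 6), (81, 3)], 0, 0, 0, 0, 0, [180, 0]⟩)

theorem ok_pair_0m : tree_pair_0m.check prm_pair ⟨-32, -32, -64, 64, -32, 32, -64, 64, -32, 32, -64, 64, 0, 1344⟩ = true := by decide +kernel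

def tree_pair_0p : Tree := .N 6 (.N 6 (.L ⟨[], 0, 0, 0, 0, 0, [1, 0]⟩) (.N 6 (.L ⟨[(0, 2750), (2, 2750), (10, 8250), (35, 8250), (40, 8250), (41, 8250), (46, 825), (53, 825), (95, 759)], 0, 0, 0, 0, 0, [1059840, 227010]⟩) (.N 4 (.N 4 (.L ⟨[(0, 50), (2, 50), (8, 138), (10, 12), (33, 138), (35, 12), (40, 150), (41, 150), (46, 15), (53, 15)], 0, 0, 0, 0, 0, [0, 0]⟩) (.L ⟨[(0, 91446), (2, 55040), (8, 261180), (10, 13158), (35, 165120), (40, 165120), (41, 192855), (46, 16512), (53, 16512), (95, 7482)], 0, 0, 0, 0, 0, [0, 3962880]⟩)) (.L ⟨[], 0, 0, 0, 0, 0, [0, 1]⟩)))) (.N 4 (.L ⟨[(0, 50), (2, 50), (8, 138), (10, 12), (33, 138), (35, 12), (40, 150), (41, 150), (46, 15), (53, 15)], 0, 0, 0, 0, 0, [0, 0]⟩) (.N 6 (.N 6 (.L ⟨[(0, 12958), (2, 9460), (8, 36552), (10, 2322), (35, 19608), (37, 8772), (41, 35991), (46, 2838), (95, 1935)], 0, 0, 0, 0, 0, [0, 990720]⟩)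 (.L ⟨[(0, 2672), (2, 1010), (6, 8016), (35, 1356), (37, 1674), (40, 3030), (41, 2204), (46, 303), (52, 343), (95, 58), (98, 1875)], 0, 0, 0, 0, 0, [0, 122880]⟩)) (.L ⟨[(0, 264), (2, 90), (4, 436), (6, 356), (35, 120), (37, 150), (41, 254), (46, 27), (97, 444)], 0, 0, 0, 0, 0, [0, 11520]⟩)))

theorem ok_pair_0p : tree_pair_0p.check prm_pair ⟨32, 32, -64, 64, -32, 32, -64, 64, -32, 32, -64, 64, 0, 1344⟩ = true := by decide +kernel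

def tree_pair_1m : Tree := .N 6 (.N 6 (.L ⟨[], 0, 0, 0, 0, 0, [1, 0]⟩) (.L ⟨[], 0, 0, 0, 0, 0, [1, 0]⟩)) (.N 4 (.N 0 (.L ⟨[], 0, 0, 0, 0, 0, [1, 0]⟩) (.L ⟨[(0, 122575), (1, 9933), (2, 51557), (6, 207819), (8, 159906), (15, 29799), (33, 19866), (35, 134805), (40, 184470), (46, 18447), (53, 36894)], 0, 26961, 0, 0, 0, [2724480, 2724480]⟩)) (.L ⟨[(0, 14), (2, 3), (3, 42), (38, 9)], 0, 0, 0, 0, 0, [0, 720]⟩))

theorem ok_pair_1m : tree_pair_1m.check prm_pair ⟨-32, 32, -64, -64, -32, 32, -64, 64, -32, 32, -64, 64, 0, 1344⟩ = true := by decide +kernel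

def tree_pair_1p : Tree := .N 6 (.N 6 (.L ⟨[], 0, 0, 0, 0, 0, [1, 0]⟩) (.N 6 (.L ⟨[(0, 2750), (2, 2750), (10, 8250), (35, 8250), (40, 8250), (41, 8250), (46, 825), (53, 825), (95, 759)], 0, 0, 0, 0, 0, [1059840, 227010]⟩) (.N 4 (.N 0 (.L ⟨[], 0, 0, 0, 0, 0, [1, 0]⟩) (.N 6 (.L ⟨[(0, 35500), (2, 36944), (10, 106500), (33, 9900), (35, 100932), (40, 105150), (41, 106500), (46, 10650), (53, 10650), (95, 9525)], 0, 0, 0, 0, 0, [2304000, 2304000]⟩) (.N 6 (.L ⟨[(0, 219000), (2, 231562), (10, 657000), (33, 92700), (35, 601986), (40, 680325), (41, 657000), (46, 65700), (53, 65700), (95, 57600)], 0, 0, 0, 0, 0, [13824000, 13824000]⟩) (.N 0 (.N 5 (.L ⟨[(0, 2), (2, 7), (12, 6), (29, 21)], 0, 0, 0, 0, 0, [120, 106]⟩) (.L ⟨[(0, 1250), (2, 1250), (10, 3750), (35, 3750), (40, 3750), (41, 3750), (46, 375), (53, 375), (95, 345)], 0, 0, 0, 0, 0, [88320, 77924]⟩)) (.L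 ⟨[(0, 39590), (2, 42800), (10, 118770), (33, 22680), (35, 105720), (40, 119355), (41, 118770), (46, 4494), (47, 8346), (53, 11877), (95, 10272)], 0, 0, 0, 0, 0, [0, 2465280]⟩))))) (.L ⟨[], 0, 0, 0, 0, 0, [0, 1]⟩)))) (.L ⟨[(0, 125), (14, 375), (95, 84)], 0, 0, 0, 0, 0, [0, 0]⟩)

theorem ok_pair_1p : tree_pair_1p.check prm_pair ⟨-32, 32, 64, 64, -32, 32, -64, 64, -32, 32, -64, 64, 0, 1344⟩ = true := by decide +kernel

def tree_pair_2m : Tree := .N 6 (.N 6 (.L ⟨[], 0, 0, 0, 0, 0, [1, 0]⟩) (.N 6 (.L ⟨[(0, 46422), (1, 69650), (10, 139266), (21, 202500), (23, 6450), (40, 208950), (48, 20895), (95, 6450)], 0, 0, 0, 0, 0, [12384000, 0]⟩) (.L ⟨[(0, 26822), (1, 39650), (10, 80466), (21, 112500), (23, 6450), (40, 118950), (48, 11895), (95, 3870)], 0, 0, 0, 0, 0, [2476800, 0]⟩))) (.N 0 (.N 6 (.L ⟨[(0, 41157), (1, 56000), (10, 83496), (12, 39975), (21, 159600),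 (23, 8400), (40, 168000), (48, 16800), (95, 8400)], 0, 0, 0, 0, 0, [4032000, 0]⟩) (.L ⟨[(0, 12375), (1, 52550), (12, 37125), (21, 149400), (23, 8250), (40, 157650), (48, 15765), (81, 39399)], 0, 0, 0, 0, 0, [1980000, 0]⟩)) (.L ⟨[(0, 51322), (1, 77150), (8, 6450), (10, 147516), (21, 231450), (40, 231450), (46, 23145), (95, 6450)], 0, 0, 0, 0, 0, [3096000, 0]⟩))

theorem ok_pair_2m : tree_pair_2m.check prm_pair ⟨-32, 32, -64, 64, -32, -32, -64, 64, -32, 32, -64, 64, 0, 1344⟩ = true := by decide +kernel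

def tree_pair_2p : Tree := .N 6 (.N 6 (.L ⟨[], 0, 0, 0, 0, 0, [1, 0]⟩) (.N 6 (.L ⟨[(0, 535), (1, 15), (2, 594), (10, 1605), (22, 45), (35, 1782), (41, 1650), (52, 165), (95, 165)], 0, 0, 0, 0, 0, [230400, 49785]⟩) (.N 4 (.L ⟨[(1, 69650), (2, 46422), (20, 202500), (22, 6450), (35, 139266), (41, 208950), (52, 14445), (53, 6450), (95, 6450)], 0, 0, 0, 0, 0, [0, 3096000]⟩) (.L ⟨[], 0, 0, 0, 0, 0, [0, 1]⟩)))) (.N 4 (.L ⟨[(1, 50), (2, 54), (20, 150), (33, 150), (35, 12), (41, 150), (53, 15)], 0, 0, 0, 0, 0, [0, 0]⟩) (.N 5 (.L ⟨[], 0, 0, 0, 0, 0, [0, 1]⟩) (.N 6 (.N 4 (.L ⟨[(1, 56000), (2, 45907), (20, 159600), (22, 8400), (35, 41496), (37, 96225), (41, 168000), (51, 16800), (95, 12600)], 0, 0, 0, 0, 0, [0, 4032000]⟩) (.L ⟨[(2, 125), (38, 375), (95, 84)], 0, 0, 0, 0, 0, [0, 40320]⟩)) (.L ⟨[(1, 4480), (2, 1430), (20, 12768), (22, 672), (37, 1713), (38, 2577),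 (41, 13440), (51, 1344), (83, 504)], 0, 0, 0, 0, 0, [0, 161280]⟩))))

theorem ok_pair_2p : tree_pair_2p.check prm_pair ⟨-32, 32, -64, 64, 32, 32, -64, 64, -32, 32, -64, 64, 0, 1344⟩ = true := by decide +kernel

def tree_pair_3m : Tree := .N 6 (.N 6 (.L ⟨[], 0, 0, 0, 0, 0, [1, 0]⟩) (.L ⟨[], 0, 1, 0, 0, 0, [0, 0]⟩)) (.L ⟨[(1, 25), (15, 75), (40, 75), (41, 75), (65, 21)], 0, 1440, 0, 0, 0, [0, 0]⟩)

theorem ok_pair_3m : tree_pair_3m.check prm_pair ⟨-32, 32, -64, 64, -32, 32, -64, -64, -32, 32, -64, 64, 0, 1344⟩ = true := by decide +kernel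

def tree_pair_3p : Tree := .N 6 (.N 6 (.L ⟨[], 0, 0, 0, 0, 0, [1, 0]⟩) (.N 6 (.L ⟨[(0, 2750), (2, 2750), (10, 8250), (35, 8250), (40, 8250), (41, 8250), (46, 825), (53, 825), (95, 759)], 0, 0, 0, 0, 0, [1059840, 227010]⟩) (.N 4 (.N 0 (.L ⟨[], 0, 0, 0, 0, 0, [1, 0]⟩) (.N 6 (.L ⟨[(0, 11150), (2, 11150), (8, 2714), (10, 30736), (33, 2714), (35, 30736), (40, 33450), (41, 33450), (46, 3345), (53, 3345), (95, 2806)], 0, 0, 0, 0, 0, [706560, 706560]⟩) (.N 6 (.L ⟨[(0, 1540), (2, 1540), (8, 570), (10, 4050), (33, 570), (35, 4050), (46, 462), (53, 462), (95, 405)], 0, 0, 0, 0, 0, [92160, 92160]⟩) (.N 0 (.L ⟨[(0, 139750), (2, 150210), (10, 419250), (33, 67500), (35, 383130), (41, 32250), (46, 45063), (53, 41925), (95, 39990)], 0, 0, 0, 0, 0, [9907200, 8741685]⟩) (.N 1 (.L ⟨[], 0, 0, 0, 0, 0, [1, 0]⟩) (.L ⟨[(0, 1988750), (2, 2161220), (10, 5966250), (33, 1125000),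 (35, 5358660), (41, 467625), (46, 648366), (53, 596625), (95, 564375)], 0, 0, 0, 0, 0, [84349875, 123840000]⟩)))))) (.L ⟨[], 0, 0, 0, 0, 0, [0, 1]⟩)))) (.L ⟨[(1, 125), (26, 375), (95, 84)], 0, 0, 0, 0, 0, [0, 0]⟩)

theorem ok_pair_3p : tree_pair_3p.check prm_pair ⟨-32, 32, -64, 64, -32, 32, 64, 64, -32, 32, -64, 64, 0, 1344⟩ = true := by decide +kernel

def tree_pair_4m : Tree := .N 6 (.N 6 (.L ⟨[], 0, 0, 0, 0, 0, [1, 0]⟩) (.N 6 (.L ⟨[(0, 21500), (2, 40500), (10, 64500), (33, 121500), (41, 64500), (48, 12150), (51, 6450), (95, 2967)], 0, 0, 0, 0, 0, [5696640, 0]⟩) (.L ⟨[(0, 11610), (2, 20386), (10, 34830), (33, 58320), (35, 2838), (40, 16770), (41, 34830), (48, 4773), (53, 3483), (95, 1677)], 0, 0, 0, 0, 0, [990720, 0]⟩))) (.N 6 (.N 0 (.L ⟨[(0, 430), (2, 630), (10, 946), (12, 344), (33, 1804), (35, 86), (40, 1032), (53, 129), (95, 86)], 0, 0, 0,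 0, 0, [41280, 0]⟩) (.L ⟨[(0, 2021), (1, 129), (2, 3581), (8, 258), (10, 5805), (15, 387), (33, 10356), (35, 387), (40, 1806), (41, 6450), (47, 1113), (52, 645), (95, 258)], 0, 0, 0, 0, 0, [123840, 0]⟩)) (.L ⟨[(0, 1140), (2, 3086), (10, 3048), (12, 372), (31, 7818), (33, 1440), (40, 2097), (41, 3420), (47, 390), (53, 342), (131, 3546)], 0, 0, 0, 0, 0, [92160, 0]⟩))

theorem ok_pair_4m : tree_pair_4m.check prm_pair ⟨-32, 32, -64, 64, -32, 32, -64, 64, -32, -32, -64, 64, 0, 1344⟩ = true := by decide +kernel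

def tree_pair_4p : Tree := .N 6 (.N 6 (.L ⟨[], 0, 0, 0, 0, 0, [0, 1]⟩) (.L ⟨[], 0, 0, 0, 0, 0, [0, 1]⟩)) (.L ⟨[(2, 2), (34, 6), (73, 3)], 0, 0, 0, 0, 0, [0, 180]⟩)

theorem ok_pair_4p : tree_pair_4p.check prm_pair ⟨-32, 32, -64, 64, -32, 32, -64, 64, 32, 32, -64, 64, 0, 1344⟩ = true := by decide +kernel

def tree_pair_5m : Tree := .N 6 (.N 6 (.L ⟨[], 0, 0, 0, 0, 0, [0, 1]⟩) (.L ⟨[], 0, 0, 0, 0, 0, [0, 1]⟩)) (.N 6 (.L ⟨[(0, 640), (2, 1530), (10, 1920), (31, 3870), (33, 720), (40, 2715), (53, 192)], 0, 0, 0, 0, 0, [46080, 46080]⟩) (.N 2 (.L ⟨[(0, 14805), (1, 28245), (2, 244465), (12, 22995), (14, 21420), (26, 84735), (27, 733395), (40, 818130), (42, 116835), (46, 81813), (54, 12915), (64, 64890)], 0, 4838400, 0, 0, 0, [2050335, 0]⟩) (.N 3 (.L ⟨[(1, 290), (2, 1421), (22, 348), (24, 522), (27, 4263), (53, 87), (66, 174), (67, 546)], 0, 41760, 0, 0,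 0, [0, 1827]⟩) (.L ⟨[(1, 3), (2, 14), (26, 9), (27, 42)], 0, 0, 0, 0, 0, [0, 0]⟩))))

theorem ok_pair_5m : tree_pair_5m.check prm_pair ⟨-32, 32, -64, 64, -32, 32, -64, 64, -32, 32, -64, -64, 0, 1344⟩ = true := by decide +kernel

def tree_pair_5p : Tree := .N 6 (.N 6 (.L ⟨[], 0, 0, 0, 0, 0, [1, 0]⟩) (.N 6 (.L ⟨[(0, 2750), (2, 2750), (10, 8250), (35, 8250), (40, 8250), (41, 8250), (46, 825), (53, 825), (95, 759)], 0, 0, 0, 0, 0, [1059840, 227010]⟩) (.N 4 (.N 0 (.L ⟨[], 0, 0, 0, 0, 0, [1, 0]⟩) (.N 6 (.L ⟨[(0, 36944), (2, 35500), (8, 9900), (10, 100932), (35, 106500), (40, 106500), (41, 105150), (46, 10650), (53, 10650), (95, 9525)], 0, 0, 0, 0, 0, [2304000, 2304000]⟩) (.N 6 (.L ⟨[(0, 231562), (2, 219000), (8, 92700), (10, 601986), (35, 657000), (40, 657000), (41, 680325), (46, 65700), (53, 65700), (95, 57600)], 0, 0, 0, 0, 0, [13824000, 13824000]⟩)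 (.N 6 (.L ⟨[(0, 119494), (2, 111750), (8, 54900), (10, 303582), (35, 335250), (40, 335250), (41, 337650), (46, 33525), (53, 33525), (95, 29250)], 0, 0, 0, 0, 0, [6912000, 6912000]⟩) (.N 1 (.L ⟨[], 0, 0, 0, 0, 0, [1, 0]⟩) (.L ⟨[(0, 87920), (2, 111440), (10, 186390), (12, 77370), (37, 334320), (40, 195435), (41, 263760), (46, 14616), (47, 18816), (52, 26376), (95, 53592)], 0, 0, 0, 0, 0, [5160960, 5160960]⟩)))))) (.L ⟨[], 0, 0, 0, 0, 0, [0, 1]⟩)))) (.L ⟨[(2, 125), (38, 375), (95, 84)], 0, 0, 0, 0, 0, [0, 0]⟩)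

theorem ok_pair_5p : tree_pair_5p.check prm_pair ⟨-32, 32, -64, 64, -32, 32, -64, 64, -32, 32, 64, 64, 0, 1344⟩ = true := by decide +kernel

end Pool.Agent.H78.P6
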