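import Pool.Agent.H78.P6.Rows

/-! certificate ray1 (generated) -/

set_option autoImplicit false
set_option maxRecDepth 100000

namespace Pool.Agent.H78.P6

open Pool.Agent.H30.P6

def prm_ray1 : Prm := ⟨256, 32768, rowsR ++ [⟨0, 25, -2, 0, 0, 0, 0, 0, 0, 0, 0, 0, 0, 0, 0, 0, 0, 0, 0, 0, 23⟩], []⟩

def tree_ray1_0m : Tree := .N 6 (.N 6 (.L ⟨[(144, 1)], 0, 0, 0, 0, 0, []⟩) (.L ⟨[(144, 1)], 0, 0, 0, 0, 0, []⟩)) (.N 1 (.L ⟨[], 1, 0, 0, 0, 0, []⟩) (.N 2 (.N 4 (.N 1 (.L ⟨[(0, 26), (11, 78), (81, 39)], 3840, 0, 0, 0, 0, []⟩) (.N 3 (.L ⟨[(0, 1), (1, 4), (14, 3), (15, 12), (40, 12), (41, 12)], 27, 0, 0, 120, 0, []⟩) (.N 5 (.L ⟨[(0, 270), (2, 1205), (14, 810), (27, 3615), (39, 108), (40, 882), (41, 180), (42, 810), (54, 81)], 34560, 0, 0, 0, 0, []⟩) (.N 6 (.N 3 (.L ⟨[(0, 2), (11, 6), (81, 3)], 456, 0, 0, 61440, 0, []⟩) (.N 2 (.N 6 (.N 6 (.L ⟨[(144,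 1)], 0, 0, 0, 0, 0, []⟩) (.N 6 (.L ⟨[(144, 1)], 0, 0, 0, 0, 0, []⟩) (.L ⟨[(0, 733), (11, 1224), (13, 975), (80, 1200), (144, 43980)], 0, 0, 0, 0, 0, []⟩))) (.N 1 (.N 1 (.N 3 (.N 3 (.N 1 (.L ⟨[(0, 2), (11, 6), (81, 3)], 360, 0, 0, 0, 0, []⟩) (.N 3 (.L ⟨[(1, 700), (23, 1650), (25, 450), (39, 2100), (40, 2100), (81, 1161)], 85950, 0, 0, 216000, 0, []⟩) (.N 2 (.N 4 (.N 2 (.N 5 (.N 4 (.N 5 (.L ⟨[(1, 700), (23, 1650), (25, 450), (39, 2100), (40, 2100), (42, 2100), (54, 210), (81, 1077)], 23940, 0, 0, 50400, 0, []⟩) (.N 6 (.N 2 (.N 6 (.N 6 (.N 6 (.L ⟨[(144, 1)], 0, 0, 0, 0, 0, []⟩) (.L ⟨[(1, 700), (23, 1650), (25, 450), (39, 2100), (40, 2100), (81, 1161)], 25200, 0, 0, 54000, 0, []⟩)) (.L ⟨[(1, 700), (23, 1650), (25, 450), (39, 2100), (40, 2100), (81, 1161)], 25200, 0, 0, 54000, 0, []⟩)) (.L ⟨[(1, 700), (23, 1650), (25, 450), (39, 2100), (40,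 2100), (81, 1161)], 29700, 0, 0, 54000, 0, []⟩)) (.L ⟨[], 0, 0, 0, 1, 0, []⟩)) (.L ⟨[(0, 2), (11, 6), (81, 3)], 0, 0, 0, 0, 0, []⟩))) (.L ⟨[(1, 79450), (23, 184350), (25, 54000), (39, 238350), (40, 238350), (42, 238350), (80, 3600), (81, 118941)], 3250800, 0, 0, 6912000, 316800, []⟩)) (.L ⟨[(1, 5131), (23, 4548), (25, 10845), (39, 15393), (40, 15393), (80, 9288), (130, 3411)], 260373, 0, 0, 545760, 200112, []⟩)) (.L ⟨[], 0, 0, 0, 1, 0, []⟩)) (.L ⟨[(1, 700), (23, 1650), (25, 450), (39, 2100), (40, 2100), (42, 2100), (81, 1077)], 30156, 0, 0, 64620, 4308, []⟩)) (.L ⟨[], 0, 0, 0, 1, 0, []⟩)))) (.L ⟨[(1, 25655), (23, 22740), (25, 54225), (39, 76965), (40, 76965), (80, 46440)], 1287084, 0, 0, 2183040, 0, []⟩)) (.L ⟨[(0, 61516), (1, 13375), (11, 184548), (26, 40125), (39, 40125), (94, 12150)], 1458000, 0, 0, 0, 0, []⟩)) (.L ⟨[(0, 733), (11,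 1224), (13, 975), (80, 1200)], 0, 0, 0, 0, 0, []⟩)) (.L ⟨[(0, 8341), (11, 11648), (13, 13375), (94, 1400)], 0, 0, 0, 0, 0, []⟩))) (.L ⟨[(1, 125), (26, 375), (95, 84)], 16296, 0, 0, 40320, 0, []⟩))) (.L ⟨[(0, 2), (11, 6), (81, 3)], 0, 0, 0, 0, 0, []⟩))))) (.L ⟨[(0, 16522), (2, 29578), (11, 49566), (32, 84456), (34, 4278), (39, 88734), (42, 49566), (95, 2139)], 684480, 0, 0, 0, 0, []⟩)) (.L ⟨[(0, 16688), (1, 24656), (11, 50064), (20, 65412), (22, 8556), (39, 73968), (41, 124032), (95, 2139)], 513360, 0, 0, 0, 0, []⟩)))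

theorem ok_ray1_0m : tree_ray1_0m.check prm_ray1 ⟨-256, -256, -512, 512, -256, 256, -512, 512, -256, 256, -512, 512, 0, 43008⟩ = true := by decide +kernel

def tree_ray1_0p : Tree := .N 6 (.N 6 (.L ⟨[(144, 1)], 0, 0, 0, 0, 0, []⟩) (.L ⟨[(144, 1)], 0, 0, 0, 0, 0, []⟩)) (.L ⟨[(144, 1)], 0, 0, 0, 0, 0, []⟩)

theorem ok_ray1_0p : tree_ray1_0p.check prm_ray1 ⟨256, 256, -512, 512, -256, 256, -512, 512, -256, 256, -512, 512, 0, 43008⟩ = true := by decide +kernel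

def tree_ray1_1m : Tree := .N 6 (.N 6 (.L ⟨[(144, 2)], 15, 0, 0, 0, 0, []⟩) (.L ⟨[(144, 2)], 15, 0, 0, 0, 0, []⟩)) (.L ⟨[(0, 87), (5, 261), (63, 48), (144, 640)], 3840, 0, 0, 0, 0, []⟩)

theorem ok_ray1_1m : tree_ray1_1m.check prm_ray1 ⟨-256, 256, -512, -512, -256, 256, -512, 512, -256, 256, -512, 512, 0, 43008⟩ = true := by decide +kernel

def tree_ray1_1p : Tree := .N 6 (.N 6 (.L ⟨[(144, 1)], 0, 0, 0, 0, 0, []⟩) (.L ⟨[(144, 1)], 0, 0, 0, 0, 0, []⟩)) (.L ⟨[(0, 125), (14, 375), (95, 84)], 0, 0, 0, 0, 0, []⟩)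

theorem ok_ray1_1p : tree_ray1_1p.check prm_ray1 ⟨-256, 256, 512, 512, -256, 256, -512, 512, -256, 256, -512, 512, 0, 43008⟩ = true := by decide +kernel

def tree_ray1_2m : Tree := .N 6 (.N 6 (.L ⟨[(144, 1)], 0, 0, 0, 0, 0, []⟩) (.L ⟨[(144, 1)], 0, 0, 0, 0, 0, []⟩)) (.N 1 (.L ⟨[(1, 22490), (21, 67470), (39, 67470), (40, 67470), (46, 6747), (59, 11430), (60, 10380), (144, 301020)], 2491200, 0, 0, 0, 0, []⟩) (.N 0 (.N 4 (.N 0 (.N 6 (.N 0 (.N 6 (.N 6 (.L ⟨[(144, 1)], 0, 0, 0, 0, 0, []⟩) (.N 6 (.L ⟨[(144, 1)], 0, 0, 0, 0, 0, []⟩) (.L ⟨[(0, 733), (11, 1224), (13, 975), (80, 1200), (144, 43980)], 0, 0, 0, 0, 0, []⟩))) (.N 1 (.N 0 (.L ⟨[], 1, 0, 0, 0, 0, []⟩) (.L ⟨[(0, 121325), (1, 210000), (13, 363975), (21, 596400), (23, 33600), (39, 630000), (40, 630000), (48, 63000), (81, 374052), (144, 2347800)], 64512000, 0, 0, 0, 0, []⟩)) (.N 3 (.L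 ⟨[(0, 25), (1, 100), (14, 75), (15, 300), (40, 300), (81, 12), (144, 96)], 2880, 0, 0, 0, 0, []⟩) (.N 5 (.L ⟨[(0, 50), (2, 200), (14, 150), (27, 600), (40, 600), (42, 150), (46, 18), (54, 15), (81, 18), (144, 90)], 4320, 0, 0, 0, 0, []⟩) (.N 6 (.N 1 (.N 0 (.N 6 (.N 0 (.N 6 (.N 6 (.L ⟨[(0, 733), (11, 1224), (13, 975), (80, 1200), (144, 58500)], 0, 0, 0, 0, 0, []⟩) (.N 6 (.L ⟨[(0, 733), (11, 1224), (13, 975), (80, 1200), (144, 43980)], 0, 0, 0, 0, 0, []⟩) (.N 6 (.L ⟨[(0, 733), (11, 1224), (13, 975), (80, 1200), (144, 43980)], 0, 0, 0, 0, 0, []⟩) (.N 6 (.L ⟨[(0, 733), (11, 1224), (13, 975), (80, 1200), (144, 43980)], 0, 0, 0, 0, 0, []⟩) (.N 6 (.L ⟨[(0, 733), (11, 1224), (13, 975), (80, 1200), (144, 43980)], 0, 0, 0, 0, 0, []⟩) (.L ⟨[(0, 26), (11, 78), (81, 39), (144, 960)], 0, 0, 0, 0, 0, []⟩)))))) (.N 1 (.N 1 (.L ⟨[(144, 1)], 30, 0, 0,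 0, 0, []⟩) (.N 3 (.L ⟨[(144, 2)], 1, 0, 0, 15, 0, []⟩) (.N 3 (.N 6 (.N 3 (.L ⟨[(0, 75), (1, 350), (13, 225), (23, 1050), (39, 1050), (40, 1050), (81, 693), (144, 3950)], 12375, 0, 0, 24000, 0, []⟩) (.L ⟨[(1, 5131), (23, 6558), (25, 8835), (40, 15393), (80, 8844)], 0, 0, 0, 0, 0, []⟩)) (.L ⟨[(0, 975), (1, 4550), (13, 2925), (23, 13650), (39, 13650), (40, 13650), (81, 9009), (144, 48525)], 168150, 0, 0, 288000, 0, []⟩)) (.L ⟨[(1, 8341), (23, 11648), (25, 13375), (94, 1400)], 0, 0, 0, 0, 0, []⟩)))) (.L ⟨[(0, 1466), (11, 2448), (13, 1950), (80, 2400), (144, 10995)], 0, 0, 0, 0, 0, []⟩))) (.L ⟨[(144, 1)], 0, 0, 0, 0, 0, []⟩)) (.N 1 (.N 3 (.N 3 (.L ⟨[(144, 1)], 0, 0, 0, 10, 0, []⟩) (.N 3 (.L ⟨[(144, 2)], 2, 0, 0, 15, 0, []⟩) (.N 5 (.N 4 (.N 6 (.N 6 (.L ⟨[(0, 225), (1, 1050), (13, 675), (23, 3150), (39, 3150), (40, 3150), (81, 2079), (144,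 15400)], 39250, 0, 0, 96000, 0, []⟩) (.N 0 (.L ⟨[(0, 225), (1, 1050), (13, 675), (23, 3150), (39, 3150), (40, 3150), (81, 2079), (144, 14925)], 39325, 0, 0, 96000, 0, []⟩) (.L ⟨[(144, 30)], 0, 0, 0, 19, 0, []⟩))) (.N 6 (.N 1 (.L ⟨[(0, 75), (1, 350), (13, 225), (23, 1050), (39, 1050), (40, 1050), (81, 693), (144, 4665)], 12990, 0, 0, 28800, 0, []⟩) (.L ⟨[(0, 75), (1, 350), (13, 225), (23, 1050), (39, 1050), (40, 1050), (81, 693), (144, 5400)], 0, 0, 0, 36000, 0, []⟩)) (.N 1 (.L ⟨[(0, 75), (1, 350), (13, 225), (23, 1050), (39, 1050), (40, 1050), (81, 693), (144, 4650)], 12885, 0, 0, 28800, 0, []⟩) (.L ⟨[(0, 75), (1, 350), (13, 225), (23, 1050), (39, 1050), (40, 1050), (81, 693), (144, 5400)], 0, 0, 0, 36000, 0, []⟩)))) (.L ⟨[(0, 75), (1, 250), (2, 200), (14, 225), (23, 750), (27, 600), (39, 1350), (40, 1350), (42, 975), (81, 444), (144,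 550)], 10550, 0, 0, 0, 12000, []⟩)) (.L ⟨[(130, 1)], 0, 0, 0, 0, 120, []⟩)))) (.L ⟨[(0, 25), (1, 350), (14, 75), (23, 1050), (39, 1050), (40, 1050), (46, 105), (81, 609), (144, 50)], 2000, 0, 0, 0, 0, []⟩)) (.L ⟨[(0, 1466), (11, 2448), (13, 1950), (80, 2400), (144, 10995)], 0, 0, 0, 0, 0, []⟩))) (.L ⟨[(144, 1)], 0, 0, 0, 0, 0, []⟩)) (.L ⟨[(0, 48553), (11, 52584), (13, 93075), (93, 8400), (144, 252000)], 0, 0, 0, 0, 0, []⟩)) (.N 1 (.N 1 (.N 3 (.N 4 (.N 5 (.N 6 (.N 0 (.N 3 (.L ⟨[(144, 1)], 0, 0, 0, 10, 0, []⟩) (.N 0 (.L ⟨[(0, 75), (1, 350), (13, 225), (23, 1050), (39, 1050), (40, 1050), (81, 693)], 16950, 0, 0, 36000, 0, []⟩) (.N 6 (.N 3 (.N 6 (.L ⟨[(144, 2)], 2, 0, 0, 15, 0, []⟩) (.N 6 (.L ⟨[(0, 75), (1, 350), (13, 225), (23, 1050), (39, 1050), (40, 1050), (81, 693), (144, 7300)], 11275, 0, 0, 48000, 0, []⟩) (.L ⟨[(0, 75), (1, 350), (13,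 225), (23, 1050), (39, 1050), (40, 1050), (81, 693), (144, 7300)], 11150, 0, 0, 48000, 0, []⟩))) (.N 6 (.N 1 (.L ⟨[(0, 75), (1, 350), (13, 225), (23, 1050), (39, 1050), (40, 1050), (81, 693), (144, 4770)], 12645, 0, 0, 28800, 0, []⟩) (.L ⟨[(0, 1205), (1, 952), (13, 3615), (23, 2856), (39, 2856), (40, 2856), (80, 3696), (144, 25704)], 0, 0, 0, 114240, 0, []⟩)) (.L ⟨[(0, 75), (1, 350), (13, 225), (23, 1050), (39, 1050), (40, 1050), (81, 693), (144, 900)], 4500, 0, 0, 0, 0, []⟩))) (.N 3 (.N 1 (.N 0 (.L ⟨[(0, 525), (1, 2450), (13, 1575), (23, 7350), (39, 7350), (40, 7350), (81, 4851)], 124425, 0, 0, 288000, 0, []⟩) (.N 4 (.N 5 (.N 5 (.L ⟨[(0, 150), (2, 175), (13, 450), (27, 525), (39, 525), (40, 525), (42, 450), (54, 45), (81, 192), (144, 1395)], 10800, 0, 0, 180, 0, []⟩) (.N 6 (.N 6 (.L ⟨[(0, 525), (1, 2450), (13, 1575), (23, 7350), (39,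 7350), (40, 7350), (81, 4851), (144, 45075)], 78825, 0, 0, 288000, 0, []⟩) (.L ⟨[(0, 525), (1, 2450), (13, 1575), (23, 7350), (39, 7350), (40, 7350), (81, 4851), (144, 45075)], 78225, 0, 0, 288000, 0, []⟩)) (.N 6 (.N 3 (.L ⟨[(144, 2)], 2, 0, 0, 15, 0, []⟩) (.L ⟨[(0, 75), (1, 350), (13, 225), (23, 1050), (39, 1050), (40, 1050), (81, 693), (144, 5700)], 11100, 0, 0, 36000, 0, []⟩)) (.N 3 (.N 6 (.L ⟨[(0, 75), (1, 350), (13, 225), (23, 1050), (39, 1050), (40, 1050), (81, 693), (144, 7375)], 10925, 0, 0, 48000, 0, []⟩) (.L ⟨[(0, 75), (1, 350), (13, 225), (23, 1050), (39, 1050), (40, 1050), (81, 693), (144, 7350)], 10875, 0, 0, 48000, 0, []⟩)) (.L ⟨[(0, 75), (1, 350), (13, 225), (23, 1050), (39, 1050), (40, 1050), (81, 693), (144, 450)], 2250, 0, 0, 0, 0, []⟩))))) (.L ⟨[(0, 25), (1, 350), (14, 75), (23, 1050), (39, 1050), (40, 1050), (81,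 609), (130, 425), (144, 275)], 2525, 0, 0, 0, 24000, []⟩)) (.L ⟨[(0, 525), (1, 650), (2, 450), (13, 1575), (23, 1950), (27, 1350), (39, 3300), (40, 3300), (42, 3525), (81, 1686), (144, 5025)], 36000, 0, 0, 0, 35550, []⟩))) (.L ⟨[(0, 1466), (11, 2448), (13, 1950), (80, 2400), (144, 10995)], 0, 0, 0, 0, 0, []⟩)) (.L ⟨[(0, 25), (1, 350), (14, 75), (23, 1050), (39, 1050), (40, 1050), (81, 609), (144, 175)], 1500, 0, 0, 0, 0, []⟩))))) (.L ⟨[(144, 1)], 0, 0, 0, 0, 0, []⟩)) (.N 1 (.N 6 (.N 6 (.N 0 (.N 0 (.L ⟨[(0, 2), (11, 6), (81, 3)], 90, 0, 0, 0, 0, []⟩) (.N 0 (.L ⟨[(0, 2), (11, 6), (81, 3)], 90, 0, 0, 0, 0, []⟩) (.N 3 (.L ⟨[(144, 2)], 0, 0, 0, 15, 0, []⟩) (.N 3 (.N 3 (.N 0 (.L ⟨[(0, 75), (1, 350), (13, 225), (23, 1050), (39, 1050), (40, 1050), (81, 693)], 18175, 0, 0, 48000, 0, []⟩) (.N 5 (.N 4 (.N 5 (.L ⟨[(0, 42), (2, 49), (13, 126), (27,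 147), (39, 147), (40, 147), (42, 120), (54, 12), (81, 54), (144, 360)], 2880, 0, 0, 0, 0, []⟩) (.N 4 (.N 5 (.N 4 (.L ⟨[(131, 1)], 0, 0, 0, 0, 0, []⟩) (.N 6 (.N 6 (.L ⟨[(0, 75), (1, 350), (13, 225), (23, 1050), (39, 1050), (40, 1050), (81, 693), (144, 7400)], 10775, 0, 0, 48000, 0, []⟩) (.N 6 (.L ⟨[(0, 75), (1, 350), (13, 225), (23, 1050), (39, 1050), (40, 1050), (81, 693), (144, 7400)], 10725, 0, 0, 48000, 0, []⟩) (.L ⟨[(0, 975), (1, 4550), (13, 2925), (23, 13650), (39, 13650), (40, 13650), (81, 9009), (144, 88800)], 128325, 0, 0, 576000, 0, []⟩))) (.N 1 (.N 6 (.N 6 (.L ⟨[(0, 525), (1, 2450), (13, 1575), (23, 7350), (39, 7350), (40, 7350), (81, 4851), (144, 44775)], 70725, 0, 0, 288000, 0, []⟩) (.N 3 (.L ⟨[(0, 75), (1, 350), (13, 225), (23, 1050), (39, 1050), (40, 1050), (81, 693), (144, 7400)], 10800, 0, 0, 48000, 0, []⟩) (.L ⟨[(0,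 75), (1, 350), (13, 225), (23, 1050), (39, 1050), (40, 1050), (81, 693), (144, 825)], 4500, 0, 0, 0, 0, []⟩))) (.N 3 (.N 6 (.L ⟨[(0, 75), (1, 350), (13, 225), (23, 1050), (39, 1050), (40, 1050), (81, 693), (144, 7400)], 10775, 0, 0, 48000, 0, []⟩) (.L ⟨[(0, 9525), (1, 8050), (2, 9100), (13, 28575), (23, 24150), (27, 27300), (39, 51450), (40, 51450), (81, 26859), (131, 6650), (144, 89600)], 672000, 0, 0, 0, 406700, []⟩)) (.L ⟨[(0, 75), (1, 350), (13, 225), (23, 1050), (39, 1050), (40, 1050), (81, 693), (144, 450)], 2250, 0, 0, 0, 0, []⟩))) (.L ⟨[(0, 7883), (1, 2856), (2, 2856), (13, 23649), (23, 8568), (27, 8568), (39, 17136), (40, 17136), (80, 17808), (144, 37128)], 0, 0, 0, 0, 85680, []⟩)))) (.L ⟨[(0, 975), (1, 4550), (13, 2925), (23, 13650), (39, 13650), (40, 13650), (81, 9009), (131, 4875), (144, 11250)], 58650, 0, 0, 0, 288000, []⟩))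 (.L ⟨[(0, 120), (1, 140), (2, 105), (13, 360), (23, 420), (27, 315), (39, 735), (40, 735), (42, 780), (81, 372), (144, 1190)], 8400, 0, 0, 0, 7945, []⟩))) (.L ⟨[(0, 25), (2, 100), (14, 75), (27, 300), (40, 300), (42, 75), (81, 9)], 3177, 0, 0, 0, 4320, []⟩)) (.L ⟨[(130, 1)], 0, 0, 0, 0, 60, []⟩))) (.L ⟨[(0, 75), (1, 350), (13, 225), (23, 1050), (39, 1050), (40, 1050), (81, 693), (144, 450)], 2250, 0, 0, 0, 0, []⟩)) (.L ⟨[(0, 25), (1, 700), (14, 75), (23, 2100), (40, 2100), (81, 1134)], 3000, 0, 0, 0, 0, []⟩))))) (.L ⟨[(0, 733), (11, 1224), (13, 975), (80, 1200), (144, 58500)], 0, 0, 0, 0, 0, []⟩)) (.N 1 (.N 5 (.N 4 (.N 5 (.L ⟨[(0, 42), (2, 49), (13, 126), (27, 147), (39, 147), (40, 147), (42, 120), (54, 12), (81, 54), (144, 360)], 2880, 0, 0, 0, 0, []⟩) (.N 3 (.N 0 (.L ⟨[(0, 1410), (2, 1645), (13, 4230), (27, 4935), (39, 4935), (40,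 4935), (81, 1974), (131, 1470)], 115200, 0, 0, 0, 92250, []⟩) (.N 4 (.L ⟨[(0, 270), (2, 315), (13, 810), (27, 945), (39, 945), (40, 945), (81, 378), (131, 290), (144, 2550)], 19200, 0, 0, 0, 17060, []⟩) (.L ⟨[], 0, 0, 0, 0, 1, []⟩))) (.N 5 (.N 4 (.N 3 (.N 3 (.N 4 (.L ⟨[(131, 1)], 0, 0, 0, 0, 0, []⟩) (.N 3 (.N 0 (.N 6 (.N 6 (.L ⟨[(0, 9525), (1, 8050), (2, 9100), (13, 28575), (23, 24150), (27, 27300), (39, 51450), (40, 51450), (81, 26859), (131, 6650), (144, 85050)], 672000, 0, 0, 0, 404250, []⟩) (.L ⟨[(0, 1275), (1, 1050), (2, 1225), (13, 3825), (23, 3150), (27, 3675), (39, 6825), (40, 6825), (81, 3549), (131, 875), (144, 10675)], 84000, 0, 0, 0, 50575, []⟩)) (.L ⟨[(0, 1125), (1, 1050), (2, 1050), (13, 3375), (23, 3150), (27, 3150), (39, 6300), (40, 6300), (81, 3339), (131, 700)], 84000, 0, 0, 0, 44800, []⟩)) (.N 6 (.L ⟨[(0, 375), (1,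 350), (2, 350), (13, 1125), (23, 1050), (27, 1050), (39, 2100), (40, 2100), (81, 1113), (131, 350), (144, 42000)], 0, 0, 0, 0, 22750, []⟩) (.L ⟨[(0, 1125), (1, 1050), (2, 1050), (13, 3375), (23, 3150), (27, 3150), (39, 6300), (40, 6300), (81, 3339), (131, 700), (144, 11900)], 84000, 0, 0, 0, 51450, []⟩))) (.L ⟨[(0, 75), (1, 350), (13, 225), (23, 1050), (39, 1050), (40, 1050), (81, 693), (144, 825)], 4500, 0, 0, 0, 0, []⟩))) (.L ⟨[(0, 25), (1, 350), (14, 75), (23, 1050), (39, 1050), (40, 1050), (81, 609), (144, 150)], 1500, 0, 0, 0, 0, []⟩)) (.L ⟨[(0, 25), (1, 700), (14, 75), (23, 2100), (40, 2100), (81, 1134), (144, 50)], 3000, 0, 0, 0, 0, []⟩)) (.L ⟨[(0, 525), (1, 650), (2, 450), (13, 1575), (23, 1950), (27, 1350), (39, 3300), (40, 3300), (42, 3525), (81, 1686), (144, 5025)], 36000, 0, 0, 0, 27975, []⟩)) (.L ⟨[(0, 75), (1, 350), (13,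 225), (23, 1050), (39, 1050), (40, 1050), (81, 693), (131, 300), (144, 825)], 4275, 0, 0, 0, 18000, []⟩)))) (.L ⟨[(0, 375), (1, 350), (2, 350), (13, 1125), (23, 1050), (27, 1050), (39, 2100), (40, 2100), (42, 2175), (81, 1026), (144, 2975)], 21000, 0, 0, 0, 18725, []⟩)) (.L ⟨[(0, 225), (1, 1050), (13, 675), (23, 3150), (39, 3150), (40, 3150), (81, 2079), (130, 1450), (144, 2550)], 13450, 0, 0, 0, 96000, []⟩)) (.L ⟨[(0, 47545), (1, 31416), (13, 142635), (21, 85680), (23, 8568), (39, 94248), (40, 94248), (80, 110208), (144, 342720)], 0, 0, 0, 0, 0, []⟩))) (.N 6 (.N 0 (.L ⟨[(0, 26), (11, 78), (81, 39)], 960, 0, 0, 0, 0, []⟩) (.N 6 (.N 0 (.N 1 (.N 0 (.N 1 (.N 0 (.N 3 (.N 4 (.N 5 (.N 5 (.L ⟨[(0, 30), (2, 35), (13, 90), (27, 105), (39, 105), (40, 105), (81, 42), (144, 294)], 2520, 0, 0, 0, 0, []⟩) (.L ⟨[(0, 210), (2, 245), (13, 630), (27,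 735), (39, 735), (40, 735), (81, 294), (131, 210), (144, 1800)], 14400, 0, 0, 0, 12960, []⟩)) (.L ⟨[(130, 1)], 0, 0, 0, 0, 30, []⟩)) (.L ⟨[], 0, 0, 0, 0, 1, []⟩)) (.L ⟨[(0, 75), (1, 350), (13, 225), (23, 1050), (39, 1050), (40, 1050), (48, 105), (81, 693), (144, 420)], 3150, 0, 0, 0, 0, []⟩)) (.L ⟨[(144, 1)], 0, 0, 0, 0, 0, []⟩)) (.L ⟨[(0, 65117), (1, 42840), (13, 195351), (21, 119952), (23, 8568), (39, 128520), (40, 128520), (80, 149856), (144, 514080)], 0, 0, 0, 0, 0, []⟩)) (.L ⟨[(144, 1)], 0, 0, 0, 0, 0, []⟩)) (.L ⟨[(0, 5537), (1, 3672), (13, 16611), (21, 9792), (23, 1224), (39, 11016), (40, 11016), (80, 12912), (144, 36720)], 0, 0, 0, 0, 0, []⟩)) (.L ⟨[(144, 1)], 0, 0, 0, 0, 0, []⟩)) (.L ⟨[(0, 93925), (1, 162400), (13, 281775), (21, 462000), (23, 25200), (39, 487200), (40, 487200), (48, 48720), (81, 289212), (144, 789600)], 6451200,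 0, 0, 0, 0, []⟩))) (.L ⟨[(0, 15375), (1, 26600), (13, 46125), (21, 75600), (23, 4200), (39, 79800), (40, 79800), (48, 7980), (81, 47376), (144, 100800)], 0, 0, 0, 0, 0, []⟩))) (.L ⟨[(0, 43541), (1, 28560), (13, 130623), (21, 81396), (23, 4284), (39, 85680), (40, 85680), (48, 8568), (80, 99708), (144, 257040)], 0, 0, 0, 0, 0, []⟩))) (.L ⟨[(130, 1)], 0, 0, 0, 0, 60, []⟩)) (.L ⟨[(0, 475), (1, 1450), (2, 1300), (14, 1425), (23, 4350), (27, 3900), (39, 8250), (40, 8250), (42, 5775), (47, 825), (81, 2604), (144, 1475)], 64000, 0, 0, 0, 192000, []⟩)) (.L ⟨[(1, 1400), (23, 3750), (25, 450), (40, 4200), (81, 2211)], 0, 0, 0, 0, 0, []⟩)) (.L ⟨[(0, 43541), (1, 28560), (13, 130623), (21, 81396), (23, 4284), (39, 85680), (40, 85680), (48, 8568), (80, 99708), (144, 257040)], 0, 0, 0, 0, 0, []⟩)) (.L ⟨[(0, 63625), (13, 190875), (92, 10500), (95, 4389),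 (144, 263340)], 0, 0, 0, 0, 0, []⟩))))))) (.L ⟨[(144, 1)], 0, 0, 0, 0, 0, []⟩)) (.N 1 (.N 1 (.L ⟨[], 1, 0, 0, 0, 0, []⟩) (.N 1 (.L ⟨[(0, 8250), (1, 52550), (14, 24750), (21, 149400), (23, 8250), (40, 157650), (48, 8250), (81, 53259)], 7920000, 0, 0, 0, 0, []⟩) (.N 6 (.N 6 (.N 0 (.N 6 (.L ⟨[(0, 49245), (1, 255560), (14, 147735), (21, 726480), (23, 40200), (39, 766680), (40, 766680), (48, 76668), (81, 289692), (144, 103515)], 7718400, 0, 0, 0, 0, []⟩) (.L ⟨[(0, 180), (1, 1000), (14, 540), (21, 2820), (23, 180), (39, 2015), (40, 3000), (48, 300), (81, 1099)], 28800, 0, 0, 0, 0, []⟩)) (.L ⟨[(144, 1)], 0, 0, 0, 0, 0, []⟩)) (.L ⟨[(0, 8250), (1, 52550), (14, 24750), (21, 149400), (23, 8250), (40, 157650), (48, 8250), (81, 53259)], 990000, 0, 0, 0, 0, []⟩)) (.L ⟨[(0, 8250), (1, 52550), (14, 24750), (21, 149400), (23, 8250), (40, 157650), (48,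 8250), (81, 53259)], 990000, 0, 0, 0, 0, []⟩)))) (.L ⟨[(0, 40200), (1, 196850), (13, 10050), (14, 110550), (21, 560400), (23, 30150), (39, 590550), (40, 590550), (48, 59055), (81, 226719)], 0, 0, 0, 0, 0, []⟩))) (.L ⟨[(144, 1)], 0, 0, 0, 0, 0, []⟩)) (.L ⟨[(1, 2711), (2, 3353), (21, 6729), (23, 1404), (32, 9357), (34, 702), (40, 18192), (42, 8133)], 0, 0, 0, 0, 0, []⟩)) (.L ⟨[(144, 1)], 0, 0, 0, 0, 0, []⟩)))

theorem ok_ray1_2m : tree_ray1_2m.check prm_ray1 ⟨-256, 256, -512, 512, -256, -256, -512, 512, -256, 256, -512, 512, 0, 43008⟩ = true := by decide +kernel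

def tree_ray1_2p : Tree := .N 6 (.N 6 (.L ⟨[(144, 1)], 0, 0, 0, 2, 0, []⟩) (.L ⟨[(144, 1)], 0, 0, 0, 0, 0, []⟩)) (.L ⟨[(0, 583), (1, 521), (9, 1515), (11, 234), (20, 1407), (22, 156), (39, 1563), (41, 3312), (144, 2340)], 0, 0, 0, 0, 0, []⟩)

theorem ok_ray1_2p : tree_ray1_2p.check prm_ray1 ⟨-256, 256, -512, 512, 256, 256, -512, 512, -256, 256, -512, 512, 0, 43008⟩ = true := by decide +kernel

def tree_ray1_3m : Tree := .N 6 (.N 6 (.L ⟨[], 0, 1, 0, 0, 0, []⟩) (.L ⟨[], 0, 1, 0, 0, 0, []⟩)) (.L ⟨[(0, 29), (1, 145), (11, 87), (15, 435), (39, 435), (63, 105), (144, 406)], 435, 6960, 0, 0, 0, []⟩)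

theorem ok_ray1_3m : tree_ray1_3m.check prm_ray1 ⟨-256, 256, -512, 512, -256, 256, -512, -512, -256, 256, -512, 512, 0, 43008⟩ = true := by decide +kernel

def tree_ray1_3p : Tree := .N 6 (.N 6 (.L ⟨[(144, 1)], 0, 0, 0, 0, 0, []⟩) (.L ⟨[(144, 1)], 0, 0, 0, 0, 0, []⟩)) (.L ⟨[(1, 125), (26, 375), (95, 84)], 0, 0, 0, 0, 0, []⟩)

theorem ok_ray1_3p : tree_ray1_3p.check prm_ray1 ⟨-256, 256, -512, 512, -256, 256, 512, 512, -256, 256, -512, 512, 0, 43008⟩ = true := by decide +kernel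

def tree_ray1_4m : Tree := .N 6 (.N 6 (.L ⟨[(144, 1)], 0, 0, 0, 0, 0, []⟩) (.L ⟨[(144, 1)], 0, 0, 0, 0, 0, []⟩)) (.N 2 (.N 1 (.L ⟨[(132, 1), (144, 14)], 120, 0, 0, 0, 0, []⟩) (.N 0 (.N 0 (.N 6 (.N 0 (.N 1 (.L ⟨[(0, 120), (2, 535), (14, 360), (27, 1605), (40, 450), (53, 36), (81, 18), (131, 1368), (144, 4608)], 276480, 0, 0, 0, 0, []⟩) (.N 3 (.L ⟨[(0, 1), (1, 4), (14, 3), (15, 12), (40, 12), (41, 12), (144, 6)], 120, 0, 0, 0, 0, []⟩) (.N 6 (.N 6 (.L ⟨[(144, 1)], 0, 0, 0, 0, 0, []⟩) (.N 6 (.L ⟨[(144, 1)], 0, 0, 0, 0, 0, []⟩) (.L ⟨[(0, 733), (11, 1224), (13, 975), (80, 1200), (144, 43980)], 0, 0, 0, 0, 0, []⟩))) (.N 6 (.N 1 (.N 0 (.N 5 (.L ⟨[(0, 30), (2, 140), (14, 90), (27, 420), (53, 9), (144, 117)], 4320, 0, 0, 0, 0, []⟩) (.N 5 (.N 2 (.N 6 (.N 0 (.N 6 (.N 6 (.L ⟨[(0, 733), (11, 1224), (13, 975), (80, 1200), (144, 58500)], 0, 0, 0, 0,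 0, []⟩) (.N 3 (.L ⟨[(144, 3)], 2, 0, 0, 30, 0, []⟩) (.N 6 (.L ⟨[(0, 14660), (11, 24480), (13, 19500), (54, 4398), (80, 24000), (130, 2199), (144, 1055520)], 0, 0, 0, 109950, 0, []⟩) (.L ⟨[(0, 20), (11, 60), (54, 6), (81, 30), (130, 3), (144, 720)], 0, 0, 0, 0, 0, []⟩)))) (.N 1 (.N 1 (.L ⟨[(144, 1)], 30, 0, 0, 0, 0, []⟩) (.N 3 (.L ⟨[(144, 1)], 1, 0, 0, 10, 0, []⟩) (.N 6 (.L ⟨[(0, 12600), (1, 4900), (11, 34650), (13, 3150), (23, 14700), (39, 14700), (40, 14700), (54, 5250), (81, 27027), (130, 2700), (144, 162900)], 576000, 0, 0, 374250, 0, []⟩) (.L ⟨[(0, 12600), (1, 4900), (11, 34650), (13, 3150), (23, 14700), (39, 14700), (40, 14700), (54, 5250), (81, 27027), (130, 2700), (144, 163050)], 576000, 0, 0, 372750, 0, []⟩)))) (.L ⟨[(0, 1466), (11, 2448), (13, 1950), (80, 2400), (144, 10995)], 0, 0, 0, 0, 0, []⟩))) (.L ⟨[(144, 1)], 0, 0, 0,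 0, 0, []⟩)) (.N 6 (.N 1 (.N 0 (.N 2 (.N 5 (.N 5 (.L ⟨[(0, 100), (2, 105), (11, 30), (13, 270), (27, 315), (39, 315), (40, 315), (42, 300), (54, 30), (81, 129), (144, 960)], 7200, 0, 0, 150, 0, []⟩) (.N 6 (.N 3 (.N 3 (.L ⟨[], 2, 0, 0, 15, 0, []⟩) (.L ⟨[(0, 1050), (1, 4900), (13, 3150), (23, 14700), (39, 14700), (40, 14700), (54, 1785), (81, 9702), (131, 1800), (144, 78150)], 194400, 0, 0, 576000, 0, []⟩)) (.L ⟨[(0, 1550), (1, 700), (11, 4200), (13, 450), (23, 2100), (39, 2100), (40, 2100), (54, 675), (81, 3486), (131, 675), (144, 19875)], 72000, 0, 0, 48150, 0, []⟩)) (.N 6 (.N 3 (.L ⟨[(0, 50), (11, 150), (54, 15), (81, 75), (131, 15), (144, 546)], 1440, 0, 0, 816, 0, []⟩) (.L ⟨[(0, 10), (11, 30), (54, 3), (81, 15), (131, 3), (144, 80)], 240, 0, 0, 0, 0, []⟩)) (.L ⟨[(0, 600), (2, 595), (11, 270), (13, 1530), (27, 1785), (39, 1785), (40,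 1785), (53, 180), (81, 849), (131, 1980), (144, 5850)], 43200, 0, 0, 0, 0, []⟩)))) (.L ⟨[(130, 1)], 0, 0, 0, 0, 0, []⟩)) (.L ⟨[(0, 50), (11, 150), (53, 15), (81, 75), (130, 6), (144, 477)], 1440, 0, 0, 315, 0, []⟩)) (.L ⟨[(144, 1)], 0, 0, 0, 0, 0, []⟩)) (.L ⟨[(0, 1466), (11, 2448), (13, 1950), (80, 2400), (144, 10995)], 0, 0, 0, 0, 0, []⟩)) (.L ⟨[(0, 11100), (2, 11095), (11, 4770), (13, 28530), (27, 33285), (39, 33285), (40, 33285), (53, 3330), (81, 15699), (131, 33390), (144, 100800)], 691200, 0, 0, 0, 0, []⟩))) (.L ⟨[(0, 1056260), (1, 539750), (11, 3168780), (26, 1619250), (39, 1619250), (53, 478803), (92, 243000), (95, 121500), (130, 121500), (144, 23206500)], 99265500, 0, 0, 233280000, 0, []⟩)) (.L ⟨[(130, 1)], 0, 0, 0, 0, 0, []⟩))) (.L ⟨[(144, 1)], 0, 0, 0, 0, 0, []⟩)) (.L ⟨[(0, 48553), (11, 52584), (13, 93075), (93, 8400), (144,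 252000)], 0, 0, 0, 0, 0, []⟩)) (.L ⟨[(0, 30), (2, 115), (14, 90), (27, 345), (39, 345), (40, 105), (53, 9), (81, 18), (131, 328), (144, 180)], 3840, 0, 0, 0, 0, []⟩))))) (.L ⟨[(144, 1)], 0, 0, 0, 0, 0, []⟩)) (.L ⟨[(0, 90), (2, 392), (12, 27), (14, 243), (27, 1176), (40, 252), (53, 27), (131, 1026), (144, 351)], 12960, 0, 0, 0, 0, []⟩)) (.L ⟨[(144, 1)], 0, 0, 0, 0, 0, []⟩)) (.L ⟨[(144, 1)], 0, 0, 0, 0, 0, []⟩))) (.L ⟨[(0, 14805), (1, 362885), (2, 300005), (14, 44415), (20, 1088655), (33, 806955), (35, 93060), (39, 1988670), (41, 1133070), (53, 113307), (95, 2115), (144, 486450)], 0, 0, 0, 0, 0, []⟩))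

theorem ok_ray1_4m : tree_ray1_4m.check prm_ray1 ⟨-256, 256, -512, 512, -256, 256, -512, 512, -256, -256, -512, 512, 0, 43008⟩ = true := by decide +kernel

def tree_ray1_4p : Tree := .N 6 (.N 6 (.L ⟨[(144, 1)], 0, 0, 0, 0, 0, []⟩) (.L ⟨[(144, 1)], 0, 0, 0, 0, 0, []⟩)) (.L ⟨[(0, 14381), (2, 17069), (9, 30267), (11, 12876), (32, 47655), (34, 3552), (39, 51207), (42, 43143), (95, 444), (144, 106560)], 0, 0, 0, 0, 0, []⟩)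

theorem ok_ray1_4p : tree_ray1_4p.check prm_ray1 ⟨-256, 256, -512, 512, -256, 256, -512, 512, 256, 256, -512, 512, 0, 43008⟩ = true := by decide +kernel

def tree_ray1_5m : Tree := .N 6 (.N 6 (.L ⟨[(144, 1)], 0, 0, 0, 0, 0, []⟩) (.L ⟨[(144, 1)], 0, 0, 0, 0, 0, []⟩)) (.L ⟨[(0, 3600), (2, 14861), (13, 6768), (14, 4032), (27, 44583), (39, 44583), (40, 10713), (41, 2304), (42, 9288), (54, 1080), (62, 5256), (144, 92016)], 552960, 0, 0, 0, 0, []⟩)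

theorem ok_ray1_5m : tree_ray1_5m.check prm_ray1 ⟨-256, 256, -512, 512, -256, 256, -512, 512, -256, 256, -512, -512, 0, 43008⟩ = true := by decide +kernel

def tree_ray1_5p : Tree := .N 6 (.N 6 (.L ⟨[(144, 1)], 0, 0, 0, 0, 0, []⟩) (.L ⟨[(144, 1)], 0, 0, 0, 0, 0, []⟩)) (.L ⟨[(2, 125), (38, 375), (95, 84)], 0, 0, 0, 0, 0, []⟩)

theorem ok_ray1_5p : tree_ray1_5p.check prm_ray1 ⟨-256, 256, -512, 512, -256, 256, -512, 512, -256, 256, 512, 512, 0, 43008⟩ = true := by decide +kernel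

end Pool.Agent.H78.P6
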