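import Pool.Agent.H78.P6.Rows

/-! certificate ray2 (generated) -/

set_option autoImplicit false
set_option maxRecDepth 100000

namespace Pool.Agent.H78.P6

open Pool.Agent.H30.P6

def prm_ray2 : Prm := ⟨32, 512, rowsR ++ [⟨0, 0, 0, -9, 4, 0, 0, 0, 0, 0, 0, 0, 0, 0, 0, 0, 0, 0, 0, 0, 8⟩], []⟩

def tree_ray2_0m : Tree := .N 6 (.N 6 (.L ⟨[(144, 7)], 30, 0, 0, 30, 0, []⟩) (.L ⟨[(0, 25), (1, 51), (11, 75), (18, 129), (20, 24), (41, 228), (144, 888)], 2880, 336, 0, 672, 0, []⟩)) (.L ⟨[(0, 240), (1, 494), (11, 720), (16, 180), (18, 1302), (39, 327), (41, 2202), (62, 60), (144, 4920)], 14400, 0, 0, 0, 0, []⟩)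

theorem ok_ray2_0m : tree_ray2_0m.check prm_ray2 ⟨-32, -32, -64, 64, -32, 32, -64, 64, -32, 32, -64, 64, 0, 672⟩ = true := by decide +kernel

def tree_ray2_0p : Tree := .N 6 (.N 6 (.L ⟨[(144, 1)], 0, 2, 0, 0, 0, []⟩) (.N 3 (.L ⟨[(144, 1)], 0, 3, 0, 0, 0, []⟩) (.L ⟨[(144, 1)], 0, 0, 0, 0, 0, []⟩))) (.N 2 (.L ⟨[(144, 1)], 0, 2, 0, 0, 0, []⟩) (.N 4 (.L ⟨[(0, 50), (2, 50), (8, 138), (10, 12), (33, 138), (35, 12), (40, 150), (41, 150), (46, 15), (53, 15)], 0, 0, 0, 0, 0, []⟩) (.N 5 (.N 4 (.L ⟨[(0, 50), (2, 50), (8, 138), (10, 12), (33, 138), (35, 12), (40, 150), (41, 150), (46, 15), (53, 15)], 0, 0, 3600, 0, 0, []⟩) (.L ⟨[], 0, 0, 1, 0, 0, []⟩)) (.N 6 (.N 2 (.L ⟨[(0, 74278), (1, 129967), (2, 64733), (8, 187788), (10, 35046), (15, 389901), (37, 194199), (40, 584100), (41, 612735), (47, 58410), (144, 5525586)], 0, 5607360, 5490540, 0, 0, []⟩) (.N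 6 (.N 5 (.N 6 (.L ⟨[(1, 19670), (2, 6970), (15, 5460), (16, 53550), (35, 2100), (37, 18810), (41, 59010), (51, 5901), (144, 267540)], 0, 0, 806400, 0, 0, []⟩) (.N 4 (.L ⟨[(1, 7840), (2, 2927), (16, 20790), (18, 2730), (35, 2646), (37, 6135), (41, 23520), (51, 2352), (144, 96726)], 0, 0, 282240, 0, 0, []⟩) (.L ⟨[(1, 700), (2, 200), (15, 2100), (37, 225), (38, 375), (41, 2100), (51, 210), (144, 13818)], 0, 0, 40320, 0, 0, []⟩))) (.L ⟨[(1, 60), (2, 15), (15, 180), (38, 45), (40, 180), (41, 180), (51, 18), (144, 1200)], 0, 0, 595, 0, 0, []⟩)) (.N 5 (.N 2 (.L ⟨[(0, 487700), (1, 1109050), (2, 489830), (8, 1079880), (10, 383220), (15, 3327150), (37, 1341750), (38, 127740), (40, 4796640), (41, 4790250), (46, 479664), (51, 479025), (144, 21619995)], 0, 0, 61315200, 0, 0, []⟩) (.N 4 (.N 6 (.L ⟨[(1, 235690), (2, 86600), (16, 688590), (18, 18480), (35,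 61740), (37, 198060), (41, 707070), (51, 70707), (144, 3032400)], 0, 0, 8601600, 0, 0, []⟩) (.L ⟨[(0, 89965), (1, 18105), (2, 38845), (4, 199290), (6, 70605), (15, 54315), (35, 19635), (37, 96900), (41, 324210), (46, 17085), (51, 32421), (97, 165240), (144, 346800)], 0, 0, 3916800, 0, 0, []⟩)) (.N 6 (.L ⟨[(1, 5040), (2, 1565), (15, 9870), (16, 5250), (37, 3120), (38, 1575), (41, 15120), (51, 1512), (144, 85302)], 0, 0, 241920, 0, 0, []⟩) (.N 5 (.L ⟨[], 0, 0, 1, 0, 0, []⟩) (.L ⟨[(0, 648340), (1, 133000), (2, 228200), (3, 1736700), (4, 208320), (15, 399000), (37, 310665), (38, 373935), (41, 2344020), (46, 108360), (51, 234402), (97, 1816640), (144, 2614080)], 0, 0, 34406400, 0, 0, []⟩))))) (.N 6 (.L ⟨[(1, 92), (2, 23), (15, 276), (38, 69), (40, 276), (41, 276), (144, 1920)], 0, 0, 0, 0, 0, []⟩) (.L ⟨[(0, 20), (2, 5), (3, 60), (38, 15), (40,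 10), (41, 60), (73, 2), (97, 55), (144, 34)], 0, 0, 0, 0, 0, []⟩))))) (.L ⟨[(0, 20810), (2, 6670), (3, 22005), (4, 40425), (37, 16095), (38, 3915), (40, 20010), (41, 62430), (46, 2001), (51, 1740), (97, 46632), (144, 28101)], 0, 0, 668160, 0, 0, []⟩)))))

theorem ok_ray2_0p : tree_ray2_0p.check prm_ray2 ⟨32, 32, -64, 64, -32, 32, -64, 64, -32, 32, -64, 64, 0, 672⟩ = true := by decide +kernel

def tree_ray2_1m : Tree := .N 6 (.N 6 (.L ⟨[(144, 1)], 0, 2, 0, 0, 0, []⟩) (.N 3 (.L ⟨[(144, 1)], 0, 3, 0, 0, 0, []⟩) (.L ⟨[(144, 1)], 0, 0, 0, 0, 0, []⟩))) (.N 2 (.L ⟨[(144, 1)], 0, 2, 0, 0, 0, []⟩) (.N 3 (.N 3 (.L ⟨[(0, 13575), (1, 4119), (3, 40725), (22, 12357), (41, 53082), (67, 1373), (68, 9228)], 0, 1318080, 0, 0, 0, []⟩) (.L ⟨[(0, 1281), (1, 272), (2, 48), (3, 3843), (24, 456), (26, 360), (38, 144), (39, 840), (44, 96), (53, 408), (68, 168)], 0,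 46080, 8352, 0, 0, []⟩)) (.L ⟨[(0, 14), (1, 3), (3, 42), (26, 9)], 0, 0, 0, 0, 0, []⟩)))

theorem ok_ray2_1m : tree_ray2_1m.check prm_ray2 ⟨-32, 32, -64, -64, -32, 32, -64, 64, -32, 32, -64, 64, 0, 672⟩ = true := by decide +kernel

def tree_ray2_1p : Tree := .N 6 (.N 6 (.L ⟨[(144, 1)], 0, 2, 0, 0, 0, []⟩) (.L ⟨[(0, 1), (1, 4), (14, 3), (15, 12), (40, 12), (41, 12), (144, 181)], 0, 240, 0, 0, 0, []⟩)) (.L ⟨[(0, 250000), (1, 4500), (14, 750000), (15, 13500), (41, 763500), (85, 4500), (95, 157017), (144, 360000)], 0, 0, 0, 0, 0, []⟩)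

theorem ok_ray2_1p : tree_ray2_1p.check prm_ray2 ⟨-32, 32, 64, 64, -32, 32, -64, 64, -32, 32, -64, 64, 0, 672⟩ = true := by decide +kernel

def tree_ray2_2m : Tree := .N 6 (.N 6 (.L ⟨[(144, 1)], 0, 2, 0, 0, 0, []⟩) (.L ⟨[(144, 1)], 0, 2, 0, 0, 0, []⟩)) (.L ⟨[(144, 1)], 0, 0, 0, 0, 0, []⟩)

theorem ok_ray2_2m : tree_ray2_2m.check prm_ray2 ⟨-32, 32, -64, 64, -32, -32, -64, 64, -32, 32, -64, 64, 0, 672⟩ = true := by decide +kernel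

def tree_ray2_2p : Tree := .N 6 (.N 6 (.L ⟨[(144, 1)], 0, 2, 0, 0, 0, []⟩) (.N 3 (.L ⟨[(144, 1)], 0, 3, 0, 0, 0, []⟩) (.L ⟨[(144, 1)], 0, 0, 0, 0, 0, []⟩))) (.N 0 (.L ⟨[(0, 3353), (1, 2711), (9, 9357), (11, 702), (20, 6729), (22, 1404), (39, 8133), (41, 18192)], 0, 0, 0, 0, 0, []⟩) (.N 4 (.L ⟨[(1, 50), (2, 54), (20, 150), (33, 150), (35, 12), (41, 150), (53, 15)], 0, 0, 0, 0, 0, []⟩) (.N 5 (.N 4 (.L ⟨[(1, 50), (2, 54), (20, 150), (33, 150), (35, 12), (41, 150), (53, 15)], 0, 0, 3600, 0, 0, []⟩) (.L ⟨[], 0, 0, 1, 0, 0, []⟩)) (.N 6 (.N 6 (.N 5 (.N 6 (.L ⟨[(1, 19670), (2, 6970), (15, 5460), (16, 53550), (35, 2100), (37, 18810), (41, 59010), (51, 5901), (144, 267540)], 0, 0, 806400, 0, 0, []⟩) (.N 4 (.L ⟨[(1, 7840), (2, 2927), (16, 20790), (18, 2730), (35, 2646), (37, 6135), (41, 23520), (51, 2352), (144, 96726)], 0, 0, 282240, 0, 0, []⟩) (.L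 ⟨[(1, 700), (2, 200), (15, 2100), (37, 225), (38, 375), (41, 2100), (51, 210), (144, 13818)], 0, 0, 40320, 0, 0, []⟩))) (.L ⟨[(1, 60), (2, 15), (15, 180), (38, 45), (40, 180), (41, 180), (51, 18), (144, 1200)], 0, 0, 595, 0, 0, []⟩)) (.N 5 (.N 4 (.N 6 (.L ⟨[(1, 235690), (2, 86600), (16, 688590), (18, 18480), (35, 61740), (37, 198060), (41, 707070), (51, 70707), (144, 3032400)], 0, 0, 8601600, 0, 0, []⟩) (.N 6 (.L ⟨[(1, 36050), (2, 13184), (16, 108150), (35, 8652), (37, 30900), (41, 108150), (51, 10815), (144, 468048)], 0, 0, 1290240, 0, 0, []⟩) (.L ⟨[(1, 54570), (2, 24610), (18, 138030), (20, 25680), (35, 73830), (41, 163710), (51, 16371), (144, 432378)], 0, 0, 1175040, 0, 0, []⟩))) (.N 6 (.L ⟨[(1, 5040), (2, 1565), (15, 9870), (16, 5250), (37, 3120), (38, 1575), (41, 15120), (51, 1512), (144, 85302)], 0, 0, 241920, 0, 0, []⟩) (.N 4 (.N 5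 (.L ⟨[], 0, 0, 1, 0, 0, []⟩) (.N 6 (.L ⟨[(1, 15820), (2, 4872), (15, 32676), (16, 14784), (37, 9309), (38, 5307), (41, 47460), (51, 4746), (144, 270438)], 0, 0, 645120, 0, 0, []⟩) (.N 5 (.L ⟨[], 0, 0, 1, 0, 0, []⟩) (.N 3 (.L ⟨[(1, 420), (2, 131), (15, 798), (16, 462), (37, 267), (38, 126), (41, 1260), (51, 126)], 0, 0, 15120, 0, 0, []⟩) (.N 1 (.L ⟨[(0, 140), (2, 40), (3, 420), (37, 45), (38, 75), (41, 420), (51, 42), (144, 126)], 0, 0, 5040, 0, 0, []⟩) (.N 0 (.L ⟨[(0, 1680), (1, 17590), (2, 3920), (11, 5040), (15, 8985), (16, 43785), (37, 5040), (38, 6720), (39, 64530), (41, 57810), (51, 5781), (144, 245280)], 0, 0, 537600, 0, 0, []⟩) (.N 3 (.N 1 (.N 1 (.N 3 (.N 3 (.L ⟨[(0, 7280), (1, 560), (2, 2335), (3, 21840), (20, 1680), (37, 3810), (38, 3195), (41, 23520), (51, 2352), (97, 5936), (144, 102592)], 0, 0, 308896, 430080, 0, []⟩) (.L ⟨[(144,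 1)], 0, 0, 0, 0, 0, []⟩)) (.L ⟨[(144, 1)], 0, 0, 0, 0, 0, []⟩)) (.L ⟨[(98, 1), (144, 11)], 0, 0, 0, 60, 0, []⟩)) (.L ⟨[(98, 1), (144, 1)], 0, 0, 0, 60, 0, []⟩)) (.L ⟨[(144, 1)], 0, 0, 0, 0, 0, []⟩)))))))) (.L ⟨[(1, 300), (2, 75), (15, 900), (38, 225), (41, 900), (51, 90), (73, 36), (144, 5724)], 0, 0, 20480, 0, 0, []⟩)))) (.N 6 (.L ⟨[(1, 92), (2, 23), (15, 276), (38, 69), (40, 276), (41, 276), (144, 1920)], 0, 0, 0, 0, 0, []⟩) (.N 6 (.L ⟨[(1, 100), (2, 25), (15, 300), (38, 75), (41, 300), (73, 12), (144, 1920)], 0, 0, 0, 0, 0, []⟩) (.L ⟨[(1, 175), (2, 50), (15, 525), (38, 150), (41, 525), (42, 525), (51, 49), (73, 42), (144, 3360)], 0, 0, 0, 0, 0, []⟩))))) (.N 5 (.N 4 (.L ⟨[(1, 6000), (2, 2114), (20, 17100), (22, 900), (35, 6342), (41, 18000), (51, 1800), (73, 2901)], 0, 0, 96000, 0, 0, []⟩) (.N 5 (.L ⟨[], 0, 0, 1, 0, 0, []⟩) (.N 5 (.L ⟨[(1,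 52550), (2, 8250), (20, 149400), (22, 8250), (38, 24750), (41, 157650), (51, 8250), (73, 53259)], 0, 0, 7920000, 0, 0, []⟩) (.N 1 (.L ⟨[(0, 81340), (1, 2520), (2, 21545), (3, 244020), (22, 7560), (37, 10080), (38, 54555), (41, 251580), (51, 25158), (73, 10080)], 0, 0, 2419200, 0, 0, []⟩) (.N 3 (.L ⟨[(1, 2060), (2, 535), (15, 6180), (37, 180), (38, 1425), (41, 6180), (50, 618), (73, 180)], 0, 0, 43200, 0, 0, []⟩) (.N 3 (.N 1 (.N 0 (.L ⟨[(1, 700), (2, 25), (22, 2100), (38, 75), (39, 2175), (41, 2100), (52, 50), (73, 1047)], 0, 0, 4050, 48000, 0, []⟩) (.N 3 (.N 1 (.N 3 (.L ⟨[(0, 5420), (2, 1495), (3, 16260), (37, 1260), (38, 3225), (41, 16260), (51, 1626), (73, 180), (97, 4680)], 0, 0, 246420, 345600, 0, []⟩) (.N 1 (.N 0 (.L ⟨[(1, 700), (2, 25), (22, 2100), (38, 75), (41, 2100), (51, 25), (73, 1134)], 0, 0, 2175, 384000, 0, []⟩) (.N 4 (.N 0 (.L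 ⟨[(0, 3650), (1, 3850), (2, 1125), (3, 10950), (22, 11550), (37, 675), (38, 2700), (39, 14925), (41, 22500), (51, 2250), (73, 5826)], 0, 0, 160650, 216000, 0, []⟩) (.L ⟨[(0, 226450), (1, 183050), (2, 70200), (3, 679350), (22, 549150), (37, 63450), (38, 147150), (41, 1228500), (51, 122850), (73, 300027), (97, 164700)], 0, 0, 10368000, 9747000, 0, []⟩)) (.L ⟨[(0, 650), (1, 600), (2, 225), (3, 1950), (22, 1800), (38, 675), (41, 3750), (42, 3450), (51, 375), (73, 1188), (97, 450)], 0, 0, 36000, 30600, 0, []⟩))) (.L ⟨[(1, 4000), (2, 225), (22, 12000), (38, 675), (41, 12000), (42, 6900), (51, 1200), (73, 6756), (97, 3900)], 0, 0, 31875, 288000, 0, []⟩))) (.L ⟨[(98, 1)], 0, 0, 0, 60, 0, []⟩)) (.L ⟨[(1, 1250), (2, 75), (22, 3750), (38, 225), (41, 3750), (42, 2550), (51, 375), (73, 2127)], 0, 0, 9000, 0, 0, []⟩))) (.L ⟨[(98, 1)], 0, 0, 0, 120, 0, []⟩))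 (.L ⟨[(144, 1)], 0, 0, 0, 0, 0, []⟩))))))) (.L ⟨[(1, 196850), (2, 40200), (20, 560400), (22, 30150), (36, 10050), (38, 110550), (41, 590550), (42, 590550), (51, 59055), (73, 226719)], 0, 0, 0, 0, 0, []⟩))))))

theorem ok_ray2_2p : tree_ray2_2p.check prm_ray2 ⟨-32, 32, -64, 64, 32, 32, -64, 64, -32, 32, -64, 64, 0, 672⟩ = true := by decide +kernel

def tree_ray2_3m : Tree := .N 6 (.N 6 (.L ⟨[], 0, 1, 0, 0, 0, []⟩) (.L ⟨[], 0, 1, 0, 0, 0, []⟩)) (.L ⟨[(1, 25), (15, 75), (40, 75), (41, 75), (65, 21)], 0, 1440, 0, 0, 0, []⟩)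

theorem ok_ray2_3m : tree_ray2_3m.check prm_ray2 ⟨-32, 32, -64, 64, -32, 32, -64, -64, -32, 32, -64, 64, 0, 672⟩ = true := by decide +kernel

def tree_ray2_3p : Tree := .N 6 (.N 6 (.L ⟨[(144, 1)], 0, 0, 0, 0, 0, []⟩) (.L ⟨[(144, 1)], 0, 0, 0, 0, 0, []⟩)) (.L ⟨[(144, 1)], 0, 0, 0, 0, 0, []⟩)

theorem ok_ray2_3p : tree_ray2_3p.check prm_ray2 ⟨-32, 32, -64, 64, -32, 32, 64, 64, -32, 32, -64, 64, 0, 672⟩ = true := by decide +kernel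

def tree_ray2_4m : Tree := .N 6 (.N 6 (.L ⟨[(144, 1)], 0, 2, 0, 0, 0, []⟩) (.L ⟨[(1, 50), (2, 54), (20, 150), (33, 150), (35, 12), (41, 150), (53, 15), (144, 3600)], 0, 7200, 0, 0, 0, []⟩)) (.L ⟨[(1, 50), (2, 54), (20, 150), (33, 150), (35, 12), (41, 150), (52, 15), (144, 915)], 0, 1800, 0, 0, 0, []⟩)

theorem ok_ray2_4m : tree_ray2_4m.check prm_ray2 ⟨-32, 32, -64, 64, -32, 32, -64, 64, -32, -32, -64, 64, 0, 672⟩ = true := by decide +kernel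

def tree_ray2_4p : Tree := .N 6 (.N 6 (.L ⟨[(144, 1)], 0, 2, 0, 0, 0, []⟩) (.L ⟨[(1, 4), (2, 1), (15, 12), (38, 3), (40, 12), (41, 12), (144, 80)], 0, 0, 320, 0, 0, []⟩)) (.N 5 (.L ⟨[], 0, 0, 1, 0, 0, []⟩) (.N 6 (.N 5 (.L ⟨[], 0, 0, 1, 0, 0, []⟩) (.N 6 (.L ⟨[(1, 12), (2, 3), (15, 36), (38, 9), (40, 36), (41, 36), (144, 250)], 0, 0, 480, 0, 0, []⟩) (.L ⟨[(1, 3395), (2, 1770), (15, 10185), (36, 3600), (38, 1710), (40, 15495), (41, 10185), (42, 10185), (73, 1539), (144, 73017)], 0, 0, 164160, 0, 0, []⟩))) (.L ⟨[(2, 2), (34, 6), (73, 3)], 0, 0, 80, 0, 0, []⟩)))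

theorem ok_ray2_4p : tree_ray2_4p.check prm_ray2 ⟨-32, 32, -64, 64, -32, 32, -64, 64, 32, 32, -64, 64, 0, 672⟩ = true := by decide +kernel

def tree_ray2_5m : Tree := .N 6 (.N 6 (.L ⟨[(144, 1)], 0, 2, 0, 0, 0, []⟩) (.N 3 (.L ⟨[(1, 1230), (2, 3500), (22, 2940), (24, 750), (31, 10500), (53, 369), (144, 130257)], 0, 472320, 87699, 0, 0, []⟩) (.L ⟨[(144, 1)], 0, 0, 0, 0, 0, []⟩))) (.N 2 (.L ⟨[(144, 1)], 0, 2, 0, 0, 0, []⟩) (.N 3 (.N 3 (.L ⟨[(1, 1220), (2, 2089), (20, 2562), (22, 1098), (27, 6267), (41, 3660), (42, 3660), (53, 366), (68, 1938)], 0, 234240, 0, 0, 0, []⟩) (.L ⟨[(1, 280), (2, 1190), (24, 225), (26, 615), (27, 3570), (53, 84), (69, 84)], 0, 40320, 1428, 0, 0, []⟩)) (.L ⟨[(1, 3), (2, 14), (26, 9), (27, 42)], 0, 0, 0, 0, 0, []⟩)))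

theorem ok_ray2_5m : tree_ray2_5m.check prm_ray2 ⟨-32, 32, -64, 64, -32, 32, -64, 64, -32, 32, -64, -64, 0, 672⟩ = true := by decide +kernel

def tree_ray2_5p : Tree := .N 6 (.N 6 (.L ⟨[(144, 1)], 0, 2, 0, 0, 0, []⟩) (.L ⟨[(1, 4), (2, 1), (15, 12), (38, 3), (40, 12), (41, 12), (144, 181)], 0, 240, 0, 0, 0, []⟩)) (.L ⟨[(1, 57008), (2, 15661), (15, 171024), (38, 46983), (41, 171024), (85, 1008), (144, 1105920)], 0, 0, 0, 0, 0, []⟩)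

theorem ok_ray2_5p : tree_ray2_5p.check prm_ray2 ⟨-32, 32, -64, 64, -32, 32, -64, 64, -32, 32, 64, 64, 0, 672⟩ = true := by decide +kernel

end Pool.Agent.H78.P6
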