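import Pool.Agent.H78.P6.Rows

/-! certificate up1 (generated) -/

set_option autoImplicit false
set_option maxRecDepth 100000

namespace Pool.Agent.H78.P6

open Pool.Agent.H30.P6

def prm_up1 : Prm := ⟨32, 256, rowsR ++ [⟨0, 0, 1, 0, 0, 0, 0, 0, 0, 0, 0, 0, 0, 0, 0, 0, 0, 0, 0, 0, 1⟩], []⟩

def tree_up1_0m : Tree := .N 6 (.N 6 (.L ⟨[(144, 1)], 1, 0, 0, 0, 0, []⟩) (.L ⟨[(144, 1)], 1, 0, 0, 0, 0, []⟩)) (.N 1 (.L ⟨[], 1, 0, 0, 0, 0, []⟩) (.L ⟨[(144, 30)], 13, 0, 0, 0, 0, []⟩))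

theorem ok_up1_0m : tree_up1_0m.check prm_up1 ⟨-32, -32, -64, 64, -32, 32, -64, 64, -32, 32, -64, 64, 0, 336⟩ = true := by decide +kernel

def tree_up1_0p : Tree := .N 6 (.N 6 (.L ⟨[(144, 1)], 0, 0, 0, 0, 0, []⟩) (.N 6 (.L ⟨[(144, 1)], 0, 0, 0, 0, 0, []⟩) (.N 2 (.L ⟨[(46, 5), (57, 2), (144, 96)], 0, 48, 0, 0, 0, []⟩) (.N 1 (.N 1 (.N 1 (.N 3 (.N 3 (.L ⟨[], 0, 1, 0, 0, 0, []⟩) (.N 6 (.N 5 (.N 4 (.L ⟨[(0, 4590), (1, 480), (2, 920), (3, 1080), (4, 12690), (26, 1440), (35, 2760), (41, 660), (45, 420), (53, 1521), (144, 230400)], 0, 108540, 78900, 0, 0, []⟩) (.L ⟨[(0, 245), (2, 70), (4, 735), (37, 210), (46, 21), (53, 30), (144, 12720)], 0, 582, 23040, 0, 0, []⟩)) (.L ⟨[(0, 140), (2, 30), (3, 420), (38, 90), (45, 9), (53, 9), (144, 8640)], 0, 216, 180, 0, 0, []⟩)) (.N 5 (.N 4 (.L ⟨[(0, 14494), (1, 1536), (2, 4224), (4, 43482),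 (26, 4608), (33, 3648), (35, 9024), (41, 22992), (45, 1728), (53, 4809), (144, 737280)], 0, 360192, 282624, 0, 0, []⟩) (.L ⟨[(0, 35), (2, 10), (4, 105), (37, 30), (46, 3), (53, 6)], 0, 123, 5760, 0, 0, []⟩)) (.L ⟨[(0, 140), (2, 30), (3, 420), (38, 90), (45, 9), (53, 9), (144, 8640)], 0, 225, 198, 0, 0, []⟩)))) (.N 6 (.L ⟨[(0, 980), (1, 201), (2, 9), (3, 2940), (26, 603), (38, 27), (45, 63), (53, 54), (144, 69120)], 0, 0, 1044, 0, 0, []⟩) (.L ⟨[(0, 140), (1, 30), (3, 420), (26, 90), (45, 9), (53, 9), (144, 8640)], 0, 0, 135, 0, 0, []⟩))) (.L ⟨[(144, 1)], 0, 0, 0, 0, 0, []⟩)) (.L ⟨[(144, 1)], 0, 0, 0, 0, 0, []⟩)) (.L ⟨[(144, 1)], 0, 0, 0, 0, 0, []⟩))))) (.N 4 (.L ⟨[(0, 50), (2, 50), (8, 138), (10, 12), (33, 138), (35, 12), (40, 150), (41, 150), (46, 15), (53, 15)], 0, 0, 0, 0, 0, []⟩) (.N 2 (.L ⟨[(0, 54), (1, 50), (8,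 150), (10, 12), (21, 150), (40, 150), (46, 15)], 0, 0, 0, 0, 0, []⟩) (.N 1 (.N 5 (.N 4 (.L ⟨[(0, 3077), (1, 153), (2, 2057), (6, 2350), (8, 6881), (15, 459), (33, 3825), (35, 2346), (40, 6630), (41, 4262), (46, 663), (53, 969), (144, 39423)], 0, 0, 195840, 0, 0, []⟩) (.L ⟨[], 0, 0, 1, 0, 0, []⟩)) (.N 6 (.L ⟨[(0, 468), (2, 140), (4, 1170), (6, 234), (35, 24), (37, 396), (40, 420), (41, 321), (46, 42), (52, 48), (144, 23040)], 0, 0, 13908, 0, 0, []⟩) (.L ⟨[(0, 2515), (2, 720), (3, 2028), (4, 5517), (37, 1800), (38, 360), (41, 2088), (46, 216), (144, 138240)], 0, 0, 61776, 0, 0, []⟩))) (.L ⟨[(144, 1)], 0, 0, 0, 0, 0, []⟩))))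

theorem ok_up1_0p : tree_up1_0p.check prm_up1 ⟨32, 32, -64, 64, -32, 32, -64, 64, -32, 32, -64, 64, 0, 336⟩ = true := by decide +kernel

def tree_up1_1m : Tree := .N 6 (.N 6 (.L ⟨[(144, 1)], 0, 0, 0, 0, 0, []⟩) (.N 6 (.L ⟨[(144, 1)], 0, 0, 0, 0, 0, []⟩) (.N 3 (.N 2 (.L ⟨[(0, 490), (1, 105), (3, 1470), (26, 315), (46, 369), (57, 135)], 7080, 28800, 0, 0, 0, []⟩) (.L ⟨[(0, 4025), (1, 735), (2, 315), (3, 12075), (26, 2205), (37, 675), (38, 270), (39, 3150), (41, 9450), (45, 315), (53, 1428)], 0, 172800, 41670, 0, 0, []⟩)) (.L ⟨[(0, 1820), (1, 420), (3, 5460), (24, 135), (26, 1125), (39, 1260), (44, 126)], 0, 0, 0, 0, 0, []⟩)))) (.N 3 (.N 3 (.N 2 (.L ⟨[(0, 2089), (1, 1220), (3, 6267), (21, 2562), (23, 1098), (39, 3660), (40, 3660), (46, 366), (62, 1938)], 0, 234240, 0, 0, 0, []⟩) (.L ⟨[(0, 13575), (1, 4119), (3, 40725),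 (22, 12357), (41, 53082), (67, 1373), (68, 9228)], 0, 1318080, 0, 0, 0, []⟩)) (.L ⟨[(0, 137), (1, 30), (3, 411), (26, 90), (39, 54), (41, 54), (44, 9)], 0, 4320, 0, 0, 0, []⟩)) (.L ⟨[(0, 14), (1, 3), (3, 42), (26, 9)], 0, 0, 0, 0, 0, []⟩))

theorem ok_up1_1m : tree_up1_1m.check prm_up1 ⟨-32, 32, -64, -64, -32, 32, -64, 64, -32, 32, -64, 64, 0, 336⟩ = true := by decide +kernel

def tree_up1_1p : Tree := .N 6 (.N 6 (.L ⟨[(144, 1)], 0, 0, 0, 0, 0, []⟩) (.L ⟨[(144, 1)], 0, 0, 0, 0, 0, []⟩)) (.L ⟨[(144, 1)], 0, 0, 0, 0, 0, []⟩)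

theorem ok_up1_1p : tree_up1_1p.check prm_up1 ⟨-32, 32, 64, 64, -32, 32, -64, 64, -32, 32, -64, 64, 0, 336⟩ = true := by decide +kernel

def tree_up1_2m : Tree := .N 6 (.N 6 (.L ⟨[(144, 1)], 0, 0, 0, 0, 0, []⟩) (.N 6 (.L ⟨[(144, 1)], 0, 0, 0, 0, 0, []⟩) (.N 0 (.L ⟨[(144, 1)], 1, 0, 0, 0, 0, []⟩) (.L ⟨[(46, 55), (57, 22), (144, 1920)], 854, 532, 0, 0, 0, []⟩)))) (.N 1 (.N 0 (.N 0 (.L ⟨[], 1, 0, 0, 0, 0, []⟩) (.L ⟨[(0, 54), (1, 50), (8, 150), (10, 12), (21, 150), (40, 150), (46, 15), (144, 615)], 3600, 0, 0, 0, 0, []⟩)) (.L ⟨[(0, 54), (1, 50), (8, 150), (10, 12), (21, 150), (40, 150), (46, 15), (144, 615)], 1800, 0, 0, 0, 0, []⟩)) (.L ⟨[(144, 1)], 0, 0, 0, 0, 0, []⟩))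

theorem ok_up1_2m : tree_up1_2m.check prm_up1 ⟨-32, 32, -64, 64, -32, -32, -64, 64, -32, 32, -64, 64, 0, 336⟩ = true := by decide +kernel

def tree_up1_2p : Tree := .N 6 (.N 6 (.L ⟨[(144, 1)], 0, 0, 0, 0, 0, []⟩) (.N 6 (.L ⟨[(144, 1)], 0, 0, 0, 0, 0, []⟩) (.N 5 (.N 4 (.L ⟨[(0, 37810), (1, 20580), (2, 22820), (3, 113430), (22, 61740), (35, 68460), (39, 91170), (41, 175170), (45, 13020), (53, 35367), (58, 7140), (144, 3225600)], 0, 1126860, 1914360, 0, 0, []⟩) (.L ⟨[(0, 1250), (1, 600), (2, 748), (3, 3750), (22, 1800), (35, 2244), (41, 5550), (51, 555), (144, 93240)], 0, 19536, 106560, 0, 0, []⟩)) (.L ⟨[(0, 34006), (1, 714), (2, 9786), (3, 102018), (22, 2142), (37, 11331), (38, 18027), (39, 25179), (41, 104160), (45, 3150), (51, 10416), (144, 2580480)], 0, 0, 442932, 0, 0, []⟩)))) (.N 4 (.L ⟨[(1, 50), (2, 54), (20, 150),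 (33, 150), (35, 12), (41, 150), (53, 15)], 0, 0, 0, 0, 0, []⟩) (.N 5 (.N 4 (.L ⟨[(0, 3225), (1, 18275), (2, 17691), (3, 9675), (20, 54825), (33, 38625), (35, 14448), (41, 64500), (53, 6450), (144, 258000)], 0, 0, 1548000, 0, 0, []⟩) (.L ⟨[], 0, 0, 1, 0, 0, []⟩)) (.L ⟨[(0, 445620), (1, 75600), (2, 163495), (3, 1336860), (20, 142800), (22, 84000), (37, 389685), (38, 100800), (41, 1563660), (51, 156366), (144, 32256000)], 0, 0, 16304400, 0, 0, []⟩)))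

theorem ok_up1_2p : tree_up1_2p.check prm_up1 ⟨-32, 32, -64, 64, 32, 32, -64, 64, -32, 32, -64, 64, 0, 336⟩ = true := by decide +kernel

def tree_up1_3m : Tree := .N 6 (.N 6 (.L ⟨[], 0, 1, 0, 0, 0, []⟩) (.L ⟨[], 0, 1, 0, 0, 0, []⟩)) (.L ⟨[(1, 25), (15, 75), (40, 75), (41, 75), (65, 21)], 0, 1440, 0, 0, 0, []⟩)

theorem ok_up1_3m : tree_up1_3m.check prm_up1 ⟨-32, 32, -64, 64, -32, 32, -64, -64, -32, 32, -64, 64, 0, 336⟩ = true := by decide +kernel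

def tree_up1_3p : Tree := .N 6 (.N 6 (.L ⟨[(144, 1)], 0, 0, 0, 0, 0, []⟩) (.L ⟨[(0, 14), (1, 3), (3, 42), (26, 9), (144, 1440)], 0, 0, 0, 0, 0, []⟩)) (.L ⟨[(0, 14), (1, 3), (3, 42), (26, 9), (144, 720)], 0, 0, 0, 0, 0, []⟩)

theorem ok_up1_3p : tree_up1_3p.check prm_up1 ⟨-32, 32, -64, 64, -32, 32, 64, 64, -32, 32, -64, 64, 0, 336⟩ = true := by decide +kernel

def tree_up1_4m : Tree := .N 6 (.N 6 (.L ⟨[(144, 1)], 0, 0, 0, 0, 0, []⟩) (.N 6 (.L ⟨[(144, 1)], 0, 0, 0, 0, 0, []⟩) (.N 0 (.L ⟨[(144, 1)], 1, 0, 0, 0, 0, []⟩) (.N 1 (.N 1 (.N 0 (.N 1 (.N 0 (.L ⟨[(0, 130), (2, 110), (6, 42), (8, 348), (33, 300), (35, 30), (40, 144), (46, 33), (53, 39)], 23040, 657, 0, 0, 0, []⟩) (.N 6 (.N 3 (.L ⟨[(0, 6000), (2, 5150), (6, 2962), (8, 15038), (33, 14010), (35, 1440), (40, 1709), (46, 1545), (53, 1800), (144, 93735)], 230400, 40980,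 0, 0, 0, []⟩) (.L ⟨[(0, 16630), (1, 3360), (2, 1440), (3, 4440), (4, 45450), (25, 7200), (26, 2880), (35, 4320), (46, 1440), (53, 5997), (144, 691200)], 146880, 0, 0, 0, 0, []⟩)) (.L ⟨[(0, 40), (2, 40), (8, 120), (33, 108), (35, 12), (40, 43), (41, 107), (46, 12), (53, 12), (144, 192)], 1440, 96, 0, 0, 0, []⟩))) (.L ⟨[(144, 1)], 0, 0, 0, 0, 0, []⟩)) (.L ⟨[(0, 700), (2, 600), (6, 317), (8, 1783), (33, 1635), (35, 165), (40, 319), (46, 180), (53, 210), (144, 7200)], 0, 3600, 0, 0, 0, []⟩)) (.L ⟨[(144, 1)], 0, 0, 0, 0, 0, []⟩)) (.L ⟨[(144, 1)], 0, 0, 0, 0, 0, []⟩))))) (.N 1 (.N 0 (.N 0 (.L ⟨[], 1, 0, 0, 0, 0, []⟩) (.L ⟨[(0, 50), (2, 50), (8, 138), (10, 12), (33, 138), (35, 12), (40, 150), (41, 150), (46, 15), (53, 15), (144, 660)], 3600, 0, 0, 0, 0, []⟩)) (.L ⟨[(0, 50), (2, 50), (8, 138), (10, 12), (33, 138), (35, 12),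 (40, 150), (41, 150), (46, 15), (53, 15), (144, 615)], 1800, 0, 0, 0, 0, []⟩)) (.L ⟨[(144, 1)], 0, 0, 0, 0, 0, []⟩))

theorem ok_up1_4m : tree_up1_4m.check prm_up1 ⟨-32, 32, -64, 64, -32, 32, -64, 64, -32, -32, -64, 64, 0, 336⟩ = true := by decide +kernel

def tree_up1_4p : Tree := .N 6 (.N 6 (.L ⟨[(144, 1)], 0, 0, 0, 0, 0, []⟩) (.L ⟨[(0, 14), (2, 3), (3, 42), (38, 9), (144, 1440)], 0, 0, 1440, 0, 0, []⟩)) (.N 5 (.L ⟨[], 0, 0, 1, 0, 0, []⟩) (.L ⟨[(0, 14), (2, 3), (3, 42), (38, 9), (144, 960)], 0, 0, 452, 0, 0, []⟩))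

theorem ok_up1_4p : tree_up1_4p.check prm_up1 ⟨-32, 32, -64, 64, -32, 32, -64, 64, 32, 32, -64, 64, 0, 336⟩ = true := by decide +kernel

def tree_up1_5m : Tree := .N 6 (.N 6 (.L ⟨[(144, 1)], 0, 0, 0, 0, 0, []⟩) (.N 6 (.L ⟨[(144, 1)], 0, 0, 0, 0, 0, []⟩) (.N 3 (.N 2 (.L ⟨[(1, 420), (2, 1820), (25, 135), (26, 1125), (27, 5460), (42, 1260), (46, 672), (54, 126), (144, 31626)], 15876, 120960, 0, 0, 0, []⟩) (.L ⟨[(1, 50), (2, 150), (24, 125), (26, 25), (27, 155), (29, 295), (39, 530), (41, 150), (45, 60), (53, 15), (144, 2617)], 0, 7680, 1890, 0, 0, []⟩)) (.L ⟨[(1, 30), (2, 140), (26, 90), (27, 420), (45, 9), (55, 9), (144, 207)], 81, 0, 81, 0, 0, []⟩)))) (.N 3 (.N 3 (.N 2 (.L ⟨[(1, 4119), (2, 13575), (23, 12357), (27, 40725), (40, 53082), (62, 9228), (63, 1373)], 0, 1318080, 0, 0, 0, []⟩) (.L ⟨[(1, 1220), (2, 2089), (20,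 2562), (22, 1098), (27, 6267), (41, 3660), (42, 3660), (53, 366), (68, 1938)], 0, 234240, 0, 0, 0, []⟩)) (.L ⟨[(1, 30), (2, 137), (26, 90), (27, 411), (40, 54), (42, 54), (55, 9)], 0, 4320, 0, 0, 0, []⟩)) (.L ⟨[(1, 3), (2, 14), (26, 9), (27, 42)], 0, 0, 0, 0, 0, []⟩))

theorem ok_up1_5m : tree_up1_5m.check prm_up1 ⟨-32, 32, -64, 64, -32, 32, -64, 64, -32, 32, -64, -64, 0, 336⟩ = true := by decide +kernel

def tree_up1_5p : Tree := .N 6 (.N 6 (.L ⟨[(144, 1)], 0, 0, 0, 0, 0, []⟩) (.L ⟨[(0, 14), (2, 3), (3, 42), (38, 9), (144, 1440)], 0, 0, 0, 0, 0, []⟩)) (.L ⟨[(0, 14), (2, 3), (3, 42), (38, 9), (144, 720)], 0, 0, 0, 0, 0, []⟩)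

theorem ok_up1_5p : tree_up1_5p.check prm_up1 ⟨-32, 32, -64, 64, -32, 32, -64, 64, -32, 32, 64, 64, 0, 336⟩ = true := by decide +kernel

end Pool.Agent.H78.P6
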