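import Pool.Agent.H78.P6.Dom
import Pool.Agent.H78.P6.T_up1
import Pool.Agent.H78.P6.T_ray1
import Pool.Agent.H78.P6.T_ray2
import Pool.Agent.H78.P6.T_pair
import Pool.Agent.H78.P6.T_l2
import Pool.Agent.H78.P6.T_R6
import Pool.Agent.H78.P6.T_M1

/-! conclusions of the certificates (generated) -/

set_option autoImplicit false

namespace Pool.Agent.H78.P6

open Pool.Agent.H30.P6

theorem no_up1 {z : Pt} (hz : Hyp prm_up1 z) (hb : Bd z) : False := by
  obtain ⟨T, W0, W1, W2, W3, W4, W5, hT, hs, h⟩ := cube_boxes 32 256 336 (by norm_num) (by norm_num) (by norm_num) hb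
  have S := fun t b h1 h2 => tree_sound (P := prm_up1) (by decide) (by decide) hz hT hs t b h1 h2
  rcases h with h | h | h | h | h | h | h | h | h | h | h | h
  · exact S _ _ ok_up1_0m h
  · exact S _ _ ok_up1_0p h
  · exact S _ _ ok_up1_1m h
  · exact S _ _ ok_up1_1p h
  · exact S _ _ ok_up1_2m h
  · exact S _ _ ok_up1_2p h
  · exact S _ _ ok_up1_3m h
  · exact S _ _ ok_up1_3p h
  · exact S _ _ ok_up1_4m h
  · exact S _ _ ok_up1_4p h
  · exact S _ _ ok_up1_5m h
  · exact S _ _ ok_up1_5p h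

theorem no_ray1 {z : Pt} (hz : Hyp prm_ray1 z) (hb : Bd z) : False := by
  obtain ⟨T, W0, W1, W2, W3, W4, W5, hT, hs, h⟩ := cube_boxes 256 32768 43008 (by norm_num) (by norm_num) (by norm_num) hb
  have S := fun t b h1 h2 => tree_sound (P := prm_ray1) (by decide) (by decide) hz hT hs t b h1 h2
  rcases h with h | h | h | h | h | h | h | h | h | h | h | h
  · exact S _ _ ok_ray1_0m h
  · exact S _ _ ok_ray1_0p h
  · exact S _ _ ok_ray1_1m h
  · exact S _ _ ok_ray1_1p h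
  · exact S _ _ ok_ray1_2m h
  · exact S _ _ ok_ray1_2p h
  · exact S _ _ ok_ray1_3m h
  · exact S _ _ ok_ray1_3p h
  · exact S _ _ ok_ray1_4m h
  · exact S _ _ ok_ray1_4p h
  · exact S _ _ ok_ray1_5m h
  · exact S _ _ ok_ray1_5p h

theorem no_ray2 {z : Pt} (hz : Hyp prm_ray2 z) (hb : Bd z) : False := by
  obtain ⟨T, W0, W1, W2, W3, W4, W5, hT, hs, h⟩ := cube_boxes 32 512 672 (by norm_num) (by norm_num) (by norm_num) hb
  have S := fun t b h1 h2 => tree_sound (P := prm_ray2) (by decide) (by decide) hz hT hs t b h1 h2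
  rcases h with h | h | h | h | h | h | h | h | h | h | h | h
  · exact S _ _ ok_ray2_0m h
  · exact S _ _ ok_ray2_0p h
  · exact S _ _ ok_ray2_1m h
  · exact S _ _ ok_ray2_1p h
  · exact S _ _ ok_ray2_2m h
  · exact S _ _ ok_ray2_2p h
  · exact S _ _ ok_ray2_3m h
  · exact S _ _ ok_ray2_3p h
  · exact S _ _ ok_ray2_4m h
  · exact S _ _ ok_ray2_4p h
  · exact S _ _ ok_ray2_5m h
  · exact S _ _ ok_ray2_5p h

theorem no_pair {z : Pt} (hz : Hyp prm_pair z) (hb : Bd z) : False := by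
  obtain ⟨T, W0, W1, W2, W3, W4, W5, hT, hs, h⟩ := cube_boxes 32 1024 1344 (by norm_num) (by norm_num) (by norm_num) hb
  have S := fun t b h1 h2 => tree_sound (P := prm_pair) (by decide) (by decide) hz hT hs t b h1 h2
  rcases h with h | h | h | h | h | h | h | h | h | h | h | h
  · exact S _ _ ok_pair_0m h
  · exact S _ _ ok_pair_0p h
  · exact S _ _ ok_pair_1m h
  · exact S _ _ ok_pair_1p h
  · exact S _ _ ok_pair_2m h
  · exact S _ _ ok_pair_2p h
  · exact S _ _ ok_pair_3m h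
  · exact S _ _ ok_pair_3p h
  · exact S _ _ ok_pair_4m h
  · exact S _ _ ok_pair_4p h
  · exact S _ _ ok_pair_5m h
  · exact S _ _ ok_pair_5p h

theorem no_l2 {z : Pt} (hz : Hyp prm_l2 z) (hb : Bd z) (h2 : 0 ≤ z.X2) : False := by
  obtain ⟨T, W0, W1, W2, W3, W4, W5, hT, hs, h⟩ := cube_boxes 512 32768 43008 (by norm_num) (by norm_num) (by norm_num) hb
  have S := fun t b h1 h2 => tree_sound (P := prm_l2) (by decide) (by decide) hz hT hs t b h1 h2
  have p2 := hs.pos2 (by norm_num) hT h2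
  rcases h with h | h | h | h | h | h | h | h | h | h | h | h
  · exact S _ _ ok_l2_0m (h.pos2 p2)
  · exact S _ _ ok_l2_0p (h.pos2 p2)
  · exact S _ _ ok_l2_1m (h.pos2 p2)
  · exact S _ _ ok_l2_1p (h.pos2 p2)
  · have := h.h2.2; push_cast at this; linarith
  · exact S _ _ ok_l2_2p h
  · exact S _ _ ok_l2_3m (h.pos2 p2)
  · exact S _ _ ok_l2_3p (h.pos2 p2)
  · exact S _ _ ok_l2_4m (h.pos2 p2)
  · exact S _ _ ok_l2_4p (h.pos2 p2)
  · exact S _ _ ok_l2_5m (h.pos2 p2)
  · exact S _ _ ok_l2_5p (h.pos2 p2)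

theorem no_R6 {z : Pt} (hz : Hyp prm_R6 z) (hb : Bd z) : False := by
  obtain ⟨T, W0, W1, W2, W3, W4, W5, hT, hs, h⟩ := cube_boxes 32 512 672 (by norm_num) (by norm_num) (by norm_num) hb
  have S := fun t b h1 h2 => tree_sound (P := prm_R6) (by decide) (by decide) hz hT hs t b h1 h2
  rcases h with h | h | h | h | h | h | h | h | h | h | h | h
  · exact S _ _ ok_R6_0m h
  · exact S _ _ ok_R6_0p h
  · exact S _ _ ok_R6_1m h
  · exact S _ _ ok_R6_1p h
  · exact S _ _ ok_R6_2m h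
  · exact S _ _ ok_R6_2p h
  · exact S _ _ ok_R6_3m h
  · exact S _ _ ok_R6_3p h
  · exact S _ _ ok_R6_4m h
  · exact S _ _ ok_R6_4p h
  · exact S _ _ ok_R6_5m h
  · exact S _ _ ok_R6_5p h

theorem no_M1 {z : Pt} (hz : Hyp prm_M1 z) (hb : Bd z) : False := by
  obtain ⟨T, W0, W1, W2, W3, W4, W5, hT, hs, h⟩ := cube_boxes 64 512 672 (by norm_num) (by norm_num) (by norm_num) hb
  have S := fun t b h1 h2 => tree_sound (P := prm_M1) (by decide) (by decide) hz hT hs t b h1 h2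
  rcases h with h | h | h | h | h | h | h | h | h | h | h | h
  · exact S _ _ ok_M1_0m h
  · exact S _ _ ok_M1_0p h
  · exact S _ _ ok_M1_1m h
  · exact S _ _ ok_M1_1p h
  · exact S _ _ ok_M1_2m h
  · exact S _ _ ok_M1_2p h
  · exact S _ _ ok_M1_3m h
  · exact S _ _ ok_M1_3p h
  · exact S _ _ ok_M1_4m h
  · exact S _ _ ok_M1_4p h
  · exact S _ _ ok_M1_5m h
  · exact S _ _ ok_M1_5p h

end Pool.Agent.H78.P6
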