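import Pool.Agent.H78.P6.No

/-!
# The certificates of the real apex, in rational coordinates
-/

set_option autoImplicit false

noncomputable section

namespace Pool.Agent.H78.P6

open Pool.Agent.H30.P6

/-- the real apex: `‖y - site‖ ≤ 709/1000`, not too low, legs `≤ √3` -/
structure Dm (a b X1 Y1 X2 Y2 X3 Y3 V1 V2 V3 p q r s h k : ℝ) : Prop where
  d : Dom a b X1 Y1 X2 Y2 X3 Y3 V1 V2 V3 p q r s h k
  u : 3 * a ^ 2 + b ^ 2 ≤ 2010724 / 1000000
  bl : -(289 / 250) ≤ b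
  l1 : 3 * (1 + X1) ^ 2 + (1 + Y1) ^ 2 ≤ 12
  l3 : 3 * (-1 + X3) ^ 2 + (1 + Y3) ^ 2 ≤ 12

variable {a b X1 Y1 X2 Y2 X3 Y3 V1 V2 V3 p q r s h k : ℝ}

theorem Dm.mirror (c : Dm a b X1 Y1 X2 Y2 X3 Y3 V1 V2 V3 p q r s h k) :
    Dm (-a) b (-X3) Y3 (-X2) Y2 (-X1) Y1 V3 V2 V1 s r q p k h where
  d := c.d.mirror
  u := by have := c.u; linarith [neg_sq a]
  bl := c.bl
  l1 := by have := c.l3; nlinarith
  l3 := by have := c.l1; nlinarith

theorem Dm.rows (c : Dm a b X1 Y1 X2 Y2 X3 Y3 V1 V2 V3 p q r s h k) (E : ℝ) :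
    ∀ R ∈ rowsR, R.ev (Cfg.pt a b X1 Y1 X2 Y2 X3 Y3 V1 V2 V3 p q r s h k E) ≤ 0 := by
  intro R hR
  rw [rowsR, List.mem_append, List.mem_append] at hR
  rcases hR with hR | hR | hR
  · exact rowsC_le c.d R hR
  · exact rowsU_le (z := Cfg.pt a b X1 Y1 X2 Y2 X3 Y3 V1 V2 V3 p q r s h k E) c.u c.bl R hR
  · exact rowsL_le (z := Cfg.pt a b X1 Y1 X2 Y2 X3 Y3 V1 V2 V3 p q r s h k E) c.l1 c.l3 R hR

theorem Dm.bd (c : Dm a b X1 Y1 X2 Y2 X3 Y3 V1 V2 V3 p q r s h k) (E : ℝ)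
    (ne : ¬ (X1 = 0 ∧ Y1 = 0 ∧ X2 = 0 ∧ Y2 = 0 ∧ X3 = 0 ∧ Y3 = 0)) :
    Bd (Cfg.pt a b X1 Y1 X2 Y2 X3 Y3 V1 V2 V3 p q r s h k E) := dom_bd c.d (by linarith [c.u]) ne

theorem Dm.up1 (c : Dm a b X1 Y1 X2 Y2 X3 Y3 V1 V2 V3 p q r s h k) : 0 < 1 + Y1 := by
  by_contra hcon
  push Not at hcon
  refine no_up1 (hyp_of 0 c.d (P := prm_up1) ?_ ?_) (c.bd 0 ?_)
  · intro R hR
    rw [prm_up1] at hR
    rcases List.mem_append.1 hR with hR | hR
    · exact c.rows 0 R hR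
    · rw [List.mem_singleton] at hR
      subst hR
      simp only [Row.ev, Cfg.pt]; push_cast; linarith
  · intro f hf; simp [prm_up1] at hf
  · rintro ⟨-, h1, -⟩; linarith

theorem Dm.ray1 (c : Dm a b X1 Y1 X2 Y2 X3 Y3 V1 V2 V3 p q r s h k) : 2 * (1 + Y1) < 25 * (1 + X1) := by
  by_contra hcon
  push Not at hcon
  refine no_ray1 (hyp_of 0 c.d (P := prm_ray1) ?_ ?_) (c.bd 0 ?_)
  · intro R hR
    rw [prm_ray1] at hR
    rcases List.mem_append.1 hR with hR | hR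
    · exact c.rows 0 R hR
    · rw [List.mem_singleton] at hR
      subst hR
      simp only [Row.ev, Cfg.pt]; push_cast; linarith
  · intro f hf; simp [prm_ray1] at hf
  · rintro ⟨h0, h1, -⟩; rw [h0, h1] at hcon; linarith

theorem Dm.ray2 (c : Dm a b X1 Y1 X2 Y2 X3 Y3 V1 V2 V3 p q r s h k) : 9 * X2 < 4 * (2 + Y2) := by
  by_contra hcon
  push Not at hcon
  refine no_ray2 (hyp_of 0 c.d (P := prm_ray2) ?_ ?_) (c.bd 0 ?_)
  · intro R hR
    rw [prm_ray2] at hR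
    rcases List.mem_append.1 hR with hR | hR
    · exact c.rows 0 R hR
    · rw [List.mem_singleton] at hR
      subst hR
      simp only [Row.ev, Cfg.pt]; push_cast; linarith
  · intro f hf; simp [prm_ray2] at hf
  · rintro ⟨-, -, h0, h1, -⟩; rw [h0, h1] at hcon; linarith

theorem Dm.pair (c : Dm a b X1 Y1 X2 Y2 X3 Y3 V1 V2 V3 p q r s h k) (h1 : 52 / 5 ≤ 3 * (1 + X1) ^ 2 + (1 + Y1) ^ 2)
    (h3 : 9 ≤ 3 * (-1 + X3) ^ 2 + (1 + Y3) ^ 2) : False := by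
  refine no_pair (hyp_of 0 c.d (P := prm_pair) ?_ ?_) (c.bd 0 ?_)
  · intro R hR
    rw [prm_pair] at hR
    rcases List.mem_append.1 hR with hR | hR
    · exact c.rows 0 R hR
    · simp at hR
  · intro f hf
    simp only [prm_pair, List.mem_cons, List.not_mem_nil, or_false] at hf
    rcases hf with rfl | rfl
    · refine ⟨by norm_num, ?_⟩
      simp only [gq, Cfg.pt]; push_cast; nlinarith
    · refine ⟨by norm_num, ?_⟩
      simp only [gq, Cfg.pt]; push_cast; nlinarith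
  · rintro ⟨h0, h0', -⟩; rw [h0, h0'] at h1; norm_num at h1

theorem Dm.l2_aux (c : Dm a b X1 Y1 X2 Y2 X3 Y3 V1 V2 V3 p q r s h k) (hX : 0 ≤ X2) : 3 * X2 ^ 2 + (2 + Y2) ^ 2 < 12 := by
  by_contra hcon
  push Not at hcon
  refine no_l2 (hyp_of 0 c.d (P := prm_l2) ?_ ?_) (c.bd 0 ?_) hX
  · intro R hR
    rw [prm_l2] at hR
    rcases List.mem_append.1 hR with hR | hR
    · exact c.rows 0 R hR
    · simp at hR
  · intro f hf
    simp only [prm_l2, List.mem_cons, List.not_mem_nil, or_false] at hf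
    subst hf
    refine ⟨by norm_num, ?_⟩
    simp only [gq, Cfg.pt]; push_cast; nlinarith
  · rintro ⟨-, -, h0, h0', -⟩; rw [h0, h0'] at hcon; norm_num at hcon

theorem Dm.l2 (c : Dm a b X1 Y1 X2 Y2 X3 Y3 V1 V2 V3 p q r s h k) : 3 * X2 ^ 2 + (2 + Y2) ^ 2 < 12 := by
  rcases le_total 0 X2 with hX | hX
  · exact c.l2_aux hX
  · have := c.mirror.l2_aux (by linarith)
    nlinarith

/-- the energy of a fan with a long leg -/
theorem Dm.R6 (c : Dm a b X1 Y1 X2 Y2 X3 Y3 V1 V2 V3 p q r s h k) {E : ℝ}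
    (o1 : fan X1 Y1 X2 Y2 X3 Y3 + V1 + r + s + k ≤ E)
    (o2 : fan X1 Y1 X2 Y2 X3 Y3 + V2 + p + q + r + s + h + k ≤ E)
    (o3 : fan X1 Y1 X2 Y2 X3 Y3 + V3 + p + q + h ≤ E)
    (h1 : 32 / 3 ≤ 3 * (1 + X1) ^ 2 + (1 + Y1) ^ 2) : 193 / 500 < E := by
  by_contra hcon
  push Not at hcon
  refine no_R6 (hyp_of E c.d (P := prm_R6) ?_ ?_) (c.bd E ?_)
  · intro R hR
    rw [prm_R6] at hR
    rcases List.mem_append.1 hR with hR | hR
    · exact c.rows E R hR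
    · simp only [List.mem_cons, List.not_mem_nil, or_false] at hR
      rcases hR with rfl | rfl | rfl | rfl
      · simp only [Row.ev, Cfg.pt]; push_cast; linarith
      · simp only [Row.ev, Cfg.pt]; push_cast; linarith
      · simp only [Row.ev, Cfg.pt]; push_cast; linarith
      · simp only [Row.ev, Cfg.pt]; push_cast; linarith
  · intro f hf
    simp only [prm_R6, List.mem_cons, List.not_mem_nil, or_false] at hf
    subst hf
    refine ⟨by norm_num, ?_⟩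
    simp only [gq, Cfg.pt]; push_cast; nlinarith
  · rintro ⟨h0, h0', -⟩; rw [h0, h0'] at h1; norm_num at h1

/-- matched apex: the legs are shorter than `√3` -/
theorem Dom.M1 (c : Dom a b X1 Y1 X2 Y2 X3 Y3 V1 V2 V3 p q r s h k) (hu : 3 * a ^ 2 + b ^ 2 ≤ 1) :
    3 * (1 + X1) ^ 2 + (1 + Y1) ^ 2 < 12 := by
  by_contra hcon
  push Not at hcon
  refine no_M1 (hyp_of 0 c (P := prm_M1) ?_ ?_) (dom_bd c (by linarith) ?_)
  · intro R hR
    rw [prm_M1] at hR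
    rcases List.mem_append.1 hR with hR | hR
    · rw [rowsM, List.mem_append] at hR
      rcases hR with hR | hR
      · exact rowsC_le c R hR
      · exact rowsU5_le (z := Cfg.pt a b X1 Y1 X2 Y2 X3 Y3 V1 V2 V3 p q r s h k 0) hu R hR
    · simp at hR
  · intro f hf
    simp only [prm_M1, List.mem_cons, List.not_mem_nil, or_false] at hf
    subst hf
    refine ⟨by norm_num, ?_⟩
    simp only [gq, Cfg.pt]; push_cast; nlinarith
  · rintro ⟨h0, h0', -⟩; rw [h0, h0'] at hcon; norm_num at hcon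

end Pool.Agent.H78.P6
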