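import Pool.Agent.H78.P6.Rcc
import Pool.Agent.H78.P6.ML
import Pool.Agent.H30.P6.DPt

/-!
# The real fan in complex coordinates of the standard wedge (MP_591ade_co, p = 6, T3)

`u` = position of the real apex minus the site, `v1 v2 v3` = displacements of the frames (axis of the wedge = 90 degrees),
`w_m = d_m + v_m - u` the legs.
* `Pk`: packing, edges `≤ 147/100`, `Phi ≤ 1/3`.
* `Fan0`: `Pk`, `‖u‖ ≤ 709/1000`, not too low, outer legs `≤ √3`; conclusions `Fan0.*`.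
-/

set_option autoImplicit false

open Pool.Agent.H20.AL Pool.Agent.H16.T3 Pool.Agent.H30.P6

open Pool.Agent.H63.P6 hiding fan

noncomputable section

namespace Pool.Agent.H78.P6

/-- packing of the apex and the frames -/
structure Pk (u v1 v2 v3 : ℂ) : Prop where
  g1 : 1 ≤ ‖d1 + v1 - u‖
  g2 : 1 ≤ ‖d2 + v2 - u‖
  g3 : 1 ≤ ‖d3 + v3 - u‖
  g12 : 1 ≤ ‖(d2 + v2) - (d1 + v1)‖
  g23 : 1 ≤ ‖(d3 + v3) - (d2 + v2)‖
  e12 : ‖(d2 + v2) - (d1 + v1)‖ ≤ 147 / 100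
  e23 : ‖(d3 + v3) - (d2 + v2)‖ ≤ 147 / 100
  phi : Phi V30 (4 / 25) v1 v2 v3 ≤ 1 / 3

/-- rational coordinates of the legs -/
theorem leg_rc (u v : ℂ) : 2 * (d1 + v - u).re / √3 = 1 + 2 * (v - u).re / √3 ∧ 2 * (d1 + v - u).im = 1 + 2 * (v - u).im ∧
    2 * (d2 + v - u).re / √3 = 2 * (v - u).re / √3 ∧ 2 * (d2 + v - u).im = 2 + 2 * (v - u).im ∧
    2 * (d3 + v - u).re / √3 = -1 + 2 * (v - u).re / √3 ∧ 2 * (d3 + v - u).im = 1 + 2 * (v - u).im := by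
  have hne := s3p.ne'
  refine ⟨?_, ?_, ?_, ?_, ?_, ?_⟩
  · simp only [d1, Complex.sub_re, Complex.add_re]; field_simp; ring
  · simp only [d1, Complex.sub_im, Complex.add_im]; ring
  · simp only [d2, Complex.sub_re, Complex.add_re]; ring
  · simp only [d2, Complex.sub_im, Complex.add_im]; ring
  · simp only [d3, Complex.sub_re, Complex.add_re]; field_simp; ring
  · simp only [d3, Complex.sub_im, Complex.add_im]; ring

theorem fan_rc (u v1 v2 v3 : ℂ) :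
    fan (2 * (v1 - u).re / √3) (2 * (v1 - u).im) (2 * (v2 - u).re / √3) (2 * (v2 - u).im)
      (2 * (v3 - u).re / √3) (2 * (v3 - u).im) = fanw (d1 + v1 - u) (d2 + v2 - u) (d3 + v3 - u) := by
  have hne := s3p.ne'
  have hs := s3
  obtain ⟨r1, i1, -⟩ := leg_rc u v1
  obtain ⟨-, -, r2, i2, -⟩ := leg_rc u v2
  obtain ⟨-, -, -, -, r3, i3⟩ := leg_rc u v3
  have c1 : ∀ w z : ℂ, cr w z / √3 = (2 * w.re / √3 * (2 * z.im) - 2 * w.im * (2 * z.re / √3)) / 4 := fun w z => by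
    simp only [cr]; field_simp; ring
  rw [fanw, add_div, c1, c1, r1, i1, r2, i2, r3, i3, fan]; ring

/-- the three terms of `Phi` in rational coordinates -/
theorem phi_rc (v1 v2 v3 : ℂ) {E : ℝ} (hE : Phi V30 (4 / 25) v1 v2 v3 ≤ E) :
    V30 v1 + 4 / 25 * max (-(dt v2 d3)) 0 + 4 / 25 * max (-(dt v3 d3)) 0 + 4 / 25 * (‖(d3 + v3) - (d2 + v2)‖ - 1) ≤ E ∧
    V30 v2 + 4 / 25 * max (-(dt v1 d1)) 0 + 4 / 25 * max (-(dt v2 d1)) 0 + 4 / 25 * max (-(dt v2 d3)) 0 +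
      4 / 25 * max (-(dt v3 d3)) 0 + 4 / 25 * (‖(d2 + v2) - (d1 + v1)‖ - 1) + 4 / 25 * (‖(d3 + v3) - (d2 + v2)‖ - 1) ≤ E ∧
    V30 v3 + 4 / 25 * max (-(dt v1 d1)) 0 + 4 / 25 * max (-(dt v2 d1)) 0 + 4 / 25 * (‖(d2 + v2) - (d1 + v1)‖ - 1) ≤ E := by
  have P1 := le_max_left (V30 v1 + sig (4 / 25) d3 v3 v2 ‖(d3 + v3) - (d2 + v2)‖)
    (max (V30 v3 + sig (4 / 25) d1 v1 v2 ‖(d2 + v2) - (d1 + v1)‖)
      (V30 v2 + sig (4 / 25) d1 v1 v2 ‖(d2 + v2) - (d1 + v1)‖ + sig (4 / 25) d3 v3 v2 ‖(d3 + v3) - (d2 + v2)‖))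
  have P2 := le_max_right (V30 v1 + sig (4 / 25) d3 v3 v2 ‖(d3 + v3) - (d2 + v2)‖)
    (max (V30 v3 + sig (4 / 25) d1 v1 v2 ‖(d2 + v2) - (d1 + v1)‖)
      (V30 v2 + sig (4 / 25) d1 v1 v2 ‖(d2 + v2) - (d1 + v1)‖ + sig (4 / 25) d3 v3 v2 ‖(d3 + v3) - (d2 + v2)‖))
  have P3 := le_max_left (V30 v3 + sig (4 / 25) d1 v1 v2 ‖(d2 + v2) - (d1 + v1)‖)
      (V30 v2 + sig (4 / 25) d1 v1 v2 ‖(d2 + v2) - (d1 + v1)‖ + sig (4 / 25) d3 v3 v2 ‖(d3 + v3) - (d2 + v2)‖)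
  have P4 := le_max_right (V30 v3 + sig (4 / 25) d1 v1 v2 ‖(d2 + v2) - (d1 + v1)‖)
      (V30 v2 + sig (4 / 25) d1 v1 v2 ‖(d2 + v2) - (d1 + v1)‖ + sig (4 / 25) d3 v3 v2 ‖(d3 + v3) - (d2 + v2)‖)
  simp only [Phi] at hE
  simp only [sig] at hE P1 P2 P3 P4
  refine ⟨?_, ?_, ?_⟩ <;> linarith

theorem Pk.dom {u v1 v2 v3 : ℂ} (h : Pk u v1 v2 v3) :
    Dom (2 * u.re / √3) (2 * u.im) (2 * (v1 - u).re / √3) (2 * (v1 - u).im) (2 * (v2 - u).re / √3) (2 * (v2 - u).im)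
      (2 * (v3 - u).re / √3) (2 * (v3 - u).im) (V30 v1) (V30 v2) (V30 v3)
      (4 / 25 * max (-(dt v1 d1)) 0) (4 / 25 * max (-(dt v2 d1)) 0) (4 / 25 * max (-(dt v2 d3)) 0)
      (4 / 25 * max (-(dt v3 d3)) 0) (4 / 25 * (‖(d2 + v2) - (d1 + v1)‖ - 1))
      (4 / 25 * (‖(d3 + v3) - (d2 + v2)‖ - 1)) := by
  have hs := s3
  have hne := s3p.ne'
  have key : ∀ v : ℂ, 2 * (v - u).re / √3 + 2 * u.re / √3 = 2 * v.re / √3 := fun v => by
    rw [Complex.sub_re]; ring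
  have key2 : ∀ v : ℂ, 2 * (v - u).im + 2 * u.im = 2 * v.im := fun v => by rw [Complex.sub_im]; ring
  obtain ⟨r1, i1, -⟩ := leg_rc u v1
  obtain ⟨-, -, r2, i2, -⟩ := leg_rc u v2
  obtain ⟨-, -, -, -, r3, i3⟩ := leg_rc u v3
  have r12 : 2 * ((d2 + v2) - (d1 + v1)).re / √3 = -1 + 2 * (v2 - u).re / √3 - 2 * (v1 - u).re / √3 := by
    simp only [d1, d2, Complex.sub_re, Complex.add_re]; field_simp; ring
  have i12 : 2 * ((d2 + v2) - (d1 + v1)).im = 1 + 2 * (v2 - u).im - 2 * (v1 - u).im := by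
    simp only [d1, d2, Complex.sub_im, Complex.add_im]; ring
  have r23 : 2 * ((d3 + v3) - (d2 + v2)).re / √3 = -1 + 2 * (v3 - u).re / √3 - 2 * (v2 - u).re / √3 := by
    simp only [d3, d2, Complex.sub_re, Complex.add_re]; field_simp; ring
  have i23 : 2 * ((d3 + v3) - (d2 + v2)).im = -1 + 2 * (v3 - u).im - 2 * (v2 - u).im := by
    simp only [d3, d2, Complex.sub_im, Complex.add_im]; ring
  obtain ⟨o1, o2, o3⟩ := phi_rc v1 v2 v3 h.phi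
  have h33 : (3 : ℝ) / √3 = √3 := by rw [div_eq_iff hne]; exact hs.symm
  have dt1 : ∀ v : ℂ, -(dt v d1) = -(3 * (2 * v.re / √3) + 2 * v.im) / 4 := fun v => by
    simp only [dt, d1]
    have : 3 * (2 * v.re / √3) = 2 * √3 * v.re := by
      rw [show 3 * (2 * v.re / √3) = 2 * v.re * (3 / √3) by ring, h33]; ring
    rw [this]; ring
  have dt3 : ∀ v : ℂ, -(dt v d3) = -(-3 * (2 * v.re / √3) + 2 * v.im) / 4 := fun v => by
    simp only [dt, d3]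
    have : 3 * (2 * v.re / √3) = 2 * √3 * v.re := by
      rw [show 3 * (2 * v.re / √3) = 2 * v.re * (3 / √3) by ring, h33]; ring
    rw [show -3 * (2 * v.re / √3) = -(3 * (2 * v.re / √3)) by ring, this]; ring
  refine ⟨?_, ?_, ?_, by positivity, by positivity, by positivity, by positivity, ?_, ?_, ?_, ?_, ?_, ?_,
    by linarith, by linarith, by linarith, by linarith [h.e12], by linarith [h.e23], ?_, ?_, ?_, ?_, ?_⟩
  · rw [key, key2]; exact V30_self v1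
  · rw [key, key2]; exact V30_self v2
  · rw [key, key2]; exact V30_self v3
  · rw [key, key2]; linarith [le_max_left (-(dt v1 d1)) 0, dt1 v1]
  · rw [key, key2]; linarith [le_max_left (-(dt v2 d1)) 0, dt1 v2]
  · rw [key, key2]; linarith [le_max_left (-(dt v2 d3)) 0, dt3 v2]
  · rw [key, key2]; linarith [le_max_left (-(dt v3 d3)) 0, dt3 v3]
  · rw [← r12, ← i12]; exact str_of _ h.g12
  · rw [← r23, ← i23]; exact str_of _ h.g23
  · have h1 := nrm (d1 + v1 - u); rw [r1, i1] at h1; linarith [one_le_sq h.g1]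
  · have h1 := nrm (d2 + v2 - u); rw [r2, i2] at h1; linarith [one_le_sq h.g2]
  · have h1 := nrm (d3 + v3 - u); rw [r3, i3] at h1; linarith [one_le_sq h.g3]
  · have h1 := nrm ((d2 + v2) - (d1 + v1)); rw [r12, i12] at h1; linarith [one_le_sq h.g12]
  · have h1 := nrm ((d3 + v3) - (d2 + v2)); rw [r23, i23] at h1; linarith [one_le_sq h.g23]

/-- the real fan with outer legs `≤ √3` -/
structure Fan0 (u v1 v2 v3 : ℂ) : Prop where
  pk : Pk u v1 v2 v3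
  un : ‖u‖ ≤ 709 / 1000
  lo : -(578 / 1000) ≤ u.im
  l1 : ‖d1 + v1 - u‖ ^ 2 ≤ 3
  l3 : ‖d3 + v3 - u‖ ^ 2 ≤ 3

variable {u v1 v2 v3 : ℂ}

theorem Fan0.dm (h : Fan0 u v1 v2 v3) :
    Dm (2 * u.re / √3) (2 * u.im) (2 * (v1 - u).re / √3) (2 * (v1 - u).im) (2 * (v2 - u).re / √3) (2 * (v2 - u).im)
      (2 * (v3 - u).re / √3) (2 * (v3 - u).im) (V30 v1) (V30 v2) (V30 v3)
      (4 / 25 * max (-(dt v1 d1)) 0) (4 / 25 * max (-(dt v2 d1)) 0) (4 / 25 * max (-(dt v2 d3)) 0)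
      (4 / 25 * max (-(dt v3 d3)) 0) (4 / 25 * (‖(d2 + v2) - (d1 + v1)‖ - 1))
      (4 / 25 * (‖(d3 + v3) - (d2 + v2)‖ - 1)) := by
  obtain ⟨r1, i1, -⟩ := leg_rc u v1
  obtain ⟨-, -, -, -, r3, i3⟩ := leg_rc u v3
  refine ⟨h.pk.dom, ?_, by linarith [h.lo], ?_, ?_⟩
  · have h1 := nrm u
    have h2 : ‖u‖ ^ 2 ≤ (709 / 1000) ^ 2 := pow_le_pow_left₀ (norm_nonneg _) h.un 2
    norm_num at h2
    linarith
  · have h1 := nrm (d1 + v1 - u); rw [r1, i1] at h1; linarith [h.l1]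
  · have h1 := nrm (d3 + v3 - u); rw [r3, i3] at h1; linarith [h.l3]

theorem Fan0.up1 (h : Fan0 u v1 v2 v3) : 0 < (d1 + v1 - u).im := by
  obtain ⟨-, i1, -⟩ := leg_rc u v1
  have := h.dm.up1
  linarith

theorem Fan0.up3 (h : Fan0 u v1 v2 v3) : 0 < (d3 + v3 - u).im := by
  obtain ⟨-, -, -, -, -, i3⟩ := leg_rc u v3
  have := h.dm.mirror.up1
  linarith

theorem Fan0.ray1 (h : Fan0 u v1 v2 v3) : 2 * √3 * (d1 + v1 - u).im < 25 * (d1 + v1 - u).re := by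
  obtain ⟨r1, i1, -⟩ := leg_rc u v1
  have h1 := h.dm.ray1
  rw [← r1, ← i1, ← mul_div_assoc, lt_div_iff₀ s3p] at h1
  linarith

theorem Fan0.ray3 (h : Fan0 u v1 v2 v3) : 2 * √3 * (d3 + v3 - u).im < -(25 * (d3 + v3 - u).re) := by
  obtain ⟨-, -, -, -, r3, i3⟩ := leg_rc u v3
  have h1 := h.dm.mirror.ray1
  have h2 : 2 * (2 * (d3 + v3 - u).im) < 25 * (-(2 * (d3 + v3 - u).re) / √3) := by
    rw [neg_div, r3, i3]; linarith
  rw [← mul_div_assoc, lt_div_iff₀ s3p] at h2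
  linarith

theorem Fan0.ray2 (h : Fan0 u v1 v2 v3) : 9 * (d2 + v2 - u).re < 4 * √3 * (d2 + v2 - u).im := by
  obtain ⟨-, -, r2, i2, -⟩ := leg_rc u v2
  have h1 := h.dm.ray2
  rw [← r2, ← i2, ← mul_div_assoc, div_lt_iff₀ s3p] at h1
  linarith

theorem Fan0.ray2' (h : Fan0 u v1 v2 v3) : -(4 * √3 * (d2 + v2 - u).im) < 9 * (d2 + v2 - u).re := by
  obtain ⟨-, -, r2, i2, -⟩ := leg_rc u v2
  have h1 := h.dm.mirror.ray2
  have h2 : 9 * (-(2 * (d2 + v2 - u).re) / √3) < 4 * (2 * (d2 + v2 - u).im) := by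
    rw [neg_div, r2, i2]; linarith
  rw [← mul_div_assoc, div_lt_iff₀ s3p] at h2
  linarith

theorem Fan0.pair1 (h : Fan0 u v1 v2 v3) : ¬ (13 / 5 ≤ ‖d1 + v1 - u‖ ^ 2 ∧ 9 / 4 ≤ ‖d3 + v3 - u‖ ^ 2) := by
  rintro ⟨a1, a3⟩
  obtain ⟨r1, i1, -⟩ := leg_rc u v1
  obtain ⟨-, -, -, -, r3, i3⟩ := leg_rc u v3
  rw [nrm, r1, i1] at a1
  rw [nrm, r3, i3] at a3
  exact h.dm.pair (by linarith) (by linarith)

theorem Fan0.pair3 (h : Fan0 u v1 v2 v3) : ¬ (13 / 5 ≤ ‖d3 + v3 - u‖ ^ 2 ∧ 9 / 4 ≤ ‖d1 + v1 - u‖ ^ 2) := by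
  rintro ⟨a1, a3⟩
  obtain ⟨r1, i1, -⟩ := leg_rc u v1
  obtain ⟨-, -, -, -, r3, i3⟩ := leg_rc u v3
  rw [nrm, r3, i3] at a1
  rw [nrm, r1, i1] at a3
  exact h.dm.mirror.pair (by nlinarith) (by nlinarith)

theorem Fan0.l2 (h : Fan0 u v1 v2 v3) : ‖d2 + v2 - u‖ ^ 2 < 3 := by
  obtain ⟨-, -, r2, i2, -⟩ := leg_rc u v2
  have h1 := h.dm.l2
  rw [nrm, r2, i2]
  linarith

/-- energy of a fan with a long leg -/
theorem Fan0.R6 (h : Fan0 u v1 v2 v3) (h1 : 8 / 3 ≤ ‖d1 + v1 - u‖ ^ 2) :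
    193 / 500 < fanw (d1 + v1 - u) (d2 + v2 - u) (d3 + v3 - u) + Phi V30 (4 / 25) v1 v2 v3 := by
  obtain ⟨o1, o2, o3⟩ := phi_rc v1 v2 v3 le_rfl
  rw [← fan_rc]
  obtain ⟨r1, i1, -⟩ := leg_rc u v1
  rw [nrm, r1, i1] at h1
  exact h.dm.R6 (by linarith) (by linarith) (by linarith) (by linarith)

theorem Fan0.R6' (h : Fan0 u v1 v2 v3) (h3 : 8 / 3 ≤ ‖d3 + v3 - u‖ ^ 2) :
    193 / 500 < fanw (d1 + v1 - u) (d2 + v2 - u) (d3 + v3 - u) + Phi V30 (4 / 25) v1 v2 v3 := by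
  obtain ⟨o1, o2, o3⟩ := phi_rc v1 v2 v3 le_rfl
  rw [← fan_rc]
  obtain ⟨-, -, -, -, r3, i3⟩ := leg_rc u v3
  rw [nrm, r3, i3] at h3
  refine h.dm.mirror.R6 ?_ ?_ ?_ (by nlinarith)
  · rw [show fan (-(2 * (v3 - u).re / √3)) (2 * (v3 - u).im) (-(2 * (v2 - u).re / √3)) (2 * (v2 - u).im)
      (-(2 * (v1 - u).re / √3)) (2 * (v1 - u).im) = fan (2 * (v1 - u).re / √3) (2 * (v1 - u).im)
      (2 * (v2 - u).re / √3) (2 * (v2 - u).im) (2 * (v3 - u).re / √3) (2 * (v3 - u).im) by unfold fan; ring]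
    linarith
  · rw [show fan (-(2 * (v3 - u).re / √3)) (2 * (v3 - u).im) (-(2 * (v2 - u).re / √3)) (2 * (v2 - u).im)
      (-(2 * (v1 - u).re / √3)) (2 * (v1 - u).im) = fan (2 * (v1 - u).re / √3) (2 * (v1 - u).im)
      (2 * (v2 - u).re / √3) (2 * (v2 - u).im) (2 * (v3 - u).re / √3) (2 * (v3 - u).im) by unfold fan; ring]
    linarith
  · rw [show fan (-(2 * (v3 - u).re / √3)) (2 * (v3 - u).im) (-(2 * (v2 - u).re / √3)) (2 * (v2 - u).im)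
      (-(2 * (v1 - u).re / √3)) (2 * (v1 - u).im) = fan (2 * (v1 - u).re / √3) (2 * (v1 - u).im)
      (2 * (v2 - u).re / √3) (2 * (v2 - u).im) (2 * (v3 - u).re / √3) (2 * (v3 - u).im) by unfold fan; ring]
    linarith

/-- matched apex: the outer legs are shorter than `√3` -/
theorem Pk.M1 (h : Pk u v1 v2 v3) (hu : ‖u‖ ≤ 1 / 2) : ‖d1 + v1 - u‖ ^ 2 < 3 := by
  obtain ⟨r1, i1, -⟩ := leg_rc u v1
  have h1 := nrm u
  have h2 : ‖u‖ ^ 2 ≤ (1 / 2) ^ 2 := pow_le_pow_left₀ (norm_nonneg _) hu 2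
  have h3 := h.dom.M1 (by norm_num at h2; linarith)
  rw [nrm, r1, i1]
  linarith

theorem Pk.M3 (h : Pk u v1 v2 v3) (hu : ‖u‖ ≤ 1 / 2) : ‖d3 + v3 - u‖ ^ 2 < 3 := by
  obtain ⟨-, -, -, -, r3, i3⟩ := leg_rc u v3
  have h1 := nrm u
  have h2 : ‖u‖ ^ 2 ≤ (1 / 2) ^ 2 := pow_le_pow_left₀ (norm_nonneg _) hu 2
  have h3 := h.dom.mirror.M1 (by norm_num at h2; linarith [neg_sq (2 * u.re / √3)])
  rw [nrm, r3, i3]
  nlinarith

/-- geometry of the real fan -/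
theorem Fan0.geo (h : Fan0 u v1 v2 v3) :
    0 < cr (d1 + v1 - u) (d2 + v2 - u) ∧ 0 < cr (d2 + v2 - u) (d3 + v3 - u) ∧ 0 < cr (d1 + v1 - u) (d3 + v3 - u) ∧
    √3 * dt (d1 + v1 - u) (d3 + v3 - u) ≤ cr (d1 + v1 - u) (d3 + v3 - u) ∧ 0 < (d1 + v1 - u).re ∧ (d3 + v3 - u).re < 0 := by
  have hp := s3p
  have u1 := h.up1
  have u3 := h.up3
  have y1 := h.ray1
  have y3 := h.ray3
  have y2 := h.ray2
  have y2' := h.ray2'
  have n1 := one_le_sq h.pk.g1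
  have n2 := one_le_sq h.pk.g2
  have n3 := one_le_sq h.pk.g3
  have l1 := h.l1
  have l2 := h.l2
  have l3 := h.l3
  have n12 : 1 ≤ ‖(d2 + v2 - u) - (d1 + v1 - u)‖ ^ 2 := by
    rw [sub_sub_sub_cancel_right]; exact one_le_sq h.pk.g12
  have n23 : 1 ≤ ‖(d3 + v3 - u) - (d2 + v2 - u)‖ ^ 2 := by
    rw [sub_sub_sub_cancel_right]; exact one_le_sq h.pk.g23
  clear h
  generalize d1 + v1 - u = w1 at *
  generalize d2 + v2 - u = w2 at *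
  generalize d3 + v3 - u = w3 at *
  have re1 : 0 < w1.re := by nlinarith [mul_pos hp u1]
  have re3 : w3.re < 0 := by nlinarith [mul_pos hp u3]
  have a12 := ang30 n1 l1 n2 l2.le n12
  have a23 := ang30 n2 l2.le n3 l3 n23
  have c12 : 0 < cr w1 w2 := win12 a12 u1 y1 y2 y2'
  have c23 : 0 < cr w2 w3 := by
    have e : -w3.re * -w2.re + w3.im * w2.im ≤ √3 * |-w3.re * w2.im - w3.im * -w2.re| := by
      have e1 : -w3.re * -w2.re + w3.im * w2.im = dt w2 w3 := by simp [dt]; ring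
      have e2 : -w3.re * w2.im - w3.im * -w2.re = cr w2 w3 := by simp [cr]; ring
      rw [e1, e2]; exact a23
    have := win12 (x1 := -w3.re) (y1 := w3.im) (x2 := -w2.re) (y2 := w2.im) e u3 (by linarith) (by linarith) (by linarith)
    have e2 : -w3.re * w2.im - w3.im * -w2.re = cr w2 w3 := by simp [cr]; ring
    rwa [e2] at this
  have c13 : 0 < cr w1 w3 := by
    simp only [cr]
    have := mul_pos re1 u3
    have := mul_pos u1 (neg_pos.2 re3)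
    nlinarith
  rw [abs_of_pos c12] at a12
  rw [abs_of_pos c23] at a23
  exact ⟨c12, c23, c13, win13 c12 c23 c13 a12 a23, re1, re3⟩

end Pool.Agent.H78.P6
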